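import Pool.Agent.P.MP_0ad50f_co.BL.Defs

/-! Bridgeless graphs: degree bookkeeping. -/

namespace Pool.Agent.P.MP_0ad50f_co.BL

set_option linter.unusedSectionVars false

open Finset
open Pool.Agent.P.MP_0ad50f_co.D8 Pool.Agent.P.MP_0ad50f_co.EV

variable {V : Type} [Fintype V] [DecidableEq V]

theorem deg_le {D D' : Finset (V × V)} {v : V} (h : ∀ x, (v, x) ∈ D → (v, x) ∈ D') :
    deg D v ≤ deg D' v :=
  card_le_card fun a ha => by
    obtain ⟨a1, a2⟩ := a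
    obtain ⟨h1, h2⟩ := mem_filter.1 ha
    obtain rfl : a1 = v := h2
    exact mem_filter.2 ⟨h _ h1, rfl⟩

theorem deg_eq {D D' : Finset (V × V)} {v : V} (h : ∀ x, (v, x) ∈ D ↔ (v, x) ∈ D') :
    deg D v = deg D' v :=
  le_antisymm (deg_le fun x => (h x).1) (deg_le fun x => (h x).2)

theorem deg_add {D D1 D2 : Finset (V × V)} {v : V}
    (h : ∀ x, (v, x) ∈ D ↔ (v, x) ∈ D1 ∨ (v, x) ∈ D2) (h' : ∀ x, (v, x) ∈ D1 → (v, x) ∉ D2) :
    deg D v = deg D1 v + deg D2 v := by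
  have h1 : deg (D \ (D ∩ D2)) v + deg (D ∩ D2) v = deg D v := dg_sdiff _ inter_subset_left v
  have h2 : deg (D \ (D ∩ D2)) v = deg D1 v := deg_eq fun x => by
    have := h x
    have := h' x
    simp only [mem_sdiff, mem_inter]
    tauto
  have h3 : deg (D ∩ D2) v = deg D2 v := deg_eq fun x => by
    have := h x
    simp only [mem_inter]
    tauto
  omega

theorem deg_le_add {D D1 D2 : Finset (V × V)} {v : V}
    (h : ∀ x, (v, x) ∈ D → (v, x) ∈ D1 ∨ (v, x) ∈ D2) : deg D v ≤ deg D1 v + deg D2 v := by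
  have h1 : deg (D \ (D ∩ D2)) v + deg (D ∩ D2) v = deg D v := dg_sdiff _ inter_subset_left v
  have h2 : deg (D \ (D ∩ D2)) v ≤ deg D1 v := deg_le fun x => by
    have := h x
    simp only [mem_sdiff, mem_inter]
    tauto
  have h3 : deg (D ∩ D2) v ≤ deg D2 v := deg_le fun x hx => (mem_inter.1 hx).2
  omega

theorem ex_dart {D : Finset (V × V)} {v : V} (h : 0 < deg D v) : ∃ x, (v, x) ∈ D := by
  obtain ⟨a, ha, rfl⟩ := dg_pos.1 h
  exact ⟨a.2, ha⟩

namespace Su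

variable {E F : Finset (V × V)} {R A : Finset V}

theorem f0 (h : Su E R A F) : F ⊆ off E (R ∪ dtwo E) := h.var.sub.trans (filter_subset _ _)

theorem fE (h : Su E R A F) : F ⊆ E := h.f0.trans (filter_subset _ _)

theorem fR (h : Su E R A F) {a : V × V} (ha : a ∈ F) :
    a.1 ∉ R ∧ a.2 ∉ R ∧ deg E a.1 ≠ 2 ∧ deg E a.2 ≠ 2 := by
  have := (mem_off.1 (h.f0 ha)).2
  simp only [mem_union, mem_dtwo, not_or] at this
  tauto

theorem four (h : Su E R A F) {r v : V} (hr : r ∈ R) (hv : 0 < deg E v) :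
    4 ≤ deg E v ∧ deg E r ≤ deg E v := by
  obtain ⟨x, hx⟩ := ex_dart hv
  have h1 := h.root r hr
  have h2 : deg E r ≤ deg E v := h1.2.2 _ hx
  omega

theorem nbr (h : Su E R A F) {r v : V} (hr : r ∈ R) (hv : (r, v) ∈ E) : v ∉ R := fun m =>
  h.sys.nl _ hv (h.one _ m _ hr)

end Su

end Pool.Agent.P.MP_0ad50f_co.BL
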