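import Pool.Agent.P.MP_0ad50f_co.BL.Sgn

/-! Bridgeless graphs: the colouring. -/

namespace Pool.Agent.P.MP_0ad50f_co.BL

set_option linter.unusedSectionVars false

open Finset
open Pool.Agent.P.MP_0ad50f_co.D8 Pool.Agent.P.MP_0ad50f_co.EV

variable {V : Type} [Fintype V] [DecidableEq V] {E F X : Finset (V × V)} {R A Z : Finset V}

theorem core (h : Su E R A F) (hx : L1 E R A F X Z) : ∃ c, Col E c := by
  obtain ⟨g, g1, g2, g3, g4⟩ := signE h hx
  obtain ⟨f, f1, f2, f3, f4, f5, f6, f7⟩ := signO h hx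
  have hsp := fun v => L1.split (X := X) h v
  obtain ⟨D, hD⟩ : ∃ D, D = off (X \ F) R := ⟨_, rfl⟩
  obtain ⟨O, hO⟩ : ∃ O, O = E \ X := ⟨_, rfl⟩
  have mD : ∀ a, a ∈ D ↔ (a ∈ X ∧ a ∉ F) ∧ a.1 ∉ R ∧ a.2 ∉ R := fun a => by
    rw [hD, mem_off, mem_sdiff]
  have mO : ∀ a, a ∈ O ↔ a ∈ E ∧ a ∉ X := fun a => by rw [hO, mem_sdiff]
  have hpar := hx.par
  rw [← hD] at g1 g2 g3 g4 hsp
  rw [← hO] at f1 f2 f3 f4 f5 f6 f7 hpar
  have hDX : D ⊆ X := fun a ha => ((mD a).1 ha).1.1
  have c1 : ∀ v, deg O v + deg X v = deg E v := fun v => hO ▸ dg_sdiff _ hx.sub v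
  have c2 : ∀ v, deg (X \ D) v + deg D v = deg X v := fun v => dg_sdiff _ hDX v
  let k0 : V × V → ℤ := fun a => if a ∈ X then (if a ∈ D then 3 + g a else 2) else 2 + f a
  have s0 : ∀ v, sm E k0 v = 2 * deg O v + sm O f v + 2 * deg X v + deg D v + sm D g v :=
    fun v => by
      have e1 : sm (X \ D) k0 v = 2 * deg (X \ D) v := sm_const (fun a ha => by
        simp only [k0, if_pos (mem_sdiff.1 ha).1, if_neg (mem_sdiff.1 ha).2]) v
      have e2 : sm D k0 v = 3 * deg D v + sm D g v := by
        rw [← sm_aff]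
        exact ma_congr (fun a ha => by simp only [k0, if_pos (hDX ha), if_pos ha]) v
      have e3 : sm O k0 v = 2 * deg O v + sm O f v := by
        rw [← sm_aff]
        exact ma_congr (fun a ha => if_neg ((mO a).1 ha).2) v
      have e4 := c2 v
      rw [ma_split hx.sub, ← hO, ma_split hDX, e1, e2, e3]
      omega
  obtain ⟨l, l1, l2⟩ := h.var.sep (sm E k0) (fun a => if a ∈ X then 2 else 3 - f a) fun a ha => by
    by_cases k : a ∈ X
    · simp only [if_pos k, if_pos (hx.sy a k)]
      exact ⟨trivial, by omega⟩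
    · have k' : a.swap ∉ X := fun m => k (by simpa using hx.sy _ m)
      obtain ⟨e1, e2⟩ := f1 a ((mO a).2 ⟨h.fE ha, k⟩)
      simp only [if_neg k, if_neg k', e1]
      exact ⟨trivial, by omega⟩
  let k : V × V → ℤ := fun a => k0 a + if a ∈ F then l a else 0
  have kcase : ∀ a ∈ E, (a ∈ O ∧ f a = -1 ∧ k a = 1) ∨ (a ∈ O ∧ f a = 1 ∧ k a = 3) ∨
      (a ∈ F \ X ∧ k a = 5) ∨ (a ∈ D ∧ g a = -1 ∧ k a = 2) ∨ (a ∈ D ∧ g a = 1 ∧ k a = 4) ∨
      (a ∈ X ∩ F ∧ (k a = 2 ∨ k a = 4)) ∨ (a ∈ att X R ∧ k a = 2) := by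
    intro a ha
    by_cases h1 : a ∈ X
    · by_cases h2 : a ∈ F
      · have h3 : a ∉ D := fun m => ((mD a).1 m).1.2 h2
        have h4 := (l1 a h2).2
        simp only [if_pos h1] at h4
        refine Or.inr (Or.inr (Or.inr (Or.inr (Or.inr (Or.inl ⟨mem_inter.2 ⟨h1, h2⟩, ?_⟩)))))
        simp only [k, k0, if_pos h1, if_pos h2, if_neg h3]
        omega
      · by_cases h3 : a ∈ D
        · have h4 : k a = 3 + g a := by simp only [k, k0, if_pos h1, if_neg h2, if_pos h3, add_zero]
          rcases (g1 a h3).2 with h5 | h5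
          · exact Or.inr (Or.inr (Or.inr (Or.inr (Or.inl ⟨h3, h5, by omega⟩))))
          · exact Or.inr (Or.inr (Or.inr (Or.inl ⟨h3, h5, by omega⟩)))
        · refine Or.inr (Or.inr (Or.inr (Or.inr (Or.inr (Or.inr ⟨mem_att.2 ⟨h1, ?_⟩, ?_⟩)))))
          · rw [mD] at h3
            tauto
          · simp only [k, k0, if_pos h1, if_neg h2, if_neg h3, add_zero]
    · have h2 := (mO a).2 ⟨ha, h1⟩
      have h3 := (f1 a h2).2
      by_cases h4 : a ∈ F
      · have h5 : k a = 2 + f a + l a := by simp only [k, k0, if_neg h1, if_pos h4]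
        have h6 := (l1 a h4).2
        simp only [if_neg h1] at h6
        rcases h6 with h6 | h6
        · rcases h3 with h3 | h3
          · exact Or.inr (Or.inl ⟨h2, h3, by omega⟩)
          · exact Or.inl ⟨h2, h3, by omega⟩
        · exact Or.inr (Or.inr (Or.inl ⟨mem_sdiff.2 ⟨h4, h1⟩, by omega⟩))
      · have h5 : k a = 2 + f a := by simp only [k, k0, if_neg h1, if_neg h4, add_zero]
        rcases h3 with h3 | h3
        · exact Or.inr (Or.inl ⟨h2, h3, by omega⟩)
        · exact Or.inl ⟨h2, h3, by omega⟩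
  have kc : ∀ a ∈ E, ((k a).toNat : ℤ) = k a := fun a ha => by
    have := kcase a ha
    omega
  have hsum : ∀ v, ((∑ b ∈ E.filter (fun b => b.1 = v), (k b).toNat : ℕ) : ℤ) =
      sm E k0 v + sm F l v := fun v => by
    have e0 : ((∑ b ∈ E.filter (fun b => b.1 = v), (k b).toNat : ℕ) : ℤ) = sm E k v := by
      push_cast
      exact sum_congr rfl fun a ha => kc a (mem_filter.1 ha).1
    have e1 : sm E k v = sm E k0 v + sm E (fun a => if a ∈ F then l a else 0) v := sum_add_distrib
    rw [e0, e1, ma_split h.fE (fun a => if a ∈ F then l a else 0),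
      sm_const (c := 0) fun a ha => if_neg (mem_sdiff.1 ha).2,
      ma_congr (g := l) fun a ha => if_pos ha]
    ring
  have hl : ∀ v, 0 ≤ sm F l v ∧ 2 ∣ sm F l v := fun v => by
    refine ⟨sum_nonneg fun a ha => ?_, dvd_sum fun a ha => ?_⟩ <;>
    · have h1 := (mem_filter.1 ha).1
      have h2 := (l1 a h1).2
      by_cases h3 : a ∈ X
      · simp only [if_pos h3] at h2
        omega
      · have h4 := (f1 a ((mO a).2 ⟨h.fE h1, h3⟩)).2
        simp only [if_neg h3] at h2
        omega
  have hl0 : ∀ v, v ∈ R ∨ deg E v = 2 → sm F l v = 0 := fun v hv => sum_eq_zero fun a ha => by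
    obtain ⟨h1, rfl⟩ := mem_filter.1 ha
    have := h.fR h1
    tauto
  have cf := fun v => ma_cls f1 (r := 1) (Or.inl rfl) v
  have cf' := fun v => ma_cls f1 (r := -1) (Or.inr rfl) v
  have cg := fun v => ma_cls g1 (r := 1) (Or.inl rfl) v
  have cg' := fun v => ma_cls g1 (r := -1) (Or.inr rfl) v
  have root : ∀ r ∈ R, ∀ w, (r, w) ∈ E → ∑ b ∈ E.filter (fun b => b.1 = r), (k b).toNat ≠
      ∑ b ∈ E.filter (fun b => b.1 = w), (k b).toNat := fun r hr w hw e => by
    have e1 := hsum r
    have e2 := hsum w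
    rw [e, e2, s0, s0, hl0 r (Or.inl hr), f2 r hr] at e1
    have e3 : deg D r = 0 := deg_zero fun x m => ((mD _).1 m).2.1 hr
    have e4 := cg r
    have e5 := cg' r
    have e6 := c1 r
    have e7 := c1 w
    have e8 := h.four hr (v := w) (deg_pos (h.sys.sy _ hw))
    have e9 := (h.root r hr).1
    have e10 := (hl w).1
    have e11 := f6 r hr w hw
    have e12 := g3 w (h.nbr hr hw)
    have e13 := cg w
    omega
  have nR : ∀ v, deg E v = 2 → R = ∅ := fun v d => eq_empty_of_forall_notMem fun r hr => by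
    have := h.four hr (v := v) (by omega)
    omega
  have hX2 : ∀ v x, deg E v = 2 → (v, x) ∈ X → (v, x) ∈ D := fun v x d m =>
    (mD _).2 ⟨⟨m, fun m' => (h.fR m').2.2.1 d⟩, by simp [nR v d]⟩
  have single : ∀ v w, (v, w) ∈ E → deg E v = 2 → ¬ Lt E v →
      ∑ b ∈ E.filter (fun b => b.1 = v), (k b).toNat ≠
        ∑ b ∈ E.filter (fun b => b.1 = w), (k b).toNat := fun v w hw d hv e => by
    have e0 : deg E w ≠ 2 := fun m => hv ⟨d, w, hw, m⟩
    have e1 := hsum v
    have e2 := hsum w
    rw [e, e2, s0, s0, hl0 v (Or.inr d)] at e1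
    have e3 : deg X v ≤ deg D v := deg_le fun x => hX2 v x d
    have e4 := c2 v
    have e5 := c1 v
    have e6 := c1 w
    have e7 := h.dg w
    have e8 : 0 < deg E w := deg_pos (h.sys.sy _ hw)
    have e9 := f5 (nR v d) w e0
    have e10 := (hl w).1
    have e11 := cg w
    have e12 := f3 v hv
    have e13 := g2 v hv
    have e14 := cg' v
    have e15 := cf' v
    by_cases hA : v ∈ A
    · have := f4 v hA d
      have := (hpar v (by simp [nR v d])).2 hA
      omega
    · have : ¬ deg O v % 2 = 1 := fun m => hA ((hpar v (by simp [nR v d])).1 m)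
      omega
  refine late h.sys (fun a => (k a).toNat) (fun a ha => ⟨?_, ?_⟩) (fun a ha n1 n2 => ?_)
    (fun v n hv => ?_) fun t t' p p' ht d d' hp hp' n n' e => ?_
  · have : k a.swap = k a := by
      have e1 : a.swap ∈ X ↔ a ∈ X := ⟨fun m => by simpa using hx.sy _ m, hx.sy a⟩
      have e2 : a.swap ∈ F ↔ a ∈ F := ⟨fun m => by simpa using h.var.sy _ m, h.var.sy a⟩
      have e3 : a.swap ∈ D ↔ a ∈ D := by
        simp only [mD, e1, e2, Prod.fst_swap, Prod.snd_swap]
        tauto
      simp only [k, k0, e1, e2, e3]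
      congr 1
      · split_ifs with h1 h2
        · rw [(g1 a h2).1]
        · rfl
        · rw [(f1 a ((mO a).2 ⟨ha, h1⟩)).1]
      · split_ifs with h1
        · exact (l1 a h1).1
        · rfl
    simp only [this]
  · have := kcase a ha
    omega
  · by_cases h1 : a.1 ∈ R
    · exact root _ h1 _ ha
    by_cases h2 : a.2 ∈ R
    · exact (root _ h2 _ (h.sys.sy a ha)).symm
    by_cases h3 : deg E a.1 = 2
    · exact single _ _ ha h3 n1
    by_cases h4 : deg E a.2 = 2
    · exact (single _ _ (h.sys.sy a ha) h4 n2).symm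
    intro e
    have e1 := hsum a.1
    have e2 := hsum a.2
    rw [e, e2] at e1
    by_cases hu : a.1 ∈ A ↔ a.2 ∈ A
    · refine l2 a (mem_unc.2 ⟨mem_off.2 ⟨ha, ?_, ?_⟩, hu⟩) e1.symm
      · simp only [mem_union, mem_dtwo, h1, h3, or_self, not_false_eq_true]
      · simp only [mem_union, mem_dtwo, h2, h4, or_self, not_false_eq_true]
    · rw [← hpar _ h1, ← hpar _ h2] at hu
      rw [s0, s0] at e1
      have q1 := (hl a.1).2
      have q2 := (hl a.2).2
      have q3 := cf a.1
      have q4 := cf a.2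
      have q5 := cg a.1
      have q6 := cg a.2
      omega
  · have mem : ∀ x, (v, x) ∈ E.filter (fun b => (k b).toNat = n) → (v, x) ∈ E ∧ k (v, x) = n :=
      fun x ha => by
        obtain ⟨h1, h2⟩ := mem_filter.1 ha
        exact ⟨h1, by rw [← kc _ h1, h2]⟩
    have e1 := f3 v hv
    have e2 := g2 v hv
    by_cases n1 : n = 1
    · have : deg (E.filter fun b => (k b).toNat = n) v ≤ deg (O.filter fun a => f a = -1) v :=
        deg_le fun x ha => by
          obtain ⟨h1, h2⟩ := mem x ha
          rcases kcase _ h1 with m | m | m | m | m | m | m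
          · exact mem_filter.2 ⟨m.1, m.2.1⟩
          all_goals omega
      have := cf' v
      omega
    by_cases n3 : n = 3
    · have : deg (E.filter fun b => (k b).toNat = n) v ≤ deg (O.filter fun a => f a = 1) v :=
        deg_le fun x ha => by
          obtain ⟨h1, h2⟩ := mem x ha
          rcases kcase _ h1 with m | m | m | m | m | m | m
          · omega
          · exact mem_filter.2 ⟨m.1, m.2.1⟩
          all_goals omega
      have := cf v
      omega
    by_cases n2 : n = 2
    · have h3 : deg (E.filter fun b => (k b).toNat = n) v ≤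
          deg (D.filter fun a => g a = -1) v + deg (X ∩ F ∪ att X R) v :=
        deg_le_add fun x ha => by
          obtain ⟨h1, h2⟩ := mem x ha
          rcases kcase _ h1 with m | m | m | m | m | m | m
          · omega
          · omega
          · omega
          · exact Or.inl (mem_filter.2 ⟨m.1, m.2.1⟩)
          · omega
          · exact Or.inr (mem_union_left _ m.1)
          · exact Or.inr (mem_union_right _ m.1)
      have h4 : deg (X ∩ F ∪ att X R) v ≤ deg (X ∩ F) v + deg (att X R) v :=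
        deg_le_add fun x => mem_union.1
      have := cg' v
      omega
    by_cases n4 : n = 4
    · have h3 : deg (E.filter fun b => (k b).toNat = n) v ≤
          deg (D.filter fun a => g a = 1) v + deg (X ∩ F) v :=
        deg_le_add fun x ha => by
          obtain ⟨h1, h2⟩ := mem x ha
          rcases kcase _ h1 with m | m | m | m | m | m | m
          · omega
          · omega
          · omega
          · omega
          · exact Or.inl (mem_filter.2 ⟨m.1, m.2.1⟩)
          · exact Or.inr m.1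
          · omega
      have := cg v
      omega
    · have h0 : deg (E.filter fun b => (k b).toNat = n) v ≤ deg (F \ X) v :=
        deg_le fun x ha => by
          obtain ⟨h1, h2⟩ := mem x ha
          rcases kcase _ h1 with m | m | m | m | m | m | m
          · omega
          · omega
          · exact m.1
          all_goals omega
      have h1 := h.var.half v
      have h2 : deg (off E (R ∪ dtwo E)) v ≤ deg E v := dg_mono _ (filter_subset _ _) v
      have h3 : deg (F \ X) v ≤ deg F v := dg_mono _ sdiff_subset v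
      have h4 := hx.od v
      omega
  · have e1 : k (t, p) = k (t', p') := by
      rw [← kc _ hp, ← kc _ hp']
      exact congrArg Nat.cast e
    have ht' : (t', t) ∈ E := h.sys.sy _ ht
    have hR := nR t d
    have kO : ∀ v x, deg E v = 2 → (v, x) ∉ X → k (v, x) = 2 + f (v, x) := fun v x dv m => by
      simp only [k, k0, if_neg m, if_neg fun m' => (h.fR (a := (v, x)) m').2.2.1 dv, add_zero]
    have kD : ∀ v x, deg E v = 2 → (v, x) ∈ X → k (v, x) = 3 + g (v, x) := fun v x dv m => by
      simp only [k, k0, if_pos m, if_pos (hX2 v x dv m),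
        if_neg fun m' => (h.fR (a := (v, x)) m').2.2.1 dv, add_zero]
    have mixed : ∀ v x y, deg E v = 2 → (v, x) ∈ E → (v, x) ∉ X → (v, y) ∈ X → v ∈ A :=
      fun v x y dv m1 m2 m3 => (hpar v (by simp [hR])).1 (by
        have := deg_pos ((mO _).2 ⟨m1, m2⟩)
        have := deg_pos m3
        have := c1 v
        omega)
    have hne : ¬ (t ∈ A ∧ t' ∈ A) := fun m => h.sys.nl _ ht (h.a2 _ m.2 _ m.1 d' d)
    have hsw : (t', t) ∈ X ↔ (t, t') ∈ X := ⟨hx.sy _, hx.sy _⟩
    by_cases m : (t, p) ∈ X <;> by_cases m' : (t', p') ∈ X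
    · rw [kD _ _ d m, kD _ _ d' m'] at e1
      refine g4 t t' p p' (hX2 _ _ d (by_contra fun m2 => hne ⟨mixed _ _ _ d ht m2 m,
        mixed _ _ _ d' ht' (fun m3 => m2 (hsw.1 m3)) m'⟩)) d d' (hX2 _ _ d m) (hX2 _ _ d' m') n n'
        (by omega)
    · rw [kD _ _ d m, kO _ _ d' m'] at e1
      have := (g1 _ (hX2 _ _ d m)).2
      have := (f1 _ ((mO _).2 ⟨hp', m'⟩)).2
      omega
    · rw [kO _ _ d m, kD _ _ d' m'] at e1
      have := (g1 _ (hX2 _ _ d' m')).2
      have := (f1 _ ((mO _).2 ⟨hp, m⟩)).2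
      omega
    · rw [kO _ _ d m, kO _ _ d' m'] at e1
      refine f7 t t' p p' ((mO _).2 ⟨ht, fun m2 => hne ⟨mixed _ _ _ d hp m m2,
        mixed _ _ _ d' hp' m' (hsw.2 m2)⟩⟩) d d' ((mO _).2 ⟨hp, m⟩) ((mO _).2 ⟨hp', m'⟩) n n'
        (by omega)

end Pool.Agent.P.MP_0ad50f_co.BL
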