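import Pool.Agent.P.MP_0ad50f_co.EV.Main

/-! Bridgeless graphs: the data handed from one stage to the next. -/

namespace Pool.Agent.P.MP_0ad50f_co.BL

open Finset
open Pool.Agent.P.MP_0ad50f_co.D8 Pool.Agent.P.MP_0ad50f_co.EV

variable {V : Type} [Fintype V] [DecidableEq V]

/-- vertices of degree two -/
def dtwo (E : Finset (V × V)) : Finset V := univ.filter fun v => deg E v = 2

theorem mem_dtwo {E : Finset (V × V)} {v : V} : v ∈ dtwo E ↔ deg E v = 2 := by simp [dtwo]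

/-- root `R`, odd class `A`, variable edges `F` -/
structure Su (E : Finset (V × V)) (R A : Finset V) (F : Finset (V × V)) : Prop where
  sys : Sys E Prod.fst
  dg : ∀ v, deg E v % 2 = 0 ∨ 9 ≤ deg E v
  con : ∀ a ∈ E, ∀ b ∈ E, Reach E Prod.fst a.1 b.1
  odd : ∃ v, deg E v % 2 = 1
  one : ∀ x ∈ R, ∀ y ∈ R, x = y
  root : ∀ r ∈ R, (deg E r = 4 ∨ deg E r = 6) ∧ r ∉ A ∧ ∀ a ∈ E, deg E r ≤ deg E a.1
  var : Var (off E (R ∪ dtwo E)) A F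
  pos : ∀ v ∈ A, 0 < deg E v
  ev : A.card % 2 = 0
  a2 : ∀ x ∈ A, ∀ y ∈ A, deg E x = 2 → deg E y = 2 → x = y
  ct : ∀ v, v ∉ A → v ∉ R → 2 < deg E v → 0 < deg (off E (R ∪ dtwo E)) v

/-- the edges `X` of even colour; `Z` are the ends of static root edges in `X` -/
structure L1 (E : Finset (V × V)) (R A : Finset V) (F X : Finset (V × V)) (Z : Finset V) :
    Prop where
  sub : X ⊆ E
  sy : Sy X
  par : ∀ v, v ∉ R → (deg (E \ X) v % 2 = 1 ↔ v ∈ A)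
  rt : ∀ r ∈ R, deg X r = 2
  cap : ∀ v, v ∉ R → deg (off (X \ F) R) v + 2 * deg (X ∩ F) v + 2 * deg (att X R) v ≤
    2 * (deg E v / 2) + if v ∈ Z then 1 else 0
  zr : ∀ z ∈ Z, ∃ r ∈ R, (z, r) ∈ X
  zu : ∀ x ∈ Z, ∀ y ∈ Z, Reach (off (X \ F) R) Prod.fst x y → x = y
  od : ∀ v, deg E v % 2 = 1 → 1 ≤ deg X v ∧
    (deg X v = 1 → 2 ≤ deg (cut (off E (R ∪ dtwo E)) A) v) ∧ 2 * deg (F \ X) v ≤ deg E v
  gd : ∀ a ∈ off (X \ F) R, ¬ Good (off (X \ F) R) Prod.fst a.1 →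
    ∃ z, Reach (off (X \ F) R) Prod.fst a.1 z ∧
      deg (off (X \ F) R) z + 2 + 2 * deg (X ∩ F) z ≤ deg E z

end Pool.Agent.P.MP_0ad50f_co.BL
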