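import Pool.Agent.P.MP_0ad50f_co.BL.Tutte

/-! Bridgeless graphs: the gadget graph of the parity factor lemma. -/

namespace Pool.Agent.P.MP_0ad50f_co.BL

set_option linter.unusedSectionVars false

open Finset Sum

variable {α N : Type} [DecidableEq α] [DecidableEq N] [Fintype N]

theorem even_inv {X : Type} (S : Finset X) (σ : X → X)
    (h : ∀ x ∈ S, σ x ∈ S ∧ σ (σ x) = x ∧ σ x ≠ x) : S.card % 2 = 0 := by
  have h1 : ∑ _x ∈ S, (1 : ZMod 2) = 0 :=
    sum_involution (fun x _ => σ x) (fun _ _ => rfl) (fun x hx _ => (h x hx).2.2)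
      (fun x hx => (h x hx).1) fun x hx => (h x hx).2.1
  rw [sum_const, nsmul_eq_mul, mul_one] at h1
  exact (ZMod.natCast_eq_natCast_iff' _ 0 2).1 (by simpa using h1)

/-- number of darts at a node -/
def dn (D : Finset α) (nd : α → N) (x : N) : ℕ := (D.filter fun p => nd p = x).card

/-- adjacency in the gadget graph -/
def gadj (D : Finset α) (s : α → α) (nd : α → N) (c : N → ℕ) : α ⊕ (N × ℕ) → α ⊕ (N × ℕ) → Prop
  | inl p, inl q => p ∈ D ∧ q = s p
  | inl p, inr y => nd p = y.1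
  | inr y, inl p => nd p = y.1
  | inr y, inr z => y.1 = z.1 ∧ y.2 ≠ z.2 ∧ c y.1 ≤ y.2 ∧ c y.1 ≤ z.2 ∧
      (y.2 - c y.1) / 2 = (z.2 - c y.1) / 2

/-- inner vertices of the gadget graph -/
def inn (D : Finset α) (nd : α → N) (g : N → ℕ) : Finset (N × ℕ) :=
  (univ ×ˢ range D.card).filter fun q => q.2 + g q.1 < dn D nd q.1

theorem mem_inn {D : Finset α} {nd : α → N} {g : N → ℕ} {q : N × ℕ} :
    q ∈ inn D nd g ↔ q.2 + g q.1 < dn D nd q.1 := by
  have : dn D nd q.1 ≤ D.card := card_filter_le _ _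
  simp only [inn, mem_filter, mem_product, mem_univ, true_and, mem_range]
  omega

theorem sum_inn (D : Finset α) (nd : α → N) (g : N → ℕ) (F : N × ℕ → ℕ) :
    ∑ q ∈ inn D nd g, F q = ∑ x, ∑ j ∈ range (dn D nd x - g x), F (x, j) := by
  rw [← sum_fiberwise (inn D nd g) Prod.fst F]
  refine sum_congr rfl fun x _ => ?_
  refine sum_nbij' Prod.snd (fun j => (x, j)) (fun q hq => ?_) (fun j hj => ?_) (fun q hq => ?_)
    (fun _ _ => rfl) fun q hq => ?_
  · obtain ⟨h1, h2⟩ := mem_filter.1 hq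
    rw [mem_inn, h2] at h1
    rw [mem_range]
    omega
  · rw [mem_range] at hj
    exact mem_filter.2 ⟨mem_inn.2 (by simp only; omega), rfl⟩
  · rw [← (mem_filter.1 hq).2]
  · rw [← (mem_filter.1 hq).2]

/-- the data of the parity factor lemma -/
structure PF (D : Finset α) (s : α → α) (nd : α → N) (g f : N → ℕ) : Prop where
  inv : ∀ p ∈ D, s p ∈ D ∧ s (s p) = p ∧ s p ≠ p
  gf : ∀ x, g x ≤ f x ∧ f x ≤ dn D nd x ∧ f x % 2 = g x % 2 ∧ (g x < dn D nd x ∨ dn D nd x = 0)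
  ev : (∑ x, g x) % 2 = 0

variable {D : Finset α} {s : α → α} {nd : α → N} {g f : N → ℕ}

theorem PF.sym (h : PF D s nd g f) (c : N → ℕ) (x y : α ⊕ (N × ℕ)) (ha : gadj D s nd c x y) :
    gadj D s nd c y x := by
  rcases x with p | x <;> rcases y with q | y
  · obtain ⟨h1, rfl⟩ := ha
    exact ⟨(h.inv p h1).1, (h.inv p h1).2.1.symm⟩
  · exact ha
  · exact ha
  · obtain ⟨h1, h2, h3, h4, h5⟩ := ha
    exact ⟨h1.symm, h2.symm, h1 ▸ h4, h1 ▸ h3, h1 ▸ h5.symm⟩

theorem PF.irr (h : PF D s nd g f) (c : N → ℕ) (x : α ⊕ (N × ℕ)) : ¬ gadj D s nd c x x := by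
  rcases x with p | x
  · exact fun ha => (h.inv p ha.1).2.2 ha.2.symm
  · exact fun ha => ha.2.1 rfl

theorem PF.even (h : PF D s nd g f) : (D.disjSum (inn D nd g)).card % 2 = 0 := by
  have h1 := even_inv D s h.inv
  have h2 : (inn D nd g).card = ∑ x, (dn D nd x - g x) := by
    rw [card_eq_sum_ones, sum_inn]
    simp
  have h3 : D.card = ∑ x, dn D nd x :=
    card_eq_sum_card_fiberwise (f := nd) (t := univ) fun _ _ => mem_coe.2 (mem_univ _)
  have h4 : ∑ x, (dn D nd x - g x) + ∑ x, g x = ∑ x, dn D nd x := by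
    rw [← sum_add_distrib]
    exact sum_congr rfl fun x _ => by have := h.gf x; omega
  have h5 := h.ev
  rw [card_disjSum]
  omega

/-- a perfect matching of the gadget graph gives a parity factor -/
theorem PF.factor (h : PF D s nd g f) (m : α ⊕ (N × ℕ) → α ⊕ (N × ℕ))
    (hm : ∀ w ∈ D.disjSum (inn D nd g), m w ∈ D.disjSum (inn D nd g) ∧ m (m w) = w ∧
      gadj D s nd (fun x => dn D nd x - f x) w (m w)) :
    ∃ M ⊆ D, (∀ p ∈ M, s p ∈ M) ∧
      ∀ x, g x ≤ dn M nd x ∧ dn M nd x ≤ f x ∧ dn M nd x % 2 = g x % 2 := by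
  classical
  let M := D.filter fun p => m (inl p) = inl (s p)
  refine ⟨M, filter_subset _ _, fun p hp => ?_, fun x => ?_⟩
  · obtain ⟨h1, h2⟩ := mem_filter.1 hp
    refine mem_filter.2 ⟨(h.inv p h1).1, ?_⟩
    rw [← h2, (hm _ (inl_mem_disjSum.2 h1)).2.1, (h.inv p h1).2.1]
  let ix : α ⊕ (N × ℕ) → ℕ := Sum.elim (fun _ => 0) Prod.snd
  let A1 := (D.filter fun p => nd p = x).filter fun p => ¬ m (inl p) = inl (s p)
  let B2 := (range (dn D nd x - g x)).filter fun j => ∃ p, m (inr (x, j)) = inl p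
  let B3 := (range (dn D nd x - g x)).filter fun j => ¬ ∃ p, m (inr (x, j)) = inl p
  have e0 : dn M nd x + A1.card = dn D nd x := by
    have := card_filter_add_card_filter_not (s := D.filter fun p => nd p = x)
      fun p => m (inl p) = inl (s p)
    rwa [filter_comm] at this
  have e1 : B2.card + B3.card = dn D nd x - g x := by
    rw [card_filter_add_card_filter_not, card_range]
  have hI : ∀ j, j < dn D nd x - g x → inr (x, j) ∈ D.disjSum (inn D nd g) := fun j hj =>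
    inr_mem_disjSum.2 (mem_inn.2 (by simp only; omega))
  have k1 : ∀ p ∈ A1, ∃ j, m (inl p) = inr (x, j) ∧ j < dn D nd x - g x := fun p hp => by
    obtain ⟨h1, h2⟩ := mem_filter.1 hp
    obtain ⟨h3, h4⟩ := mem_filter.1 h1
    obtain ⟨m1, -, m3⟩ := hm _ (inl_mem_disjSum.2 h3)
    rcases e : m (inl p) with q | ⟨y, j⟩
    · rw [e] at m3 h2
      exact absurd (congrArg inl m3.2) h2
    · rw [e] at m3 m1
      obtain rfl : y = x := m3.symm.trans h4
      have := mem_inn.1 (inr_mem_disjSum.1 m1)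
      exact ⟨j, rfl, by simp only at this; omega⟩
  have k2 : ∀ j ∈ B3, ∃ i, m (inr (x, j)) = inr (x, i) ∧ i < dn D nd x - g x ∧ j ≠ i ∧
      dn D nd x - f x ≤ j := fun j hj => by
    obtain ⟨h1, h2⟩ := mem_filter.1 hj
    obtain ⟨m1, -, m3⟩ := hm _ (hI j (mem_range.1 h1))
    rcases e : m (inr (x, j)) with q | ⟨y, i⟩
    · exact absurd ⟨q, e⟩ h2
    · rw [e] at m3 m1
      obtain ⟨rfl, n2, n3, -⟩ := m3
      have := mem_inn.1 (inr_mem_disjSum.1 m1)
      exact ⟨i, rfl, by simp only at this; omega, n2, n3⟩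
  have e2 : A1.card = B2.card := by
    refine card_bij (fun p _ => ix (m (inl p))) (fun p hp => ?_) (fun p hp q hq e => ?_)
      fun j hj => ?_
    · obtain ⟨j, h1, h2⟩ := k1 p hp
      have h3 := (hm _ (inl_mem_disjSum.2 (mem_filter.1 (mem_filter.1 hp).1).1)).2.1
      rw [h1] at h3 ⊢
      exact mem_filter.2 ⟨mem_range.2 h2, p, h3⟩
    · obtain ⟨j, h1, -⟩ := k1 p hp
      obtain ⟨i, h2, -⟩ := k1 q hq
      have h3 := (hm _ (inl_mem_disjSum.2 (mem_filter.1 (mem_filter.1 hp).1).1)).2.1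
      have h4 := (hm _ (inl_mem_disjSum.2 (mem_filter.1 (mem_filter.1 hq).1).1)).2.1
      rw [h1, h2] at e
      obtain rfl : j = i := e
      rw [h1] at h3
      rw [h2, h3] at h4
      exact inl_injective h4
    · obtain ⟨h1, p, h2⟩ := mem_filter.1 hj
      obtain ⟨m1, m2, m3⟩ := hm _ (hI j (mem_range.1 h1))
      rw [h2] at m1 m2 m3
      refine ⟨p, mem_filter.2 ⟨mem_filter.2 ⟨inl_mem_disjSum.1 m1, m3⟩, ?_⟩, ?_⟩
      · rw [m2]; exact inr_ne_inl
      · rw [m2]; rfl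
  have e3 : B3.card % 2 = 0 := even_inv B3 (fun j => ix (m (inr (x, j)))) fun j hj => by
    obtain ⟨i, h1, h2, h3, -⟩ := k2 j hj
    have h4 := (hm _ (hI j (mem_range.1 (mem_filter.1 hj).1))).2.1
    rw [h1] at h4
    have h5 : ix (m (inr (x, j))) = i := by rw [h1]; rfl
    rw [h5, h4]
    refine ⟨mem_filter.2 ⟨mem_range.2 h2, ?_⟩, rfl, h3.symm⟩
    rintro ⟨p, hp⟩
    rw [h4] at hp
    exact inr_ne_inl hp
  have e4 : B3.card ≤ (Ico (dn D nd x - f x) (dn D nd x - g x)).card :=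
    card_le_card fun j hj => by
      obtain ⟨i, -, -, -, h1⟩ := k2 j hj
      exact mem_Ico.2 ⟨h1, mem_range.1 (mem_filter.1 hj).1⟩
  rw [Nat.card_Ico] at e4
  have := h.gf x
  omega

end Pool.Agent.P.MP_0ad50f_co.BL
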