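import Pool.Agent.P.MP_0ad50f_co.BL.Defs

/-! Bridgeless graphs: the good vertices of the odd level. -/

namespace Pool.Agent.P.MP_0ad50f_co.BL

set_option linter.unusedSectionVars false

open Finset
open Pool.Agent.P.MP_0ad50f_co.D8 Pool.Agent.P.MP_0ad50f_co.EV

variable {V : Type} [Fintype V] [DecidableEq V]

theorem go_sm {D : Finset (V × V)} {v x y : V} (h : deg D v = 2) (hx : (v, x) ∈ D)
    (hy : (v, y) ∈ D) (hxy : x ≠ y) (f : V × V → ℤ) : sm D f v = f (v, x) + f (v, y) := by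
  have hne : (v, x) ≠ (v, y) := fun e => hxy (Prod.mk.inj e).2
  have e : ({(v, x), (v, y)} : Finset (V × V)) = D.filter fun a => a.1 = v := by
    refine eq_of_subset_of_card_le (fun a ha => ?_) ?_
    · rcases mem_insert.1 ha with rfl | ha
      · exact mem_filter.2 ⟨hx, rfl⟩
      · rw [mem_singleton.1 ha]; exact mem_filter.2 ⟨hy, rfl⟩
    · rw [card_pair hne]; exact h.le
  change ∑ a ∈ D.filter (fun a => a.1 = v), f a = _
  rw [← e, sum_pair hne]

theorem go_even {D : Finset (V × V)} {v : V} (h : ¬ Good D Prod.fst v) : deg D v % 2 = 0 := by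
  by_contra h1
  exact h ⟨v, Reach.refl _ _ _, Nat.odd_iff.2 (by change deg D v % 2 = 1; omega)⟩

theorem go_pos {D : Finset (V × V)} (hD : Sy D) {x y : V} (h : Reach D Prod.fst x y)
    (hx : 0 < deg D x) : 0 < deg D y := by
  induction h with
  | refl => exact hx
  | tail _ hs _ =>
    obtain ⟨a, ha, -, rfl⟩ := hs
    exact dg_pos.2 ⟨_, hD a ha, rfl⟩

theorem go_cut {E F X : Finset (V × V)} {R A Z : Finset V} (hx : L1 E R A F X Z) {v : V}
    (hv : v ∉ R) (hg : ¬ Good (E \ X) Prod.fst v) :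
    deg (cut (off E (R ∪ dtwo E)) A ∩ X) v = deg (cut (off E (R ∪ dtwo E)) A) v := by
  have hA : v ∉ A := fun k => by
    have h1 := (hx.par v hv).2 k
    have h2 := go_even hg
    omega
  refine congrArg card (ext fun a => ?_)
  simp only [mem_filter, mem_inter]
  refine ⟨fun k => ⟨k.1.1, k.2⟩, fun k => ⟨⟨k.1, ?_⟩, k.2⟩⟩
  obtain ⟨k1, rfl⟩ := k
  obtain ⟨k2, k3⟩ := mem_cut.1 k1
  obtain ⟨k4, -, k5⟩ := mem_off.1 k2
  by_contra hn
  have h2 : a.2 ∈ A := by tauto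
  have h3 := (hx.par a.2 fun k => k5 (mem_union_left _ k)).2 h2
  exact hg ⟨a.2, Reach.dart Prod.fst (mem_sdiff.2 ⟨k4, hn⟩), Nat.odd_iff.2 h3⟩

theorem go_key {E F X : Finset (V × V)} {R A Z : Finset V} (h : Su E R A F)
    (hx : L1 E R A F X Z) {v : V} (hv : v ∉ R) (h2 : 2 < deg E v)
    (hg : ¬ Good (E \ X) Prod.fst v) : deg (E \ X) v + 2 ≤ deg E v := by
  have he := go_even hg
  have hA : v ∉ A := fun k => by
    have h1 := (hx.par v hv).2 k
    omega
  have h3 := go_cut hx hv hg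
  have h4 : deg (cut (off E (R ∪ dtwo E)) A ∩ X) v ≤ deg X v := dg_mono _ inter_subset_right v
  have h5 : deg (E \ X) v + deg X v = deg E v := dg_sdiff _ hx.sub v
  have h6 : deg (cut (off E (R ∪ dtwo E)) A) v + deg (unc (off E (R ∪ dtwo E)) A) v =
    deg (off E (R ∪ dtwo E)) v := dg_cut_unc _ A _ v
  have h7 := h.var.le v
  have h8 := h.ct v hA hv h2
  have h9 := hx.od v
  omega

theorem go_big {E F X : Finset (V × V)} {R A Z : Finset V} (h : Su E R A F)
    (hx : L1 E R A F X Z) {a : V × V} (ha : a ∈ E \ X) (hg : ¬ Good (E \ X) Prod.fst a.1) :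
    ∃ z, Reach (E \ X) Prod.fst a.1 z ∧ 2 < deg E z := by
  by_contra hn
  have hO : Sy (E \ X) := h.sys.sy.sdiff hx.sy
  have ht : ∀ z, Reach (E \ X) Prod.fst a.1 z → deg (E \ X) z = deg E z := fun z hz => by
    have h1 := go_pos hO hz (dg_pos.2 ⟨a, ha, rfl⟩)
    have h2 := go_even fun k => hg (Good.of_reach hz k)
    have h3 : ¬ 2 < deg E z := fun k => hn ⟨z, hz, k⟩
    have h4 : deg (E \ X) z ≤ deg E z := dg_mono _ sdiff_subset z
    omega
  have hr : ∀ z, Reach E Prod.fst a.1 z → Reach (E \ X) Prod.fst a.1 z := fun z hz => by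
    induction hz with
    | refl => exact Reach.refl _ _ _
    | tail _ hs ih =>
      obtain ⟨b, hb, rfl, rfl⟩ := hs
      exact ih.trans (Reach.dart Prod.fst (a := b)
        (mem_of_tight (v := b.1) (x := b.2) sdiff_subset (ht _ ih) hb))
  obtain ⟨v, hv⟩ := h.odd
  obtain ⟨b, hb, rfl⟩ := (dg_pos (D := E) (nd := Prod.fst) (x := v)).1
    (by change 0 < deg E v; omega)
  have h1 := hr _ (h.con a (mem_sdiff.1 ha).1 b hb)
  have h2 := ht _ h1
  have h3 := go_even fun k => hg (Good.of_reach h1 k)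
  omega

/-- a vertex of degree four in the even component of the root is joined to it in the odd level -/
theorem go_nb {E F X : Finset (V × V)} {R A Z : Finset V} (h : Su E R A F)
    (hx : L1 E R A F X Z) {r z : V} (hr : r ∈ R) (hz : z ∉ R) (h4 : deg E z = 4)
    (hrz : (r, z) ∈ E) (hp : 0 < deg (E \ X) z) (hg : ¬ Good (E \ X) Prod.fst z) :
    deg (E \ X) z = 2 ∧ (z, r) ∈ E \ X := by
  have h1 := go_key h hx hz (by omega) hg
  have h2 := go_even hg
  have h3 := go_cut hx hz hg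
  have h5 : deg (E \ X) z + deg X z = deg E z := dg_sdiff _ hx.sub z
  have h6 : deg (cut (off E (R ∪ dtwo E)) A) z + deg (unc (off E (R ∪ dtwo E)) A) z =
    deg (off E (R ∪ dtwo E)) z := dg_cut_unc _ A _ z
  have h7 := h.var.le z
  have hR : ∀ x ∈ R ∪ dtwo E, x ∈ R := fun x k => (mem_union.1 k).resolve_right fun k => by
    have k1 := mem_dtwo.1 k
    obtain ⟨b, hb, rfl⟩ := (dg_pos (D := E) (nd := Prod.fst) (x := x)).1
      (by change 0 < deg E x; omega)
    have k2 := (h.root r hr).2.2 b hb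
    have k3 := (h.root r hr).1
    omega
  have h8 := off_att E (R ∪ dtwo E) z
  have h9 : deg (att E (R ∪ dtwo E)) z ≤ 1 :=
    att_le (fun x k y k' => h.one x (hR x k) y (hR y k')) fun k => hz (hR z k)
  have h10 : deg (cut (off E (R ∪ dtwo E)) A ∩ X) z ≤ deg X z := dg_mono _ inter_subset_right z
  refine ⟨by omega, mem_sdiff.2 ⟨h.sys.sy _ hrz, fun k => ?_⟩⟩
  have k1 := mem_of_tight (L := cut (off E (R ∪ dtwo E)) A ∩ X) inter_subset_right (by omega) k
  exact (mem_off.1 (mem_cut.1 (mem_inter.1 k1).1).1).2.2 (mem_union_left _ hr)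

theorem goodO {E F X : Finset (V × V)} {R A Z : Finset V} (h : Su E R A F)
    (hx : L1 E R A F X Z) : ∃ good : V → Prop,
    (∀ v, good v → v ∉ R ∧ deg (E \ X) v + 2 ≤ deg E v) ∧
    (∀ a ∈ E \ X, ¬ Good (E \ X) Prod.fst a.1 →
      ∃ z, Reach (E \ X) Prod.fst a.1 z ∧ good z) ∧
    ∀ f : V × V → ℤ, Sgn (E \ X) f → ∀ r ∈ R, sm (E \ X) f r = -2 →
      (∀ v, v ∉ R → ¬ good v → -1 ≤ sm (E \ X) f v ∧ sm (E \ X) f v ≤ 1) →
      ∀ w, (r, w) ∈ E → deg E w = 4 → good w → ¬ Good (E \ X) Prod.fst w →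
        Reach (E \ X) Prod.fst r w → sm (E \ X) f w ≠ -2 := by
  have hO : Sy (E \ X) := h.sys.sy.sdiff hx.sy
  let g0 : V → Prop := fun v => v ∉ R ∧ deg (E \ X) v + 2 ≤ deg E v ∧
    ¬ ∃ r ∈ R, Reach (E \ X) Prod.fst r v ∧ (r, v) ∈ E ∧ deg E v = 4
  have hA : ∀ a ∈ E \ X, ¬ Good (E \ X) Prod.fst a.1 →
      (¬ ∃ r ∈ R, Reach (E \ X) Prod.fst a.1 r) → ∃ z, Reach (E \ X) Prod.fst a.1 z ∧ g0 z :=
    fun a ha hg hn => by
      obtain ⟨z, hz, h2⟩ := go_big h hx ha hg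
      have hzR : z ∉ R := fun k => hn ⟨z, k, hz⟩
      exact ⟨z, hz, hzR, go_key h hx hzR h2 fun k => hg (Good.of_reach hz k),
        fun ⟨r, k1, k2, _⟩ => hn ⟨r, k1, hz.trans (k2.symm hO)⟩⟩
  by_cases hT : ∃ r ∈ R, ¬ Good (E \ X) Prod.fst r ∧ ∀ z, Reach (E \ X) Prod.fst r z → ¬ g0 z
  · obtain ⟨r, hr, hg, hn⟩ := hT
    have hd : deg (E \ X) r + deg X r = deg E r := dg_sdiff _ hx.sub r
    have hrt := hx.rt r hr
    obtain ⟨hr1, -, hr2⟩ := h.root r hr
    have hK : ∀ z, Reach (E \ X) Prod.fst r z → z ≠ r →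
        z ∉ R ∧ deg E z = 4 ∧ deg (E \ X) z = 2 ∧ (z, r) ∈ E \ X := fun z hz hzr => by
      have k1 : z ∉ R := fun k => hzr (h.one _ k _ hr)
      have k2 : ¬ Good (E \ X) Prod.fst z := fun k => hg (Good.of_reach hz k)
      have k3 := go_pos hO hz (by omega)
      obtain ⟨b, hb, rfl⟩ := dg_pos.1 k3
      have k4 := hr2 b (mem_sdiff.1 hb).1
      have k5 := go_key h hx k1 (by omega) k2
      obtain ⟨r', k6, -, k7, k8⟩ : ∃ r ∈ R, Reach (E \ X) Prod.fst r b.1 ∧ (r, b.1) ∈ E ∧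
          deg E b.1 = 4 := by
        by_contra k
        exact hn _ hz ⟨k1, k5, k⟩
      exact ⟨k1, k8, go_nb h hx hr k1 k8 (h.one _ k6 _ hr ▸ k7) k3 k2⟩
    obtain ⟨w, hw, hwr⟩ := exists_other (D := E \ X) (v := r) (by omega) r
    have hw' : Reach (E \ X) Prod.fst r w := Reach.dart Prod.fst hw
    obtain ⟨w1, w2, w3, w4⟩ := hK w hw' hwr
    have w5 := hr2 _ (mem_sdiff.1 w4).1
    refine ⟨fun v => g0 v ∨ v = w, fun v hv => ?_, fun a ha hg' => ?_,
      fun f hf r' hr' hs hb v _ _ hv _ hv' e => ?_⟩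
    · rcases hv with hv | rfl
      · exact ⟨hv.1, hv.2.1⟩
      · exact ⟨w1, by omega⟩
    · by_cases k : ∃ r ∈ R, Reach (E \ X) Prod.fst a.1 r
      · obtain ⟨r', k1, k2⟩ := k
        obtain rfl := h.one _ k1 _ hr
        exact ⟨w, k2.trans hw', Or.inr rfl⟩
      · obtain ⟨z, k1, k2⟩ := hA a ha hg' k
        exact ⟨z, k1, Or.inl k2⟩
    · obtain rfl := h.one _ hr' _ hr
      obtain rfl := hv.resolve_left (hn v hv')
      obtain ⟨x, x1, x2⟩ := exists_other (D := E \ X) (v := v) (by omega) r'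
      have x3 : Reach (E \ X) Prod.fst r' x := hv'.trans (Reach.dart Prod.fst x1)
      have x4 : x ≠ v := h.sys.nl _ (mem_sdiff.1 x1).1
      obtain ⟨y1, -, y3, y4⟩ := hK x x3 x2
      have e1 := go_sm w3 x1 w4 x2 f
      have e2 := go_sm y3 (hO _ x1) y4 hwr f
      have e3 := go_sm (D := E \ X) (v := r') (by simp only at w5; omega) hw (hO _ y4) x4.symm f
      have e4 := hb x y1 fun k => k.elim (hn x x3) x4
      obtain ⟨s1, s2⟩ := hf _ x1
      obtain ⟨s3, s4⟩ := hf _ y4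
      have s5 := (hf _ w4).2
      have s6 := (hf _ hw).2
      simp only [Prod.swap_prod_mk] at s1 s3 e2 e3
      omega
  · refine ⟨g0, fun v hv => ⟨hv.1, hv.2.1⟩, fun a ha hg => ?_,
      fun f _ r hr _ _ w h1 h2 h3 _ h4 _ => h3.2.2 ⟨r, hr, h4, h1, h2⟩⟩
    by_cases k : ∃ r ∈ R, Reach (E \ X) Prod.fst a.1 r
    · obtain ⟨r, k1, k2⟩ := k
      by_contra k3
      exact hT ⟨r, k1, fun k => hg (Good.of_reach k2 k), fun z k4 k5 => k3 ⟨z, k2.trans k4, k5⟩⟩
    · exact hA a ha hg k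

end Pool.Agent.P.MP_0ad50f_co.BL
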