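import Pool.Agent.P.MP_0ad50f_co.EV.Main

/-! Bridgeless graphs: signs in one level, trees, cycles. -/

namespace Pool.Agent.P.MP_0ad50f_co.BL

set_option linter.unusedSectionVars false

open Finset
open Pool.Agent.P.MP_0ad50f_co.D8 Pool.Agent.P.MP_0ad50f_co.EV

variable {V : Type} [Fintype V] [DecidableEq V]

theorem lv2 {D : Finset (V × V)} (h : Sys D Prod.fst) (good two pri : V → Prop) (ε : V → ℤ)
    (hε : ∀ v, ε v = 1 ∨ ε v = -1) (h2 : ∀ v, two v → deg D v % 2 = 0 ∧ 0 < deg D v)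
    (hg : ∀ a ∈ D, ¬ Good D Prod.fst a.1 → ∃ z, Reach D Prod.fst a.1 z ∧ good z ∧ ¬ two z)
    (hp : ∀ x y, pri x → pri y → Reach D Prod.fst x y → x = y)
    (hpg : ∀ x, pri x → ¬ two x → ¬ Good D Prod.fst x → good x) :
    ∃ f : V × V → ℤ, Sgn D f ∧ (∀ v, pri v → 0 ≤ ε v * sm D f v) ∧ ∀ v,
      (two v → sm D f v = 2 ∨ sm D f v = -2) ∧ (¬ two v → (-1 ≤ sm D f v ∧ sm D f v ≤ 1) ∨
        (good v ∧ ¬ Good D Prod.fst v ∧ (sm D f v = 2 * ε v ∨
          (sm D f v = -2 * ε v ∧ ∃ p, pri p ∧ two p ∧ Reach D Prod.fst p v)))) := by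
  classical
  obtain ⟨rep0, hrep0, hcon0⟩ := rho_rep (nd := Prod.fst) h.sy
  have hp' : ∀ x y z, Reach D Prod.fst x y → Reach D Prod.fst x z → pri y → pri z → y = z :=
    fun x y z h1 h2 h3 h4 => hp y z h3 h4 ((h1.symm h.sy).trans h2)
  have hex : ∀ x, ∃ y, Reach D Prod.fst x y ∧
      (∀ z, Reach D Prod.fst x z → pri z → ¬ two z → y = z) ∧ (¬ Good D Prod.fst x →
        (∃ z, Reach D Prod.fst x z ∧ good z ∧ ¬ two z) → good y ∧ ¬ two y) := by
    intro x
    by_cases h1 : ∃ z, Reach D Prod.fst x z ∧ pri z ∧ ¬ two z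
    · obtain ⟨z, hz, hz', hz''⟩ := h1
      exact ⟨z, hz, fun y hy hy' _ => hp' x _ _ hz hy hz' hy',
        fun k _ => ⟨hpg z hz' hz'' fun m => k (m.of_reach hz), hz''⟩⟩
    · by_cases h3 : ∃ z, Reach D Prod.fst x z ∧ good z ∧ ¬ two z
      · obtain ⟨z, hz, hz'⟩ := h3
        exact ⟨z, hz, fun y hy hy' hy'' => absurd ⟨y, hy, hy', hy''⟩ h1, fun _ _ => hz'⟩
      · exact ⟨x, Reach.refl _ _ _, fun y hy hy' hy'' => absurd ⟨y, hy, hy', hy''⟩ h1,
          fun _ k => absurd k h3⟩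
  choose sel hs1 hs2 hs3 using hex
  have hex' : ∀ x, ∃ y, Reach D Prod.fst x y ∧ (∀ z, Reach D Prod.fst x z → pri z → y = z) ∧
      (y = sel x ∨ pri y) := by
    intro x
    by_cases h1 : ∃ z, Reach D Prod.fst x z ∧ pri z
    · obtain ⟨z, hz, hz'⟩ := h1
      exact ⟨z, hz, fun y hy hy' => hp' x _ _ hz hy hz' hy', Or.inr hz'⟩
    · exact ⟨sel x, hs1 x, fun y hy hy' => absurd ⟨y, hy, hy'⟩ h1, Or.inl rfl⟩
  choose rf hr1 hr2 hr3 using hex'
  let des : V → V := fun x => sel (rep0 x)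
  let rep : V → V := fun x => rf (rep0 x)
  have hdes : ∀ x, Reach D Prod.fst x (des x) := fun x => (hrep0 x).trans (hs1 _)
  have hrep : ∀ x, Reach D Prod.fst x (rep x) := fun x => (hrep0 x).trans (hr1 _)
  have hcon : ∀ x y, Reach D Prod.fst x y → rep x = rep y ∧ des x = des y := fun x y hxy => by
    simp only [rep, des, hcon0 x y hxy, and_self]
  have hpri : ∀ x, pri x → rep x = x := fun x hx => hr2 _ x ((hrep0 x).symm h.sy) hx
  let ty : V → Fin 4 := fun v => if Odd (deg D v) then 1 else if two v then 2 else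
    if ¬ Good D Prod.fst v ∧ good v ∧ des v = v then 3 else 0
  have t1 : ∀ v, Odd (deg D v) → ty v = 1 := fun v hv => if_pos hv
  have t2 : ∀ v, two v → ty v = 2 := fun v hv =>
    (if_neg (by rw [Nat.odd_iff]; have := h2 v hv; omega)).trans (if_pos hv)
  have t3 : ∀ v, ¬ Odd (deg D v) → ¬ two v → (¬ Good D Prod.fst v ∧ good v ∧ des v = v) →
      ty v = 3 := fun v hv h1 hv' => (if_neg hv).trans ((if_neg h1).trans (if_pos hv'))
  have t0 : ∀ v, ¬ Odd (deg D v) → ¬ two v → ¬ (¬ Good D Prod.fst v ∧ good v ∧ des v = v) →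
      ty v = 0 := fun v hv h1 hv' => (if_neg hv).trans ((if_neg h1).trans (if_neg hv'))
  have hpar : ∀ v, ty v = 1 ↔ Odd (deg D v) := by
    intro v
    refine ⟨fun e => ?_, t1 v⟩
    by_contra hv
    simp only [ty, if_neg hv] at e
    split_ifs at e <;> exact absurd e (by decide)
  have hroot : ∀ x, (0 < dg D Prod.fst x ∨ ty x = 2) →
      ∃ z, Reach D Prod.fst x z ∧ (ty z = 1 ∨ ty z = 3) := by
    intro x hx
    have hx' : 0 < dg D Prod.fst x := by
      refine hx.elim id fun e => (h2 x (by_contra fun k => ?_)).2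
      simp only [ty, if_neg k] at e
      split_ifs at e <;> exact absurd e (by decide)
    by_cases hG : Good D Prod.fst x
    · obtain ⟨z, hz, ho⟩ := hG
      exact ⟨z, hz, Or.inl (t1 z ho)⟩
    obtain ⟨a, ha, rfl⟩ := dg_pos.1 hx'
    obtain ⟨z, hz, hz'⟩ := hg a ha hG
    have k1 := hs3 (rep0 a.1) (fun m => hG (m.of_reach (hrep0 _)))
      ⟨z, ((hrep0 _).symm h.sy).trans hz, hz'⟩
    have k2 : ¬ Good D Prod.fst (des a.1) := fun m => hG (m.of_reach (hdes _))
    exact ⟨des a.1, hdes _, Or.inr (t3 _ (fun m => k2 ⟨_, Reach.refl _ _ _, m⟩) k1.2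
      ⟨k2, k1.1, (hcon _ _ (hdes _)).2.symm⟩)⟩
  obtain ⟨f, hf, hok⟩ := rho h ty hpar hroot
  let s : V → ℤ := fun z => if ε z * sm D f z < 0 then -1 else 1
  have hs : ∀ z, s z = 1 ∨ s z = -1 := fun z => by
    by_cases e : ε z * sm D f z < 0
    · exact Or.inr (if_pos e)
    · exact Or.inl (if_neg e)
  have hs' : ∀ z, 0 ≤ ε z * (s z * sm D f z) := fun z => by
    by_cases e : ε z * sm D f z < 0
    · have e' : s z = -1 := if_pos e
      rw [e']; linarith
    · have e' : s z = 1 := if_neg e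
      rw [e']; linarith
  have hsm : ∀ v, sm D (fun a => s (rep a.1) * f a) v = s (rep v) * sm D f v := by
    intro v
    unfold sm sg
    rw [mul_sum]
    exact sum_congr rfl fun a ha => by rw [← (mem_filter.1 ha).2]
  refine ⟨fun a => s (rep a.1) * f a, fun a ha => ?_, fun v hv => ?_, fun v =>
    ⟨fun hv => ?_, fun hv2 => ?_⟩⟩
  · have e : rep a.swap.1 = rep a.1 := (hcon _ _ (Reach.dart Prod.fst ha)).1.symm
    obtain ⟨h1, h2⟩ := hf a ha
    refine ⟨by simp only [e, h1], ?_⟩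
    rcases hs (rep a.1) with h3 | h3 <;> rcases h2 with h2 | h2 <;> simp only [h3, h2] <;> simp
  · rw [hsm, hpri v hv]
    exact hs' v
  · rw [hsm]
    have h1 := (hok v).2.2.1 (t2 v hv)
    change sm D f v = 2 ∨ sm D f v = -2 at h1
    rcases hs (rep v) with h3 | h3 <;> rcases h1 with h1 | h1 <;> rw [h3, h1] <;> simp
  · rw [hsm]
    by_cases hv : Odd (deg D v)
    · have h1 := (hok v).2.1 (t1 v hv)
      change sm D f v = 1 ∨ sm D f v = -1 at h1
      left
      rcases hs (rep v) with h3 | h3 <;> rcases h1 with h1 | h1 <;> rw [h3, h1] <;> simp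
    · by_cases hx : ¬ Good D Prod.fst v ∧ good v ∧ des v = v
      · have h1 := (hok v).2.2.2 (t3 v hv hv2 hx)
        change sm D f v = 0 ∨ sm D f v = 2 ∨ sm D f v = -2 at h1
        rcases h1 with h1 | h1
        · left; rw [h1]; simp
        refine Or.inr ⟨hx.2.1, hx.1, ?_⟩
        by_cases e : rep v = v
        · have h2 := hs' v
          rw [e]
          left
          rcases hs v with h3 | h3 <;> rcases hε v with h4 | h4 <;> rcases h1 with h1 | h1 <;>
            rw [h3, h4, h1] at h2 ⊢ <;> omega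
        · have h5 : pri (rep v) := (hr3 (rep0 v)).resolve_left fun k => e (k.trans hx.2.2)
          have h6 : two (rep v) := by_contra fun k =>
            e ((hs2 (rep0 v) _ (hr1 _) h5 k).symm.trans hx.2.2)
          have h7 : s (rep v) * sm D f v = 2 * ε v ∨ s (rep v) * sm D f v = -2 * ε v := by
            rcases hs (rep v) with h3 | h3 <;> rcases hε v with h4 | h4 <;>
              rcases h1 with h1 | h1 <;> rw [h3, h4, h1] <;> simp
          exact h7.imp_right fun k => ⟨k, rep v, h5, h6, (hrep v).symm h.sy⟩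
      · have h1 := (hok v).1 (t0 v hv hv2 hx)
        change sm D f v = 0 at h1
        left; rw [h1]; simp

/-- parents and ranks towards a root -/
theorem tree (H : Finset (V × V)) (ρ : V) : ∃ (par : V → V) (rk : V → ℕ),
    ∀ v, Reach H Prod.fst v ρ → v ≠ ρ → (v, par v) ∈ H ∧ rk (par v) < rk v := by
  classical
  let St : ℕ → V → Prop := fun n => Nat.rec (fun v => v = ρ)
    (fun _ S v => ∃ w, (v, w) ∈ H ∧ S w) n
  have h1 : ∀ v, Reach H Prod.fst v ρ → ∃ n, St n v := fun v hv => by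
    induction hv using Relation.ReflTransGen.head_induction_on with
    | refl => exact ⟨0, rfl⟩
    | head hs _ ih =>
      obtain ⟨a, ha, rfl, rfl⟩ := hs
      obtain ⟨n, hn⟩ := ih
      exact ⟨n + 1, a.2, ha, hn⟩
  let rk : V → ℕ := fun v => sInf {n | St n v}
  have h2 : ∀ v, ∃ w, Reach H Prod.fst v ρ → v ≠ ρ → (v, w) ∈ H ∧ rk w < rk v := fun v => by
    by_cases hv : Reach H Prod.fst v ρ ∧ v ≠ ρ
    · have h4 : St (rk v) v := Nat.sInf_mem (s := {n | St n v}) (h1 v hv.1)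
      rcases e : rk v with _ | n
      · rw [e] at h4
        exact absurd h4 hv.2
      · rw [e] at h4
        obtain ⟨w, w1, w2⟩ := h4
        have h7 : rk w ≤ n := Nat.sInf_le (s := {n | St n w}) w2
        exact ⟨w, fun _ _ => ⟨w1, by omega⟩⟩
    · exact ⟨v, fun a b => absurd ⟨a, b⟩ hv⟩
  choose par hpar using h2
  exact ⟨par, rk, hpar⟩

/-- a component without odd vertices contains a cycle -/
theorem cycle {D : Finset (V × V)} (h : Sys D Prod.fst) {a : V × V} (ha : a ∈ D)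
    (hG : ¬ Good D Prod.fst a.1) : ∃ C ⊆ D, Sy C ∧ C.Nonempty ∧
      (∀ b ∈ C, Reach D Prod.fst a.1 b.1) ∧ ∀ v, deg C v = 0 ∨ deg C v = 2 := by
  classical
  let K := D.filter fun b => Reach D Prod.fst a.1 b.1
  have hK : Sy K := fun b hb => mem_filter.2 ⟨h.sy b (mem_filter.1 hb).1,
    (mem_filter.1 hb).2.trans (Reach.dart _ (mem_filter.1 hb).1)⟩
  have hKe : ∀ v, deg K v % 2 = 0 := fun v => by
    by_cases hv : Reach D Prod.fst a.1 v
    · have e : deg K v = deg D v := congrArg card (by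
        ext b
        simp only [K, mem_filter]
        exact ⟨fun k => ⟨k.1.1, k.2⟩, fun k => ⟨⟨k.1, k.2 ▸ hv⟩, k.2⟩⟩)
      have : ¬ Odd (deg D v) := fun k => hG ⟨v, hv, k⟩
      rw [Nat.odd_iff] at this
      omega
    · rw [deg_zero fun x hx => hv (mem_filter.1 hx).2]
  obtain ⟨C, hC, hmin⟩ := exists_min_image
    (K.powerset.filter fun C => Sy C ∧ C.Nonempty ∧ ∀ v, deg C v % 2 = 0) card
    ⟨K, mem_filter.2 ⟨mem_powerset_self _, hK, ⟨a, mem_filter.2 ⟨ha, Reach.refl _ _ _⟩⟩, hKe⟩⟩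
  obtain ⟨c1, c2, c3, c4⟩ := mem_filter.1 hC
  rw [mem_powerset] at c1
  have hCD : C ⊆ D := c1.trans (filter_subset _ _)
  refine ⟨C, hCD, c2, c3, fun b hb => (mem_filter.1 (c1 hb)).2, fun v => ?_⟩
  by_contra hn
  have hCs : Sys C Prod.fst := h.mono hCD c2
  obtain ⟨b, hb, rfl⟩ := (dg_pos (D := C) (nd := Prod.fst) (x := v)).1
    (by change 0 < deg _ _; omega)
  obtain ⟨w', m1, m2, m3⟩ := jn_partner hCs c4 (r := b.1) (w := b.2) hb
  obtain ⟨C', d1, d2, d3, d4, d5⟩ := jn_cycle hCs Subset.rfl (off_sys hCs _).sy hb m2 m1.symm m3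
  have hsub : C' ⊆ C := fun x hx => by
    rcases d5 x hx with k | rfl | rfl | rfl | rfl
    · exact (mem_off.1 k).1
    · exact hb
    · exact c2 _ hb
    · exact m2
    · exact c2 _ m2
  have k1 := hmin C' (mem_filter.2 ⟨mem_powerset.2 (hsub.trans c1), d1,
    ⟨_, (d4 _).2 (Or.inl rfl)⟩, d2⟩)
  rw [eq_of_subset_of_card_le hsub k1] at d3
  exact hn (Or.inr d3)

end Pool.Agent.P.MP_0ad50f_co.BL
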