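import Pool.Agent.P.MP_0ad50f_co.BL.Gad

/-! Bridgeless graphs: the parity factor lemma. -/

namespace Pool.Agent.P.MP_0ad50f_co.BL

set_option linter.unusedSectionVars false

open Finset Sum

variable {α N : Type} [DecidableEq α] [DecidableEq N] [Fintype N]
variable {D : Finset α} {s : α → α} {nd : α → N} {g f : N → ℕ}

open Classical in
theorem two_sets {X : Type} [DecidableEq X] {W U : Finset X} {adj : X → X → Prop}
    {K : Finset (Finset X)} (v : Viol W adj U K) {u : X}
    (h : 3 ≤ (K.filter fun k => ∃ w ∈ k, adj u w).card) (y : X) :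
    ∃ k ∈ K, ∃ k' ∈ K, k ≠ k' ∧ ∃ w ∈ k, ∃ w' ∈ k', adj u w ∧ adj u w' ∧ w ≠ y ∧ w' ≠ y := by
  have h1 := card_filter_add_card_filter_not (s := K.filter fun k => ∃ w ∈ k, adj u w)
    fun k => y ∈ k
  have h2 : ((K.filter fun k => ∃ w ∈ k, adj u w).filter fun k => y ∈ k).card ≤ 1 :=
    card_le_one.2 fun k hk k' hk' => by_contra fun e =>
      disjoint_left.1 (v.dis k (mem_filter.1 (mem_filter.1 hk).1).1 k'
        (mem_filter.1 (mem_filter.1 hk').1).1 e) (mem_filter.1 hk).2 (mem_filter.1 hk').2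
  obtain ⟨k, hk, k', hk', e⟩ := one_lt_card.1
    (show 1 < ((K.filter fun k => ∃ w ∈ k, adj u w).filter fun k => ¬ y ∈ k).card by omega)
  obtain ⟨a1, a2⟩ := mem_filter.1 hk
  obtain ⟨a3, w, a4, a5⟩ := mem_filter.1 a1
  obtain ⟨b1, b2⟩ := mem_filter.1 hk'
  obtain ⟨b3, w', b4, b5⟩ := mem_filter.1 b1
  exact ⟨k, a3, k', b3, e, w, a4, w', b4, a5, b5, fun e => a2 (e ▸ a4), fun e => b2 (e ▸ b4)⟩

/-- the partner of an inner vertex -/
def ptn (c j : ℕ) : ℕ := if (j - c) % 2 = 0 then j + 1 else j - 1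

theorem pf (h : PF D s nd g f) (a b : α → ℕ) (l : N → ℕ) (hab : ∀ p ∈ D, 3 ≤ a p + b (s p))
    (ha : ∀ x, ∑ p ∈ D.filter (fun p => nd p = x), a p ≤ 3 * f x + l x)
    (hb : ∀ x, ∑ p ∈ D.filter (fun p => nd p = x), b p + 3 * g x ≤ 3 * dn D nd x + l x)
    (hcov : ∀ C : Finset N, (∃ p ∈ D, nd p ∈ C) → (∃ p ∈ D, nd p ∉ C) →
      3 ≤ ∑ p ∈ D.filter (fun p => nd p ∉ C ∧ nd (s p) ∈ C), min (a p) (b p) + ∑ x ∈ C, l x)
    (hl : ∑ x, l x ≤ 5) :
    ∃ M ⊆ D, (∀ p ∈ M, s p ∈ M) ∧
      ∀ x, g x ≤ dn M nd x ∧ dn M nd x ≤ f x ∧ dn M nd x % 2 = g x % 2 := by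
  classical
  let c : N → ℕ := fun x => dn D nd x - f x
  refine (tutte_form (D.disjSum (inn D nd g)) (gadj D s nd c) (h.sym c) (h.irr c) h.even
    fun U K v hK h3 => ?_).elim fun m hm => h.factor m hm
  have hWl : ∀ p, inl p ∈ D.disjSum (inn D nd g) ↔ p ∈ D := fun p => inl_mem_disjSum
  have hWr : ∀ x j, inr (x, j) ∈ D.disjSum (inn D nd g) ↔ j + g x < dn D nd x := fun x j =>
    inr_mem_disjSum.trans mem_inn
  have hkW : ∀ k ∈ K, ∀ w ∈ k, w ∈ D.disjSum (inn D nd g) ∧ w ∉ U :=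
    fun k hk w hw => mem_sdiff.1 (v.mem k hk hw)
  have both : ∀ k ∈ K, ∀ k' ∈ K, k ≠ k' → ∀ w ∈ k, ∀ w' ∈ k', ∀ z ∈ D.disjSum (inn D nd g),
      gadj D s nd c w z → gadj D s nd c w' z → z ∈ U := fun k hk k' hk' e w hw w' hw' z hz h1 h2 =>
    by_contra fun hn => disjoint_left.1 (v.dis k hk k' hk' e)
      ((v.clo k hk w hw z hz h1).resolve_right hn) ((v.clo k' hk' w' hw' z hz h2).resolve_right hn)
  have FA : ∀ p, inl p ∈ U → ∀ q ∈ D, nd q = nd p → inl q ∈ U := fun p hp q hq e => by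
    obtain ⟨k, hk, k', hk', e1, w, hw, w', hw', a1, a2, n1, n2⟩ :=
      two_sets v (h3 _ hp) (inl (s p))
    rcases w with w | w
    · exact absurd (congrArg inl a1.2) n1
    rcases w' with w' | w'
    · exact absurd (congrArg inl a2.2) n2
    exact both k hk k' hk' e1 _ hw _ hw' _ ((hWl q).2 hq) (e.trans a1) (e.trans a2)
  have FB : ∀ x j, inr (x, j) ∈ U → (∀ i, i + g x < dn D nd x → inr (x, i) ∈ U) ∧
      ∃ q ∈ D, nd q = x ∧ inl q ∉ U := fun x j hj => by
    obtain ⟨k, hk, k', hk', e1, w, hw, w', hw', a1, a2, n1, n2⟩ :=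
      two_sets v (h3 _ hj) (inr (x, ptn (c x) j))
    have key : ∀ y : N × ℕ, gadj D s nd c (inr (x, j)) (inr y) → y = (x, ptn (c x) j) := by
      rintro ⟨y, i⟩ ⟨rfl, m2, m3, m4, m5⟩
      simp only at m2 m3 m4 m5
      have : i = ptn (c x) j := by unfold ptn; split_ifs <;> omega
      rw [this]
    rcases w with w | w
    swap
    · exact absurd (congrArg inr (key w a1)) n1
    rcases w' with w' | w'
    swap
    · exact absurd (congrArg inr (key w' a2)) n2
    exact ⟨fun i hi => both k hk k' hk' e1 _ hw _ hw' _ ((hWr x i).2 hi) a1 a2,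
      w, (hWl w).1 (hkW k hk _ hw).1, a1, (hkW k hk _ hw).2⟩
  let A : N → Prop := fun x => ∃ p ∈ D, nd p = x ∧ inl p ∈ U
  let B : N → Prop := fun x => ∃ j, inr (x, j) ∈ U
  have hA : ∀ q ∈ D, A (nd q) ↔ inl q ∈ U := fun q hq =>
    ⟨fun ⟨p, _, e, hp⟩ => FA p hp q hq e.symm, fun hq' => ⟨q, hq, rfl, hq'⟩⟩
  have hB : ∀ x i, i + g x < dn D nd x → (B x ↔ inr (x, i) ∈ U) := fun x i hi =>
    ⟨fun ⟨j, hj⟩ => (FB x j hj).1 i hi, fun hi' => ⟨i, hi'⟩⟩
  have hAB : ∀ x, A x → ¬ B x := fun x hx ⟨j, hj⟩ => by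
    obtain ⟨q, h1, rfl, h2⟩ := (FB _ j hj).2
    exact h2 ((hA q h1).1 hx)
  let φ1 : α → ℕ := fun q => if A (nd (s q)) then a (s q) else 0
  let φ2 : α → ℕ := fun q => if B (nd q) then b q else 0
  let φ3 : N × ℕ → ℕ := fun y => if A y.1 then (if y.2 < c y.1 then 3 else 0) else
    if ¬ B y.1 ∧ y.2 = 0 then l y.1 else 0
  let φ : α ⊕ (N × ℕ) → ℕ := Sum.elim (fun q => φ1 q + φ2 q) φ3
  have fib : ∀ F : α → ℕ, ∑ p ∈ D, F p = ∑ x, ∑ p ∈ D.filter (fun p => nd p = x), F p :=
    fun F => (sum_fiberwise D nd F).symm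
  have tot : ∑ w ∈ D.disjSum (inn D nd g), φ w ≤ 3 * U.card + 5 := by
    have e1 : ∑ q ∈ D, φ1 q = ∑ p ∈ D, if A (nd p) then a p else 0 :=
      sum_nbij' s s (fun p hp => (h.inv p hp).1) (fun p hp => (h.inv p hp).1)
        (fun p hp => (h.inv p hp).2.1) (fun p hp => (h.inv p hp).2.1) fun _ _ => rfl
    have e2 : ((D.filter fun p => A (nd p)).disjSum
        ((inn D nd g).filter fun y => B y.1)).card ≤ U.card := card_le_card fun w hw => by
      rcases w with p | ⟨x, j⟩
      · obtain ⟨h1, h2⟩ := mem_filter.1 (inl_mem_disjSum.1 hw)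
        exact (hA p h1).1 h2
      · obtain ⟨h1, h2⟩ := mem_filter.1 (inr_mem_disjSum.1 hw)
        exact (hB x j (mem_inn.1 h1)).1 h2
    rw [card_disjSum, card_filter, card_filter, fib, sum_inn, ← sum_add_distrib] at e2
    rw [sum_disjSum]
    simp only [φ, Sum.elim_inl, Sum.elim_inr]
    rw [sum_add_distrib, e1, fib, fib φ2, sum_inn, ← sum_add_distrib, ← sum_add_distrib]
    refine le_trans ?_ (add_le_add (Nat.mul_le_mul_left 3 e2) hl)
    rw [mul_sum, ← sum_add_distrib]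
    refine sum_le_sum fun x _ => ?_
    have r1 : ∀ F : α → ℕ, ∑ p ∈ D.filter (fun p => nd p = x), (if A (nd p) then F p else 0) =
        if A x then ∑ p ∈ D.filter (fun p => nd p = x), F p else 0 := fun F => by
      split_ifs with hx
      · exact sum_congr rfl fun p hp => if_pos ((mem_filter.1 hp).2 ▸ hx)
      · exact sum_eq_zero fun p hp => if_neg ((mem_filter.1 hp).2 ▸ hx)
    have r2 : ∑ p ∈ D.filter (fun p => nd p = x), φ2 p =
        if B x then ∑ p ∈ D.filter (fun p => nd p = x), b p else 0 := by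
      split_ifs with hx
      · exact sum_congr rfl fun p hp => if_pos ((mem_filter.1 hp).2 ▸ hx)
      · exact sum_eq_zero fun p hp => if_neg ((mem_filter.1 hp).2 ▸ hx)
    rw [r1, r1, r2]
    have r3 : ∑ _p ∈ D.filter (fun p => nd p = x), 1 = dn D nd x := by simp [dn]
    have r4 := ha x
    have r5 := hb x
    have r6 := h.gf x
    by_cases hx : A x
    · have r7 : ∑ j ∈ range (dn D nd x - g x), φ3 (x, j) ≤ 3 * c x := by
        simp only [φ3, if_pos hx]
        rw [← sum_filter, sum_const, smul_eq_mul, mul_comm]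
        refine Nat.mul_le_mul_left 3 ((card_le_card fun j hj => ?_).trans (card_range _).le)
        exact mem_range.2 (mem_filter.1 hj).2
      simp only [if_pos hx, if_neg (hAB x hx), r3]
      simp only [c] at r7
      omega
    · by_cases hy : B x
      · have r7 : ∑ j ∈ range (dn D nd x - g x), φ3 (x, j) = 0 :=
          sum_eq_zero fun j _ => by simp only [φ3, if_neg hx, hy, not_true, false_and, if_false]
        simp only [if_neg hx, if_pos hy, r7, sum_const, card_range, smul_eq_mul, mul_one]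
        omega
      · have r7 : ∑ j ∈ range (dn D nd x - g x), φ3 (x, j) ≤ l x := by
          simp only [φ3, if_neg hx, hy, not_false_eq_true, true_and]
          rw [sum_ite_eq']
          split_ifs <;> omega
        simp only [if_neg hx, if_neg hy]
        omega
  have each : ∀ k ∈ K, 3 ≤ ∑ w ∈ k, φ w := fun k hk => by
    by_contra hlt
    have one : ∀ w ∈ k, φ w < 3 := fun w hw =>
      lt_of_le_of_lt (single_le_sum (fun _ _ => Nat.zero_le _) hw) (not_le.1 hlt)
    have port : ∀ q, inl q ∈ k → q ∈ D ∧ ¬ A (nd q) := fun q hq => by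
      have h1 := hkW k hk _ hq
      exact ⟨(hWl q).1 h1.1, fun e => h1.2 ((hA q ((hWl q).1 h1.1)).1 e)⟩
    have edge : ∀ q, inl q ∈ k → ¬ A (nd (s q)) → inl (s q) ∈ k := fun q hq hn => by
      have h1 := (port q hq).1
      exact (v.clo k hk _ hq _ ((hWl _).2 (h.inv q h1).1) ⟨h1, rfl⟩).resolve_right
        fun e => hn ((hA _ (h.inv q h1).1).2 e)
    have pin : ∀ q, inl q ∈ k → ¬ B (nd q) → ∀ j, j + g (nd q) < dn D nd (nd q) →
        inr (nd q, j) ∈ k := fun q hq hn j hj =>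
      (v.clo k hk _ hq _ ((hWr _ j).2 hj) rfl).resolve_right fun e => hn ⟨j, e⟩
    have inp : ∀ x j, inr (x, j) ∈ k → ¬ A x → ∀ q ∈ D, nd q = x → inl q ∈ k :=
      fun x j hj hn q hq e => (v.clo k hk _ hj _ ((hWl q).2 hq) e).resolve_right
        fun e' => hn ⟨q, hq, e, e'⟩
    have pos : ∀ q ∈ D, 0 + g (nd q) < dn D nd (nd q) := fun q hq => by
      have h1 : 0 < dn D nd (nd q) := card_pos.2 ⟨q, mem_filter.2 ⟨hq, rfl⟩⟩
      have := h.gf (nd q)
      omega
    let C : Finset N := univ.filter fun x => ¬ B x ∧ ∃ p, nd p = x ∧ inl p ∈ k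
    have hC : ∀ x, x ∈ C ↔ ¬ B x ∧ ∃ p, nd p = x ∧ inl p ∈ k := fun x => by simp [C]
    have hC0 : ∀ x ∈ C, inr (x, 0) ∈ k ∧ ¬ A x ∧ ¬ B x := fun x hx => by
      obtain ⟨h1, p, rfl, h2⟩ := (hC x).1 hx
      exact ⟨pin p h2 h1 0 (pos p (port p h2).1), (port p h2).2, h1⟩
    have hC1 : ∀ q ∈ D, nd q ∈ C → inl q ∈ k := fun q hq hx =>
      inp _ 0 (hC0 _ hx).1 (hC0 _ hx).2.1 q hq rfl
    by_cases hne : ∃ p ∈ D, nd p ∈ C
    · by_cases hall : ∃ p ∈ D, nd p ∉ C
      · have h1 := hcov C hne hall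
        have h2 : ∑ w ∈ (D.filter fun q => inl q ∈ k).disjSum (C.image fun x => (x, 0)), φ w ≤
            ∑ w ∈ k, φ w := sum_le_sum_of_subset fun w hw => by
          rcases w with p | y
          · exact (mem_filter.1 (inl_mem_disjSum.1 hw)).2
          · obtain ⟨x, hx, rfl⟩ := mem_image.1 (inr_mem_disjSum.1 hw)
            exact (hC0 x hx).1
        rw [sum_disjSum, sum_image fun x _ y _ e => (Prod.mk.inj e).1] at h2
        change ∑ q ∈ D.filter (fun q => inl q ∈ k), (φ1 q + φ2 q) + ∑ x ∈ C, φ3 (x, 0) ≤ _ at h2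
        have h3 : ∑ x ∈ C, φ3 (x, 0) = ∑ x ∈ C, l x := sum_congr rfl fun x hx => by
          simp only [φ3, if_neg (hC0 x hx).2.1, (hC0 x hx).2.2, not_false_eq_true, and_self, if_true]
        set P := D.filter (fun p => nd p ∉ C ∧ nd (s p) ∈ C) with hP
        have h4 : ∑ p ∈ P, min (a p) (b p) ≤ ∑ p ∈ P.filter (fun p => A (nd p)), φ1 (s p) +
            ∑ p ∈ P.filter (fun p => ¬ A (nd p)), φ2 p := by
          rw [← sum_filter_add_sum_filter_not P fun p => A (nd p)]
          refine add_le_add (sum_le_sum fun p hp => ?_) (sum_le_sum fun p hp => ?_)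
          · obtain ⟨m1, m2⟩ := mem_filter.1 hp
            have m3 := (h.inv p (mem_filter.1 m1).1).2.1
            simp only [φ1, m3, if_pos m2]
            exact min_le_left _ _
          · obtain ⟨m1, m2⟩ := mem_filter.1 hp
            obtain ⟨m3, m4, m5⟩ := mem_filter.1 m1
            have m6 := edge _ (hC1 _ (h.inv p m3).1 m5) (by rwa [(h.inv p m3).2.1])
            rw [(h.inv p m3).2.1] at m6
            have m7 : B (nd p) := by_contra fun e => m4 ((hC _).2 ⟨e, p, rfl, m6⟩)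
            simp only [φ2, if_pos m7]
            exact min_le_right _ _
        have h5 : ∑ p ∈ P.filter (fun p => A (nd p)), φ1 (s p) ≤
            ∑ q ∈ D.filter (fun q => inl q ∈ k), φ1 q := by
          rw [← sum_image (s := P.filter fun p => A (nd p)) (g := s) fun p hp q hq e => by
            rw [← (h.inv p (mem_filter.1 (mem_filter.1 hp).1).1).2.1, e,
              (h.inv q (mem_filter.1 (mem_filter.1 hq).1).1).2.1]]
          refine sum_le_sum_of_subset fun q hq => ?_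
          obtain ⟨p, hp, rfl⟩ := mem_image.1 hq
          obtain ⟨m3, -, m5⟩ := mem_filter.1 (mem_filter.1 hp).1
          exact mem_filter.2 ⟨(h.inv p m3).1, hC1 _ (h.inv p m3).1 m5⟩
        have h6 : ∑ p ∈ P.filter (fun p => ¬ A (nd p)), φ2 p ≤
            ∑ q ∈ D.filter (fun q => inl q ∈ k), φ2 q := by
          refine sum_le_sum_of_subset fun p hp => ?_
          obtain ⟨m1, m2⟩ := mem_filter.1 hp
          obtain ⟨m3, -, m5⟩ := mem_filter.1 m1
          have m6 := edge _ (hC1 _ (h.inv p m3).1 m5) (by rwa [(h.inv p m3).2.1])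
          rw [(h.inv p m3).2.1] at m6
          exact mem_filter.2 ⟨m3, m6⟩
        rw [sum_add_distrib] at h2
        omega
      · have hall' : ∀ p ∈ D, nd p ∈ C := fun p hp => by_contra fun e => hall ⟨p, hp, e⟩
        obtain ⟨k', hk', e⟩ := exists_mem_ne (show 1 < K.card by omega) k
        have h1 := v.odd k' hk'
        obtain ⟨w, hw⟩ := card_pos.1 (show 0 < k'.card by omega)
        refine disjoint_left.1 (v.dis k' hk' k hk e) hw ?_
        have h2 := hkW k' hk' w hw
        rcases w with p | ⟨x, j⟩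
        · exact hC1 p ((hWl p).1 h2.1) (hall' p ((hWl p).1 h2.1))
        · have h3 := (hWr x j).1 h2.1
          obtain ⟨p, hp⟩ := card_pos.1 (show 0 < dn D nd x by omega)
          obtain ⟨m1, rfl⟩ := mem_filter.1 hp
          exact pin p (hC1 p m1 (hall' p m1)) (hC0 _ (hall' p m1)).2.2 j h3
    · have h1 := v.odd k hk
      have h2 := even_inv k (Sum.map s fun y => (y.1, ptn (c y.1) y.2)) fun w hw => by
        rcases w with q | ⟨x, j⟩
        · have m1 := port q hw
          have m2 : B (nd q) := by_contra fun e => hne ⟨q, m1.1, (hC _).2 ⟨e, q, rfl, hw⟩⟩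
          have m3 : ¬ A (nd (s q)) := fun e => by
            have m4 := one _ hw
            have m5 := hab _ (h.inv q m1.1).1
            rw [(h.inv q m1.1).2.1] at m5
            simp only [φ, φ1, φ2, Sum.elim_inl, if_pos e, if_pos m2] at m4
            omega
          simp only [Sum.map_inl, (h.inv q m1.1).2.1]
          exact ⟨edge q hw m3, trivial, fun e => (h.inv q m1.1).2.2 (inl_injective e)⟩
        · have m1 := hkW k hk _ hw
          have m2 := (hWr x j).1 m1.1
          have m3 : ¬ B x := fun e => m1.2 ((hB x j m2).1 e)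
          have m4 : A x := by_contra fun e => by
            obtain ⟨p, hp⟩ := card_pos.1 (show 0 < dn D nd x by omega)
            obtain ⟨n1, n2⟩ := mem_filter.1 hp
            exact hne ⟨p, n1, (hC _).2 ⟨n2 ▸ m3, p, rfl, inp x j hw e p n1 n2⟩⟩
          have m5 : c x ≤ j := by
            have m6 := one _ hw
            simp only [φ, φ3, Sum.elim_inr, if_pos m4] at m6
            split_ifs at m6 <;> omega
          have m6 := h.gf x
          have m7 : c x = dn D nd x - f x := rfl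
          have m8 : ptn (c x) j + g x < dn D nd x ∧ j ≠ ptn (c x) j ∧ c x ≤ ptn (c x) j ∧
              (j - c x) / 2 = (ptn (c x) j - c x) / 2 ∧ ptn (c x) (ptn (c x) j) = j := by
            unfold ptn
            split_ifs <;> omega
          simp only [Sum.map_inr, m8.2.2.2.2]
          refine ⟨(v.clo k hk _ hw _ ((hWr x _).2 m8.1)
            ⟨rfl, m8.2.1, m5, m8.2.2.1, m8.2.2.2.1⟩).resolve_right fun e => m3 ⟨_, e⟩, trivial,
            fun e => m8.2.1 (Prod.mk.inj (inr_injective e)).2.symm⟩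
      omega
  have fin1 : ∑ k ∈ K, 3 ≤ ∑ k ∈ K, ∑ w ∈ k, φ w := sum_le_sum each
  have fin2 : ∑ w ∈ K.biUnion id, φ w = ∑ k ∈ K, ∑ w ∈ k, φ w :=
    sum_biUnion fun k hk k' hk' e => v.dis k hk k' hk' e
  have fin3 : ∑ w ∈ K.biUnion id, φ w ≤ ∑ w ∈ D.disjSum (inn D nd g), φ w :=
    sum_le_sum_of_subset (biUnion_subset.2 fun k hk => (v.mem k hk).trans sdiff_subset)
  rw [sum_const, smul_eq_mul] at fin1
  omega

end Pool.Agent.P.MP_0ad50f_co.BL
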