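import Mathlib

/-! Bridgeless graphs: the local table. -/

namespace Pool.Agent.P.MP_0ad50f_co.BL

/-- a gadget for a vertex of degree `d` with `h` heavy edges and budget `L` -/
def Tab (d h L ε : ℕ) (P : ℕ → ℕ → Prop) : Prop :=
  ∃ h' t g f y0 : ℕ, ((h' = 0 ∧ t = 0 ∧ y0 = 0) ∨
      (y0 = 1 ∧ ((h' = 2 ∧ t = 1) ∨ (h' = 4 ∧ t = 2) ∨ (h' = 5 ∧ t = 2)))) ∧ h' ≤ h ∧ g ≤ f ∧
    f + h' ≤ d + y0 ∧ f % 2 = g % 2 ∧ (g + h' < d + y0 ∨ d = 0) ∧ (g + t) % 2 = ε ∧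
    2 * d + 3 * t ≤ 3 * f + L + h + 2 * h' ∧ 3 * g + 2 * h' ≤ d + 3 * t + L ∧
    ∀ z u e y, u ≤ h' → z + h' ≤ h → e + h ≤ d → y ≤ y0 → u + y = t → g ≤ z + e + y →
      z + e + y ≤ f → (z + e + y) % 2 = g % 2 → P e (z + u)

/-- the demands on the static and heavy edges of even colour -/
def Pv (d h ε e u : ℕ) : Prop :=
  (e + u) % 2 = ε ∧ e + 2 * u ≤ 2 * (d / 2) ∧
    (d % 2 = 1 → 1 ≤ e + u ∧ (h ≤ 1 → 2 ≤ e + u) ∧ (h = d / 2 + 1 → 1 ≤ u))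

theorem table {d h L ε : ℕ} (hε : ε < 2) (hd : (d = 0 ∧ h = 0 ∧ ε = 0) ∨ (1 ≤ L ∧
    ((d = 2 ∧ h = 0) ∨ (d % 2 = 0 ∧ 4 ≤ d ∧ 2 * h ≤ d) ∨ (d % 2 = 0 ∧ 6 ≤ d ∧ 2 * h = d + 2) ∨
      (d = 4 ∧ h = 3 ∧ 2 ≤ L) ∨ (9 ≤ d ∧ d % 2 = 1 ∧ 2 * h ≤ d + 1)))) :
    Tab d h L ε (Pv d h ε) := by
  obtain ⟨k, hk⟩ : ∃ k, k = d / 2 := ⟨_, rfl⟩
  have mk : ∀ h' t g f y0 : ℕ, ((h' = 0 ∧ t = 0 ∧ y0 = 0) ∨
      (y0 = 1 ∧ ((h' = 2 ∧ t = 1) ∨ (h' = 4 ∧ t = 2) ∨ (h' = 5 ∧ t = 2)))) →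
      (h' ≤ h ∧ g ≤ f ∧ f + h' ≤ d + y0 ∧ f % 2 = g % 2 ∧ (g + h' < d + y0 ∨ d = 0) ∧
        (g + t) % 2 = ε ∧ 2 * d + 3 * t ≤ 3 * f + L + h + 2 * h' ∧
        3 * g + 2 * h' ≤ d + 3 * t + L) →
      (∀ z u e y, u ≤ h' → z + h' ≤ h → e + h ≤ d → y ≤ y0 → u + y = t → g ≤ z + e + y →
        z + e + y ≤ f → (z + e + y) % 2 = g % 2 → Pv d h ε e (z + u)) →
      Tab d h L ε (Pv d h ε) := fun h' t g f y0 h1 ⟨a1, a2, a3, a4, a5, a6, a7, a8⟩ h3 =>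
    ⟨h', t, g, f, y0, h1, a1, a2, a3, a4, a5, a6, a7, a8, h3⟩
  rcases hd with hd | ⟨hL, hd⟩
  · refine mk 0 0 0 0 0 (by omega) (by omega) ?_
    intros; unfold Pv; omega
  by_cases he : d % 2 = 0
  · by_cases h1 : h + 1 ≤ k
    · refine mk 0 0 ε (2 * k - h - (h + ε) % 2) 0 (by omega) (by omega) ?_
      intros; unfold Pv; omega
    by_cases h2 : k % 2 = ε
    · refine mk 0 0 ε k 0 (by omega) (by omega) ?_
      intros; unfold Pv; omega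
    by_cases h3 : h = k
    · refine mk 2 1 (k % 2) k 1 (by omega) (by omega) ?_
      intros; unfold Pv; omega
    by_cases h4 : 3 ≤ k
    · refine mk 4 2 ε (k - 1) 1 (by omega) (by omega) ?_
      intros; unfold Pv; omega
    · refine mk 0 0 1 1 0 (by omega) (by omega) ?_
      intros; unfold Pv; omega
  · by_cases h1 : h ≤ 1
    · refine mk 0 0 (2 + ε) (2 * k - h - (h + ε) % 2) 0 (by omega) (by omega) ?_
      intros; unfold Pv; omega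
    by_cases h2 : h + 2 ≤ k
    · refine mk 0 0 (2 - ε) (2 * k - h - (h + ε) % 2) 0 (by omega) (by omega) ?_
      intros; unfold Pv; omega
    by_cases h3 : h + 1 = k
    · by_cases h4 : k % 2 = ε
      · refine mk 2 1 (3 - 3 * ε) (k + 1) 1 (by omega) (by omega) ?_
        intros; unfold Pv; omega
      · refine mk 0 0 (2 - ε) (k + 1) 0 (by omega) (by omega) ?_
        intros; unfold Pv; omega
    by_cases h4 : h = k
    · by_cases h5 : k % 2 = ε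
      · refine mk 4 2 ε k 1 (by omega) (by omega) ?_
        intros; unfold Pv; omega
      · refine mk 2 1 (3 - 3 * ε) k 1 (by omega)
          (by rcases (by omega : ε = 0 ∨ ε = 1) with rfl | rfl <;> omega) ?_
        intros; unfold Pv; omega
    · refine mk 5 2 ε (k - (k + ε) % 2) 1 (by omega) (by omega) ?_
      intros; unfold Pv; omega

end Pool.Agent.P.MP_0ad50f_co.BL
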