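import Pool.Agent.P.MP_0ad50f_co.EV.Main
import Pool.Agent.P.MP_0ad50f_co.BL.PF
import Pool.Agent.P.MP_0ad50f_co.BL.Tab

/-! Bridgeless graphs: the edges of even colour. -/

namespace Pool.Agent.P.MP_0ad50f_co.BL

set_option linter.unusedSectionVars false

open Finset Sum
open Pool.Agent.P.MP_0ad50f_co.D8 Pool.Agent.P.MP_0ad50f_co.EV

variable {V : Type} [Fintype V] [DecidableEq V]

/-- no edge is alone in a cut -/
def Brl (E : Finset (V × V)) : Prop :=
  ∀ W : Finset V, ∀ a ∈ E, a.1 ∉ W → a.2 ∈ W → ∃ b ∈ E, b ≠ a ∧ b.1 ∉ W ∧ b.2 ∈ W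

theorem one {E H : Finset (V × V)} (hE : Sys E Prod.fst) (hH : H ⊆ E) (hHs : Sy H) (hbr : Brl E)
    (par : V → V) (rk : V → ℕ) (ρ : V)
    (htree : ∀ v, 0 < deg E v → v ≠ ρ → (v, par v) ∈ E ∧ (v, par v) ∉ H ∧ rk (par v) < rk v)
    (l : V → ℕ) (hl : ∑ v, l v ≤ 5) (hρ : 2 ≤ l ρ) (ε : V → ℕ) (hε : (∑ v, ε v) % 2 = 0)
    (P : V → ℕ → ℕ → Prop) (hT : ∀ v, Tab (deg E v) (deg H v)
      (l v + if 0 < deg E v ∧ v ≠ ρ then 1 else 0) (ε v) (P v)) :
    ∃ X ⊆ E, Sy X ∧ ∀ v, P v (deg (X \ H) v) (deg (X ∩ H) v) := by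
  classical
  choose h' t g f y0 t0 t1 t2 t3 t4 t5 t6 t7 t8 t9 using hT
  have hex : ∀ v, ∃ G ⊆ H.filter fun a => a.1 = v, G.card = h' v :=
    fun v => exists_subset_card_eq (t1 v)
  choose G hG hGc using hex
  have hG1 : ∀ v, ∀ a ∈ G v, a ∈ H ∧ a.1 = v := fun v a ha => mem_filter.1 (hG v ha)
  have hGy : ∀ v, ∀ a ∈ G v, y0 v = 1 := fun v a ha => by
    have := card_pos.2 ⟨a, ha⟩
    have := hGc v
    have := t0 v
    omega
  have hdH : ∀ v, deg (E \ H) v + deg H v = deg E v := fun v => dg_sdiff _ hH v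
  have hy0 : ∀ v, y0 v = 1 → 0 < deg E v := fun v hv => by
    have := t0 v
    have := t1 v
    have := hdH v
    omega
  let D : Finset ((V × V) ⊕ (V × Bool)) := E.disjSum (univ.filter fun y => y0 y.1 = 1)
  let s : (V × V) ⊕ (V × Bool) → (V × V) ⊕ (V × Bool) := Sum.map Prod.swap fun y => (y.1, !y.2)
  let nd : (V × V) ⊕ (V × Bool) → V × Bool := Sum.elim (fun a => (a.1, decide (a ∈ G a.1))) id
  have hDl : ∀ a, inl a ∈ D ↔ a ∈ E := fun a => inl_mem_disjSum
  have hDr : ∀ y, inr y ∈ D ↔ y0 y.1 = 1 := fun y => inr_mem_disjSum.trans (by simp)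
  let Em : V → Finset (V × V) := fun v => (E.filter fun a => a.1 = v) \ G v
  have hGE : ∀ v, G v ⊆ E.filter fun a => a.1 = v := fun v a ha =>
    mem_filter.2 ⟨hH (hG1 v a ha).1, (hG1 v a ha).2⟩
  have hEm : ∀ v, (Em v).card + h' v = deg E v := fun v => by
    rw [← hGc]
    exact card_sdiff_add_card_eq_card (hGE v)
  have hsum : ∀ (F : (V × V) ⊕ (V × Bool) → ℕ) (v : V) (β : Bool),
      ∑ p ∈ D.filter (fun p => nd p = (v, β)), F p =
        ∑ a ∈ (if β then G v else Em v), F (inl a) + y0 v * F (inr (v, β)) := by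
    intro F v β
    rw [sum_filter, sum_disjSum, ← sum_filter]
    congr 1
    · refine sum_congr ?_ fun _ _ => rfl
      ext a
      have h1 := @hGE v a
      cases β <;>
        simp only [nd, Em, Sum.elim_inl, mem_filter, Prod.mk.injEq, mem_sdiff, decide_eq_true_eq,
          decide_eq_false_iff_not, if_true, Bool.false_eq_true, if_false] at h1 ⊢
      · exact ⟨fun ⟨a1, a2, a3⟩ => ⟨⟨a1, a2⟩, a2 ▸ a3⟩, fun ⟨⟨a1, a2⟩, a3⟩ => ⟨a1, a2, a2 ▸ a3⟩⟩
      · exact ⟨fun ⟨_, a2, a3⟩ => a2 ▸ a3, fun a3 => ⟨(h1 a3).1, (h1 a3).2, (h1 a3).2 ▸ a3⟩⟩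
    · refine Eq.trans (sum_ite_eq' (univ.filter fun y : V × Bool => y0 y.1 = 1) (v, β)
        fun y => F (inr y)) ?_
      have := t0 v
      by_cases hv : y0 v = 1
      · simp [hv]
      · have h0 : y0 v = 0 := by omega
        simp [h0]
  have hdn : ∀ v β, dn D nd (v, β) = (if β then h' v else deg E v - h' v) + y0 v := fun v β => by
    have h1 := hsum (fun _ => 1) v β
    have h2 := hEm v
    have h3 := hGc v
    unfold dn
    cases β <;> simp only [sum_const, smul_eq_mul, mul_one, if_true, Bool.false_eq_true,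
      if_false] at h1 ⊢ <;> omega
  let ip : V × V → Prop := fun a => a ∉ H ∧ a.2 = par a.1 ∧ a.1 ≠ ρ
  let aw : (V × V) ⊕ (V × Bool) → ℕ := Sum.elim (fun a => if a ∈ H ∨ ip a then 1 else 2)
    fun y => 3 * t y.1 - h' y.1
  let bw : (V × V) ⊕ (V × Bool) → ℕ := Sum.elim (fun a => if ip a then 1 else 2)
    fun y => 3 + h' y.1 - 3 * t y.1
  have hip : ∀ a ∈ E, ip a → ¬ ip a.swap := fun a ha h1 h2 => by
    have k1 := (htree a.1 (deg_pos (x := a.2) ha) h1.2.2).2.2
    have k2 := (htree a.2 (deg_pos (x := a.1) (hE.sy a ha)) h2.2.2).2.2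
    have k3 : a.1 = par a.2 := h2.2.1
    rw [← h1.2.1] at k1
    rw [← k3] at k2
    omega
  have hw1 : ∀ p ∈ D, 1 ≤ min (aw p) (bw p) := fun p hp => by
    rcases p with a | y
    · simp only [aw, bw, Sum.elim_inl]
      split_ifs <;> simp
    · have := (hDr y).1 hp
      have := t0 y.1
      simp only [aw, bw, Sum.elim_inr]
      omega
  have hpp : ∀ v, (if 0 < deg E v ∧ v ≠ ρ then 1 else 0) ≤
      ∑ a ∈ Em v, if ip a then 1 else 0 := fun v => by
    split_ifs with hv
    · obtain ⟨h1, h2, -⟩ := htree v hv.1 hv.2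
      have h3 : (v, par v) ∈ Em v :=
        mem_sdiff.2 ⟨mem_filter.2 ⟨h1, rfl⟩, fun e => h2 (hG1 v _ e).1⟩
      have h4 := single_le_sum (f := fun a => if ip a then 1 else 0) (fun _ _ => Nat.zero_le _) h3
      rwa [if_pos ⟨h2, rfl, hv.2⟩] at h4
    · exact Nat.zero_le _
  have hmain : ∀ a, a ∉ H → nd (inl a) = (a.1, false) := fun a ha => by
    have : a ∉ G a.1 := fun e => ha (hG1 _ a e).1
    simp [nd, this]
  have hcase : ∀ a, nd (inl a) = (a.1, false) ∨ (nd (inl a) = (a.1, true) ∧ a ∈ G a.1) :=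
    fun a => by by_cases h : a ∈ G a.1 <;> simp [nd, h]
  obtain ⟨M, hMD, hMs, hM⟩ := pf (D := D) (s := s) (nd := nd)
    (g := fun x => if x.2 then t x.1 else g x.1) (f := fun x => if x.2 then t x.1 else f x.1)
    ⟨fun p hp => by
      rcases p with a | ⟨v, β⟩
      · exact ⟨(hDl _).2 (hE.sy a ((hDl a).1 hp)), rfl,
          fun e => hE.ne_swap ((hDl a).1 hp) (inl_injective e)⟩
      · exact ⟨(hDr (v, !β)).2 ((hDr (v, β)).1 hp), by simp [s], by simp [s]⟩,
    fun ⟨v, β⟩ => by
      rw [hdn]
      have := t0 v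
      have := t1 v
      have := t2 v
      have := t3 v
      have := t4 v
      have := t5 v
      have := hdH v
      cases β <;> simp only [if_true, Bool.false_eq_true, if_false, true_and] <;> omega,
    by
      rw [Fintype.sum_prod_type, sum_nat_mod, ← hε]
      congr 1
      refine sum_congr rfl fun v _ => ?_
      rw [Fintype.sum_bool, ← t6 v, add_comm]
      simp⟩ aw bw (fun x => if x.2 then 0 else l x.1)
    (fun p hp => by
      rcases p with a | y
      · have h1 := hip a ((hDl a).1 hp)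
        have h2 : a ∈ H → ¬ ip a.swap := fun h e => e.1 (hHs a h)
        simp only [aw, bw, s, Sum.map_inl, Sum.elim_inl]
        split_ifs with h3 h4 <;> first | omega | exact absurd h4 (h3.elim h2 h1)
      · have := (hDr y).1 hp
        have := t0 y.1
        simp only [aw, bw, s, Sum.map_inr, Sum.elim_inr]
        omega)
    (fun ⟨v, β⟩ => by
      rw [hsum]
      have k0 := t0 v
      cases β
      · have k1 : ∑ a ∈ Em v, aw (inl a) + ∑ a ∈ Em v, (if ip a then 1 else 0) =
            ∑ _a ∈ Em v, 1 + ∑ a ∈ Em v, if a ∉ H then 1 else 0 := by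
          rw [← sum_add_distrib, ← sum_add_distrib]
          refine sum_congr rfl fun a _ => ?_
          simp only [aw, Sum.elim_inl]
          by_cases h1 : a ∈ H
          · simp [h1, ip]
          · by_cases h2 : ip a <;> simp [h1, h2]
        have k2 : ∑ a ∈ Em v, (if a ∉ H then 1 else 0) ≤ deg (E \ H) v := by
          rw [← card_filter]
          exact card_le_card fun a ha => by
            obtain ⟨h1, h2⟩ := mem_filter.1 ha
            obtain ⟨h3, h4⟩ := mem_filter.1 (mem_sdiff.1 h1).1
            exact mem_filter.2 ⟨mem_sdiff.2 ⟨h3, h2⟩, h4⟩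
        have k3 := hpp v
        have k4 := hEm v
        have k5 := hdH v
        have k6 := t7 v
        rw [sum_const, smul_eq_mul, mul_one] at k1
        simp only [aw, Sum.elim_inr, Bool.false_eq_true, if_false] at k1 ⊢
        rcases k0 with ⟨a1, a2, a3⟩ | ⟨a3, a1⟩ <;> rw [a3] <;> omega
      · have k1 : ∑ a ∈ G v, aw (inl a) = h' v := by
          rw [← hGc, card_eq_sum_ones]
          exact sum_congr rfl fun a ha => if_pos (Or.inl (hG1 v a ha).1)
        simp only [if_true, k1]
        simp only [aw, Sum.elim_inr]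
        rcases k0 with ⟨a1, a2, a3⟩ | ⟨a3, a1⟩ <;> rw [a3] <;> omega)
    (fun ⟨v, β⟩ => by
      rw [hsum, hdn]
      have k0 := t0 v
      cases β
      · have k1 : ∑ a ∈ Em v, bw (inl a) + ∑ a ∈ Em v, (if ip a then 1 else 0) =
            ∑ _a ∈ Em v, 2 := by
          rw [← sum_add_distrib]
          refine sum_congr rfl fun a _ => ?_
          simp only [bw, Sum.elim_inl]
          split_ifs <;> rfl
        have k3 := hpp v
        have k4 := hEm v
        have k6 := t8 v
        rw [sum_const, smul_eq_mul] at k1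
        simp only [bw, Sum.elim_inr, Bool.false_eq_true, if_false] at k1 ⊢
        rcases k0 with ⟨a1, a2, a3⟩ | ⟨a3, a1⟩ <;> rw [a3] <;> omega
      · have k1 : ∑ a ∈ G v, bw (inl a) = h' v * 2 := by
          rw [← hGc, ← smul_eq_mul, ← sum_const]
          exact sum_congr rfl fun a ha => if_neg fun e => e.1 (hG1 v a ha).1
        simp only [if_true, k1]
        simp only [bw, Sum.elim_inr]
        rcases k0 with ⟨a1, a2, a3⟩ | ⟨a3, a1⟩ <;> rw [a3] <;> omega)
    (fun C hin hout => by
      set Q := D.filter (fun p => nd p ∉ C ∧ nd (s p) ∈ C) with hQ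
      have hQc : Q.card ≤ ∑ p ∈ Q, min (aw p) (bw p) := by
        rw [card_eq_sum_ones]
        exact sum_le_sum fun p hp => hw1 p (mem_filter.1 hp).1
      have vq : ∀ v β, y0 v = 1 → (v, β) ∉ C → (v, !β) ∈ C → inr (v, β) ∈ Q :=
        fun v β h1 h2 h3 => mem_filter.2 ⟨(hDr _).2 h1, h2, h3⟩
      by_cases hρC : (ρ, false) ∈ C
      · have h1 := single_le_sum (f := fun x : V × Bool => if x.2 then 0 else l x.1)
          (fun _ _ => Nat.zero_le _) hρC
        simp only [Bool.false_eq_true, if_false] at h1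
        have h2 : 0 < Q.card := by
          by_contra h2
          have h3 : ∀ p, p ∉ Q := fun p hp => h2 (card_pos.2 ⟨p, hp⟩)
          have h4 : ∀ n v, rk v = n → 0 < deg E v → (v, false) ∈ C := fun n => by
            induction n using Nat.strong_induction_on with
            | _ n ih =>
            intro v hn hv
            by_cases e : v = ρ
            · exact e ▸ hρC
            obtain ⟨m1, m2, m3⟩ := htree v hv e
            by_contra m4
            refine h3 (inl (v, par v)) (mem_filter.2 ⟨(hDl _).2 m1, by rwa [hmain _ m2], ?_⟩)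
            change nd (inl (par v, v)) ∈ C
            rw [hmain _ fun k => m2 (hHs (par v, v) k)]
            exact ih _ (hn ▸ m3) _ rfl (deg_pos (hE.sy _ m1))
          have h5 : ∀ v, y0 v = 1 → (v, true) ∈ C := fun v hv => by_contra fun e =>
            h3 _ (vq v true hv e (h4 _ v rfl (hy0 v hv)))
          obtain ⟨p, hp, hp'⟩ := hout
          apply hp'
          rcases p with a | ⟨v, β⟩
          · rcases hcase a with e | ⟨e, e'⟩ <;> rw [e]
            · exact h4 _ _ rfl (deg_pos (x := a.2) ((hDl a).1 hp))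
            · exact h5 _ (hGy _ a e')
          · cases β
            · exact h4 _ v rfl (hy0 v ((hDr _).1 hp))
            · exact h5 v ((hDr _).1 hp)
        omega
      refine le_trans ?_ (Nat.le_add_right _ _)
      by_cases hm : ∃ v, 0 < deg E v ∧ (v, false) ∈ C
      · obtain ⟨v, hv, hmin⟩ := exists_min_image
          (univ.filter fun v => 0 < deg E v ∧ (v, false) ∈ C) rk
          (hm.imp fun v hv => mem_filter.2 ⟨mem_univ _, hv⟩)
        obtain ⟨h1, h2⟩ := (mem_filter.1 hv).2
        have h3 : v ≠ ρ := fun e => hρC (e ▸ h2)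
        obtain ⟨m1, m2, m3⟩ := htree v h1 h3
        have m4 : (par v, v) ∉ H := fun k => m2 (hHs _ k)
        have m5 : (par v, false) ∉ C := fun k => by
          have := hmin (par v) (mem_filter.2 ⟨mem_univ _, deg_pos (hE.sy _ m1), k⟩)
          omega
        have m6 : inl (par v, v) ∈ Q := mem_filter.2 ⟨(hDl _).2 (hE.sy _ m1),
          by rwa [hmain _ m4], by
            change nd (inl (v, par v)) ∈ C
            rwa [hmain _ m2]⟩
        have m7 : min (aw (inl (par v, v))) (bw (inl (par v, v))) = 2 := by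
          have : ¬ ip (par v, v) := hip (v, par v) m1 ⟨m2, rfl, h3⟩
          simp [aw, bw, this, m4]
        obtain ⟨q, q1, q2⟩ : ∃ q ∈ Q, q ≠ inl (par v, v) := by
          obtain ⟨b, b1, b2, b3, b4⟩ := hbr (univ.filter fun x => (x, false) ∈ C) (par v, v)
            (hE.sy _ m1) (by simpa using m5) (by simpa using h2)
          simp only [mem_filter, mem_univ, true_and] at b3 b4
          by_cases c1 : nd (inl b.swap) ∈ C
          · by_cases c2 : nd (inl b) ∈ C
            · rcases hcase b with e | ⟨e, e'⟩ <;> rw [e] at c2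
              · exact absurd c2 b3
              · exact ⟨_, vq b.1 false (hGy _ _ e') b3 c2, inr_ne_inl⟩
            · exact ⟨inl b, mem_filter.2 ⟨(hDl b).2 b1, c2, c1⟩, fun e => b2 (inl_injective e)⟩
          · rcases hcase b.swap with e | ⟨e, e'⟩ <;> rw [e] at c1
            · exact absurd b4 c1
            · exact ⟨_, vq b.2 true (hGy _ _ e') c1 b4, inr_ne_inl⟩
        have m8 := sum_le_sum_of_subset (f := fun p => min (aw p) (bw p))
          (show ({q, inl (par v, v)} : Finset _) ⊆ Q by
            rw [insert_subset_iff, singleton_subset_iff]; exact ⟨q1, m6⟩)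
        rw [sum_pair q2, m7] at m8
        have m9 := hw1 q (mem_filter.1 q1).1
        omega
      · have hm' : ∀ v, 0 < deg E v → (v, false) ∉ C := fun v h1 h2 => hm ⟨v, h1, h2⟩
        obtain ⟨v, v1, v2⟩ : ∃ v, y0 v = 1 ∧ (v, true) ∈ C := by
          obtain ⟨p, hp, hp'⟩ := hin
          rcases p with a | ⟨v, β⟩
          · rcases hcase a with e | ⟨e, e'⟩ <;> rw [e] at hp'
            · exact absurd hp' (hm' _ (deg_pos (x := a.2) ((hDl a).1 hp)))
            · exact ⟨_, hGy _ a e', hp'⟩
          · cases β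
            · exact absurd hp' (hm' v (hy0 v ((hDr _).1 hp)))
            · exact ⟨v, (hDr _).1 hp, hp'⟩
        have key : ∀ a ∈ G v, ∃ q ∈ Q, (q = inr (a.2, false) ∨ q = inl a.swap) ∧ a.2 ≠ v :=
          fun a ha => by
          obtain ⟨h1, h2⟩ := hG1 v a ha
          have h3 : a.2 ≠ v := h2 ▸ hE.nl a (hH h1)
          by_cases c1 : nd (inl a.swap) ∈ C
          · rcases hcase a.swap with e | ⟨e, e'⟩ <;> rw [e] at c1
            · exact absurd c1 (hm' _ (deg_pos (x := a.1) (hE.sy a (hH h1))))
            · exact ⟨_, vq a.2 false (hGy _ _ e') (hm' _ (hy0 _ (hGy _ _ e'))) c1, Or.inl rfl, h3⟩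
          · refine ⟨inl a.swap, mem_filter.2 ⟨(hDl _).2 (hE.sy a (hH h1)), c1, ?_⟩, Or.inr rfl, h3⟩
            change nd (inl a) ∈ C
            have : nd (inl a) = (v, true) := by simp [nd, h2, ha]
            rwa [this]
        obtain ⟨a, ha, b, hb, hab⟩ := one_lt_card.1 (show 1 < (G v).card by
          have := hGc v
          have := t0 v
          omega)
        obtain ⟨q, q1, q2, q3⟩ := key a ha
        obtain ⟨q', r1, r2, r3⟩ := key b hb
        have hne : a.2 ≠ b.2 := fun e =>
          hab (Prod.ext ((hG1 v a ha).2.trans (hG1 v b hb).2.symm) e)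
        refine le_trans (two_lt_card_iff.2 ⟨inr (v, false), q, q', vq v false v1 (hm' v (hy0 v v1)) v2,
          q1, r1, ?_, ?_, ?_⟩) hQc
        · rcases q2 with rfl | rfl
          · exact fun e => q3 (Prod.mk.inj (inr_injective e)).1.symm
          · exact inr_ne_inl
        · rcases r2 with rfl | rfl
          · exact fun e => r3 (Prod.mk.inj (inr_injective e)).1.symm
          · exact inr_ne_inl
        · rcases q2 with rfl | rfl <;> rcases r2 with rfl | rfl
          · exact fun e => hne (Prod.mk.inj (inr_injective e)).1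
          · exact inr_ne_inl
          · exact inl_ne_inr
          · exact fun e => hab (Prod.swap_injective (inl_injective e)))
    (by
      rw [Fintype.sum_prod_type]
      refine le_trans (le_of_eq (sum_congr rfl fun v _ => ?_)) hl
      rw [Fintype.sum_bool]
      simp)
  let X := E.filter fun a => inl a ∈ M
  refine ⟨X, filter_subset _ _, fun a ha => mem_filter.2 ⟨hE.sy a (mem_filter.1 ha).1,
    hMs _ (mem_filter.1 ha).2⟩, fun v => ?_⟩
  have hdM : ∀ β, dn M nd (v, β) = ((if β then G v else Em v).filter fun a => inl a ∈ M).card +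
      y0 v * if inr (v, false) ∈ M then 1 else 0 := fun β => by
    have h1 := hsum (fun p => if p ∈ M then 1 else 0) v β
    have h2 : inr (v, β) ∈ M ↔ inr (v, false) ∈ M := by
      cases β
      · rfl
      · exact ⟨fun h => hMs _ h, fun h => hMs _ h⟩
    simp only [h2] at h1
    rw [← card_filter, ← card_filter] at h1
    rw [← h1]
    refine congrArg card ?_
    ext p
    simp only [mem_filter]
    exact ⟨fun h => ⟨⟨hMD h.1, h.2⟩, h.1⟩, fun h => ⟨h.2, h.1.2⟩⟩
  have e1 := hdM true
  have e2 := hdM false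
  have e3 := hM (v, true)
  have e4 := hM (v, false)
  simp only [if_true, Bool.false_eq_true, if_false] at e1 e2 e3 e4
  have e5 := card_filter_add_card_filter_not (s := (Em v).filter fun a => inl a ∈ M)
    fun a => a ∈ H
  have e6 : (((Em v).filter fun a => inl a ∈ M).filter fun a => ¬ a ∈ H).card =
      deg (X \ H) v := by
    refine congrArg card ?_
    ext a
    have := fun h => (hG1 v a h).1
    simp only [Em, X, mem_filter, mem_sdiff]
    tauto
  have e7 : (((Em v).filter fun a => inl a ∈ M).filter fun a => a ∈ H).card +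
      ((G v).filter fun a => inl a ∈ M).card = deg (X ∩ H) v := by
    rw [← card_union_of_disjoint (disjoint_left.2 fun a h1 h2 =>
      (mem_sdiff.1 (mem_filter.1 (mem_filter.1 h1).1).1).2 (mem_filter.1 h2).1)]
    refine congrArg card ?_
    ext a
    have h1 := hG1 v a
    have h2 := @hH a
    simp only [X, mem_filter, mem_sdiff, mem_union, mem_inter]
    tauto
  have e8 : (((Em v).filter fun a => inl a ∈ M).filter fun a => a ∈ H).card + (G v).card ≤
      deg H v := by
    rw [← card_union_of_disjoint (disjoint_left.2 fun a h1 h2 =>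
      (mem_sdiff.1 (mem_filter.1 (mem_filter.1 h1).1).1).2 h2)]
    refine card_le_card fun a ha => ?_
    have h1 := hG1 v a
    simp only [mem_filter, mem_sdiff, mem_union] at ha ⊢
    tauto
  have e9 : deg (X \ H) v ≤ deg (E \ H) v :=
    dg_mono _ (sdiff_subset_sdiff (filter_subset _ _) Subset.rfl) v
  have e10 : ((G v).filter fun a => inl a ∈ M).card ≤ (G v).card := card_filter_le _ _
  have e11 := hGc v
  have e12 := hdH v
  have e13 : (y0 v * if inr (v, false) ∈ M then 1 else 0) ≤ y0 v := by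
    split_ifs <;> omega
  rw [← e7]
  exact t9 v _ _ _ _ (by omega) (by omega) (by omega) e13 (by omega) (by omega) (by omega)
    (by omega)

end Pool.Agent.P.MP_0ad50f_co.BL
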