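import Pool.Agent.P.MP_0ad50f_co.BL.Cnt
import Pool.Agent.P.MP_0ad50f_co.BL.One
import Pool.Agent.P.MP_0ad50f_co.BL.Lev

/-! Bridgeless graphs: heavy edges and the first choice of the even edges. -/

namespace Pool.Agent.P.MP_0ad50f_co.BL

set_option linter.unusedSectionVars false

open Finset
open Pool.Agent.P.MP_0ad50f_co.D8 Pool.Agent.P.MP_0ad50f_co.EV

variable {V : Type} [Fintype V] [DecidableEq V] {E F : Finset (V × V)} {R A : Finset V}

/-- one neighbour of the root in every component of the rest -/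
theorem pick (h : Su E R A F) : ∃ Z : Finset V, (∀ z ∈ Z, ∃ r ∈ R, (r, z) ∈ E) ∧
    (∀ x ∈ Z, ∀ y ∈ Z, Reach (off E R) Prod.fst x y → x = y) ∧
    ∀ r ∈ R, ∀ w, (r, w) ∈ E → ∃ z ∈ Z, Reach (off E R) Prod.fst w z := by
  classical
  have hs := (off_sys h.sys R).sy
  obtain ⟨Z, hZ, hmax⟩ := exists_max_image
    ((univ : Finset V).powerset.filter fun Z => (∀ z ∈ Z, ∃ r ∈ R, (r, z) ∈ E) ∧
      ∀ x ∈ Z, ∀ y ∈ Z, Reach (off E R) Prod.fst x y → x = y) card ⟨∅, by simp⟩
  obtain ⟨-, h1, h2⟩ := mem_filter.1 hZ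
  refine ⟨Z, h1, h2, fun r hr w hw => by_contra fun hn => ?_⟩
  have h3 : ∀ z ∈ Z, ¬ Reach (off E R) Prod.fst w z := fun z hz k => hn ⟨z, hz, k⟩
  have h4 : w ∉ Z := fun k => h3 w k (Reach.refl _ _ _)
  have h5 := hmax (insert w Z) (mem_filter.2 ⟨by simp, fun z hz => ?_, fun x hx y hy k => ?_⟩)
  · rw [card_insert_of_notMem h4] at h5
    omega
  · rcases mem_insert.1 hz with rfl | hz
    · exact ⟨r, hr, hw⟩
    · exact h1 z hz
  · rcases mem_insert.1 hx with e | hx <;> rcases mem_insert.1 hy with e' | hy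
    · rw [e, e']
    · exact absurd (e ▸ k) (h3 y hy)
    · exact absurd (e' ▸ k.symm hs) (h3 x hx)
    · exact h2 x hx y hy k

theorem reach_off {D : Finset (V × V)} {x y : V} (hx : x ∉ R) (h : Reach (off D R) Prod.fst x y) :
    y ∉ R := by
  induction h with
  | refl => exact hx
  | tail _ hs _ =>
    obtain ⟨a, ha, -, rfl⟩ := hs
    exact (mem_off.1 ha).2.2

/-- the demand at a vertex -/
def Dm (E H : Finset (V × V)) (R A : Finset V) (v : V) (e u : ℕ) : Prop :=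
  if v ∈ R then e + u = 2 else
    Pv (deg E v) (deg H v) ((deg E v + if v ∈ A then 1 else 0) % 2) e u

theorem rows {d d0 f g L : ℕ} (h1 : d % 2 = 0 ∨ 9 ≤ d) (h2 : 2 * f ≤ d0 + 1) (h3 : d0 + g ≤ d)
    (h4 : g ≤ 1) (h5 : d ≠ 0) (h6 : d = 2 → f = 0 ∧ g = 0) (h7 : d = 4 → 0 < g → 2 ≤ L) :
    (d = 2 ∧ f + g = 0) ∨ (d % 2 = 0 ∧ 4 ≤ d ∧ 2 * (f + g) ≤ d) ∨
      (d % 2 = 0 ∧ 6 ≤ d ∧ 2 * (f + g) = d + 2) ∨ (d = 4 ∧ f + g = 3 ∧ 2 ≤ L) ∨
      (9 ≤ d ∧ d % 2 = 1 ∧ 2 * (f + g) ≤ d + 1) := by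
  omega

theorem first (h : Su E R A F) (hbr : Brl E) {Z : Finset V} (z1 : ∀ z ∈ Z, ∃ r ∈ R, (r, z) ∈ E)
    (z2 : ∀ x ∈ Z, ∀ y ∈ Z, Reach (off E R) Prod.fst x y → x = y)
    (z3 : ∀ r ∈ R, ∀ w, (r, w) ∈ E → ∃ z ∈ Z, Reach (off E R) Prod.fst w z) :
    ∃ X ⊆ E, Sy X ∧ ∀ v, Dm E (F ∪ off (att E R) Z) R A v (deg (X \ (F ∪ off (att E R) Z)) v)
      (deg (X ∩ (F ∪ off (att E R) Z)) v) := by
  classical
  set G := off (att E R) Z with hG
  have mG : ∀ a, a ∈ G ↔ (a ∈ E ∧ (a.1 ∈ R ∨ a.2 ∈ R)) ∧ a.1 ∉ Z ∧ a.2 ∉ Z := fun a => by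
    rw [hG, mem_off, mem_att]
  have hGs : Sy G := fun a ha => by
    rw [mG] at ha ⊢
    exact ⟨⟨h.sys.sy a ha.1.1, ha.1.2.symm⟩, ha.2.symm⟩
  have hHE : F ∪ G ⊆ E := union_subset h.fE fun a ha => ((mG a).1 ha).1.1
  have hHs : Sy (F ∪ G) := fun a ha => by
    rw [mem_union] at ha ⊢
    exact ha.imp (h.var.sy a) (hGs a)
  have zR : ∀ z ∈ Z, z ∉ R := fun z hz => by
    obtain ⟨r, hr, k⟩ := z1 z hz
    exact h.nbr hr k
  have hstep : ∀ a ∈ off E R, Reach (E \ (F ∪ G)) Prod.fst a.1 a.2 := fun a ha => by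
    by_cases k : a ∈ F
    · refine (h.var.con a (h.f0 k)).mono fun b hb => ?_
      simp only [mem_sdiff, mem_off, mem_union, mG] at hb ⊢
      tauto
    · refine Reach.dart Prod.fst (a := a) ?_
      simp only [mem_sdiff, mem_off, mem_union, mG] at ha ⊢
      tauto
  have hdeg : ∀ v, deg (F ∪ G) v = deg F v + deg G v := fun v =>
    deg_add (fun _ => mem_union) fun x hx k => by
      have := h.fR hx
      have := ((mG _).1 k).1.2
      tauto
  obtain ⟨ρ, hρ, hρR⟩ : ∃ ρ, (∀ v, 0 < deg E v → Reach (E \ (F ∪ G)) Prod.fst v ρ) ∧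
      ∀ r ∈ R, r = ρ := by
    rcases R.eq_empty_or_nonempty with hR | ⟨r, hr⟩
    · obtain ⟨v0, hv0⟩ := h.odd
      obtain ⟨x0, hx0⟩ := ex_dart (D := E) (v := v0) (by omega)
      refine ⟨v0, fun v hv => ?_, by simp [hR]⟩
      obtain ⟨x, hx⟩ := ex_dart hv
      exact reach_of_steps (fun a ha => hstep a (mem_off.2 ⟨ha, by simp [hR]⟩)) (h.con _ hx _ hx0)
    · refine ⟨r, fun v hv => ?_, fun x hx => h.one _ hx _ hr⟩
      by_cases e : v = r
      · rw [e]
        exact Reach.refl _ _ _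
      obtain ⟨x, hx⟩ := ex_dart hv
      obtain ⟨x0, hx0⟩ := ex_dart (D := E) (v := r) (by have := (h.root r hr).1; omega)
      obtain ⟨w, w1, w2⟩ := jn_first (h.con _ hx _ hx0) e
      have hR : R = {r} := eq_singleton_iff_unique_mem.2 ⟨hr, fun x hx => h.one _ hx _ hr⟩
      rw [← hR] at w2
      obtain ⟨z, hz, k⟩ := z3 r hr w (h.sys.sy _ w1)
      obtain ⟨r', hr', k'⟩ := z1 z hz
      rw [h.one _ hr' _ hr] at k'
      refine (reach_of_steps hstep (w2.trans k)).trans (Reach.dart Prod.fst (a := (z, r)) ?_)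
      refine mem_sdiff.2 ⟨h.sys.sy _ k', fun m => ?_⟩
      rcases mem_union.1 m with m | m
      · exact (h.fR m).2.1 hr
      · exact ((mG _).1 m).2.1 hz
  obtain ⟨par, rk, htree⟩ := tree (E \ (F ∪ G)) ρ
  have hG1 : ∀ r ∈ R, 1 ≤ deg G r ∧ deg G r + 1 ≤ deg E r := fun r hr => by
    obtain ⟨w, hw⟩ := ex_dart (D := E) (v := r) (by have := (h.root r hr).1; omega)
    have hrZ : r ∉ Z := fun k => zR r k hr
    constructor
    · obtain ⟨b, b1, b2, b3, b4⟩ := hbr (univ.filter fun x => Reach (off E R) Prod.fst w x) (r, w) hw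
        (fun k => reach_off (h.nbr hr hw) (mem_filter.1 k).2 hr)
        (mem_filter.2 ⟨mem_univ _, Reach.refl _ _ _⟩)
      have b5 := (mem_filter.1 b4).2
      have b6 : b.1 ∈ R := by_contra fun k => b3 (mem_filter.2 ⟨mem_univ _, b5.trans
        (Reach.dart Prod.fst (a := b.swap)
          (mem_off.2 ⟨h.sys.sy b b1, reach_off (h.nbr hr hw) b5, k⟩))⟩)
      obtain ⟨b7, b8⟩ := b
      obtain rfl : b7 = r := h.one _ b6 _ hr
      by_cases k : w ∈ Z
      · exact deg_pos (x := b8) ((mG _).2 ⟨⟨b1, Or.inl hr⟩, hrZ, fun m => b2 (by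
          rw [z2 w k b8 m b5])⟩)
      · exact deg_pos (x := w) ((mG _).2 ⟨⟨hw, Or.inl hr⟩, hrZ, k⟩)
    · obtain ⟨z, hz, -⟩ := z3 r hr w hw
      obtain ⟨r', hr', k'⟩ := z1 z hz
      rw [h.one _ hr' _ hr] at k'
      have e1 : deg (E \ G) r + deg G r = deg E r :=
        dg_sdiff _ (fun a ha => ((mG a).1 ha).1.1) r
      have e2 := deg_pos (D := E \ G) (mem_sdiff.2 ⟨k', fun m => ((mG _).1 m).2.2 hz⟩)
      omega
  let T : Finset V := univ.filter fun v => deg E v = 4 ∧ 0 < deg G v ∧ v ∉ R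
  let lρ : ℕ := if ρ ∈ R ∧ deg E ρ = 6 then 5 else 2
  let l : V → ℕ := fun v => (if v = ρ then lρ else 0) + if v ∈ T then 1 else 0
  have hT : ∀ v ∈ T, ρ ∈ R ∧ deg E ρ = 4 ∧ (ρ, v) ∈ G := fun v hv => by
    obtain ⟨-, t1, t2, t3⟩ := mem_filter.1 hv
    obtain ⟨x, hx⟩ := ex_dart t2
    have t4 : x ∈ R := ((mG _).1 hx).1.2.resolve_left t3
    obtain rfl := hρR x t4
    have t5 := h.four t4 (v := v) (by omega)
    have t6 := (h.root x t4).1
    exact ⟨t4, by omega, hGs _ hx⟩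
  have hl : ∑ v, l v ≤ 5 := by
    have e : ∑ v, l v = lρ + T.card := by
      simp only [l, sum_add_distrib, sum_ite_eq', mem_univ, if_true, sum_ite_mem, univ_inter,
        sum_const, smul_eq_mul, mul_one]
    rw [e]
    rcases T.eq_empty_or_nonempty with k | ⟨v, hv⟩
    · rw [k, card_empty]
      simp only [lρ]
      split_ifs <;> omega
    · obtain ⟨t1, t2, -⟩ := hT v hv
      have t3 : T.card ≤ deg G ρ := card_le_card_of_injOn (fun v => (ρ, v))
        (fun v hv => mem_coe.2 (mem_filter.2 ⟨(hT v hv).2.2, rfl⟩))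
        fun _ _ _ _ k => (Prod.mk.inj k).2
      have t4 := (hG1 ρ t1).2
      have t5 : lρ = 2 := if_neg fun k => by omega
      omega
  have hlρ : 2 ≤ lρ ∧ lρ ≤ l ρ := by
    constructor
    · simp only [lρ]
      split_ifs <;> omega
    · simp only [l, if_true]
      omega
  refine one h.sys hHE hHs hbr par rk ρ (fun v hv hn => ?_) l hl (by omega)
    (fun v => (deg E v + if v ∈ A then 1 else 0) % 2) ?_ (Dm E (F ∪ G) R A) fun v => ?_
  · obtain ⟨k1, k2⟩ := htree v (hρ v hv) hn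
    exact ⟨(mem_sdiff.1 k1).1, (mem_sdiff.1 k1).2, k2⟩
  · rw [← sum_nat_mod, sum_add_distrib, sum_deg]
    have e1 := in_even.1 (rho_card_even h.sys.sy fun a ha => h.sys.ne_swap ha)
    have e2 := h.ev
    simp only [sum_ite_mem, univ_inter, sum_const, smul_eq_mul, mul_one]
    omega
  · by_cases hv : v ∈ R
    · obtain rfl := hρR v hv
      obtain ⟨r1, r2, -⟩ := h.root v hv
      have r3 := hG1 v hv
      have r4 := hdeg v
      have r5 : deg E v = 6 → lρ = 5 := fun k => if_pos ⟨hv, k⟩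
      refine ⟨0, 0, 2, 2, 0, by omega, by omega, by omega, by omega, by omega, by omega, ?_,
        by omega, by omega, fun z u e y _ _ _ _ _ _ _ _ => ?_⟩
      · rw [if_neg r2]
        omega
      · unfold Dm
        rw [if_pos hv]
        omega
    · have e0 : Dm E (F ∪ G) R A v =
          Pv (deg E v) (deg (F ∪ G) v) ((deg E v + if v ∈ A then 1 else 0) % 2) := by
        funext e u
        exact if_neg hv
      rw [e0]
      refine table (by omega) ?_
      have d1 := hdeg v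
      have d2 := h.dg v
      have d3 := h.var.half v
      have d4 : deg (off E (R ∪ dtwo E)) v + deg G v ≤ deg E v := by
        rw [← deg_add (D := off E (R ∪ dtwo E) ∪ G) (fun _ => mem_union) fun x hx k => by
          have := (mem_off.1 hx).2
          have := ((mG _).1 k).1.2
          simp only [mem_union] at *
          tauto]
        exact dg_mono _ (union_subset (filter_subset _ _) fun a ha => ((mG a).1 ha).1.1) v
      have d5 : deg G v ≤ 1 :=
        (dg_mono Prod.fst (filter_subset _ _) v).trans (att_le (E := E) h.one hv)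
      have d6 : deg (F ∪ G) v ≤ deg E v := dg_mono _ hHE v
      by_cases d0 : deg E v = 0
      · have : v ∉ A := fun k => by have := h.pos v k; omega
        rw [if_neg this]
        omega
      have d7 : deg E v = 2 → deg F v = 0 ∧ deg G v = 0 := fun k =>
        ⟨deg_zero fun x hx => (h.fR hx).2.2.1 k, deg_zero fun x hx => by
          have := h.four (((mG _).1 hx).1.2.resolve_left hv) (v := v) (by omega)
          omega⟩
      have d8 : deg E v = 4 → 0 < deg G v → 1 ≤ l v ∧ v ≠ ρ := fun k k' => by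
        have k1 : v ∈ T := mem_filter.2 ⟨mem_univ _, k, k', hv⟩
        refine ⟨?_, fun k2 => hv (k2 ▸ (hT v k1).1)⟩
        simp only [l, if_pos k1]
        omega
      right
      rw [d1]
      by_cases e : v = ρ
      · have : 2 ≤ l v := by rw [e]; omega
        exact ⟨by omega, rows d2 d3 d4 d5 d0 d7 fun _ _ => by omega⟩
      · rw [if_pos ⟨Nat.pos_of_ne_zero d0, e⟩]
        exact ⟨by omega, rows d2 d3 d4 d5 d0 d7 fun k k' => Nat.succ_le_succ (d8 k k').1⟩

end Pool.Agent.P.MP_0ad50f_co.BL
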