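import Pool.Agent.P.MP_0ad50f_co.EV.Main

/-! Bridgeless graphs: recolouring the edges whose two ends have degree two. -/

namespace Pool.Agent.P.MP_0ad50f_co.BL

set_option linter.unusedSectionVars false

open Finset
open Pool.Agent.P.MP_0ad50f_co.D8 Pool.Agent.P.MP_0ad50f_co.EV

variable {V : Type} [Fintype V] [DecidableEq V]

/-- an end of an edge whose two ends have degree two -/
def Lt (E : Finset (V × V)) (v : V) : Prop := deg E v = 2 ∧ ∃ w, (v, w) ∈ E ∧ deg E w = 2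

theorem late_two {E : Finset (V × V)} {t w : V} (h : deg E t = 2) (hw : (t, w) ∈ E) :
    ∃ p, p ≠ w ∧ (t, p) ∈ E ∧ E.filter (fun b => b.1 = t) = {(t, w), (t, p)} := by
  obtain ⟨x, y, h1, h2⟩ := card_eq_two.1 h
  have h3 : ∀ z, z ∈ E ∧ z.1 = t ↔ z = x ∨ z = y := fun z => by simpa using Finset.ext_iff.1 h2 z
  have h4 := (h3 x).2 (.inl rfl)
  have h5 := (h3 y).2 (.inr rfl)
  rcases (h3 (t, w)).1 ⟨hw, rfl⟩ with rfl | rfl
  · obtain ⟨_, p⟩ := y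
    obtain rfl : _ = t := h5.2
    exact ⟨p, fun e => h1 (e ▸ rfl), h5.1, h2⟩
  · obtain ⟨_, p⟩ := x
    obtain rfl : _ = t := h4.2
    exact ⟨p, fun e => h1 (e ▸ rfl), h4.1, h2.trans (pair_comm _ _)⟩

/-- the violated conditions -/
def LateBad (E : Finset (V × V)) (c : V × V → ℕ) : Set ((V × V) ⊕ V) := fun x => x.elim
  (fun a => a ∈ E ∧ ∑ b ∈ E.filter (fun b => b.1 = a.1), c b =
    ∑ b ∈ E.filter (fun b => b.1 = a.2), c b)
  fun v => ∃ k, deg E v < 2 * deg (E.filter fun b => c b = k) v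

theorem late_deg (E : Finset (V × V)) (c : V × V → ℕ) (k : ℕ) (v : V) :
    deg (E.filter fun b => c b = k) v =
      ((E.filter fun b => b.1 = v).filter fun b => c b = k).card := by
  rw [filter_comm]
  rfl

theorem late_congr {E : Finset (V × V)} {c c' : V × V → ℕ} {v : V}
    (h : ∀ w, (v, w) ∈ E → c (v, w) = c' (v, w)) :
    ∑ b ∈ E.filter (fun b => b.1 = v), c b = ∑ b ∈ E.filter (fun b => b.1 = v), c' b ∧
      ∀ k, deg (E.filter fun b => c b = k) v = deg (E.filter fun b => c' b = k) v := by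
  have h1 : ∀ b ∈ E.filter (fun b => b.1 = v), c b = c' b := by
    rintro ⟨_, w⟩ hb
    obtain ⟨h1, rfl⟩ := mem_filter.1 hb
    exact h w h1
  refine ⟨sum_congr rfl h1, fun k => ?_⟩
  rw [late_deg, late_deg, filter_congr fun b hb => by rw [h1 b hb]]

theorem late_pair {E : Finset (V × V)} {c : V × V → ℕ} {t w p : V} (h : deg E t = 2) (hp : p ≠ w)
    (h2 : E.filter (fun b => b.1 = t) = {(t, w), (t, p)}) :
    ∑ b ∈ E.filter (fun b => b.1 = t), c b = c (t, w) + c (t, p) ∧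
      (c (t, w) ≠ c (t, p) → Sum.inr t ∉ LateBad E c) ∧ ∀ z, (t, z) ∈ E → z = w ∨ z = p := by
  refine ⟨by rw [h2, sum_pair fun e => hp (Prod.mk.inj e).2.symm], fun h3 ⟨k, h4⟩ => ?_,
    fun z hz => by simpa [hz] using Finset.ext_iff.1 h2 (t, z)⟩
  rw [late_deg, h, h2] at h4
  obtain ⟨a, a1, b, a2, a3⟩ := one_lt_card.1 (Nat.lt_of_mul_lt_mul_left (a := 2) h4)
  simp only [mem_filter, mem_insert, mem_singleton] at a1 a2
  obtain ⟨rfl | rfl, a1⟩ := a1 <;> obtain ⟨rfl | rfl, a2⟩ := a2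
  exacts [a3 rfl, h3 (a1.trans a2.symm), h3 (a2.trans a1.symm), a3 rfl]

theorem late_step {E : Finset (V × V)} (hE : Sys E Prod.fst) {c : V × V → ℕ}
    (h1 : ∀ a ∈ E, c a.swap = c a ∧ 1 ≤ c a ∧ c a ≤ 5) {t t' : V} (h : (t, t') ∈ E)
    (ht : deg E t = 2) (ht' : deg E t' = 2) :
    ∃ c' : V × V → ℕ, (∀ a ∈ E, c' a.swap = c' a ∧ 1 ≤ c' a ∧ c' a ≤ 5) ∧
      (∀ a, a ≠ (t, t') → a ≠ (t', t) → c' a = c a) ∧ LateBad E c' ⊆ LateBad E c ∧
      Sum.inr t ∉ LateBad E c' ∧ ∀ p, p ≠ t' → Sum.inl (t, p) ∉ LateBad E c' := by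
  obtain ⟨p, a1, a2, a3⟩ := late_two ht h
  obtain ⟨p', b1, b2, b3⟩ := late_two ht' (show (t', t) ∈ E from hE.sy _ h)
  have a4 : p ≠ t := hE.nl _ a2
  have b4 : p' ≠ t' := hE.nl _ b2
  have h2 : t' ≠ t := hE.nl _ h
  obtain ⟨k, k1, k2, k3, k4, k5, k6⟩ : ∃ k, 1 ≤ k ∧ k ≤ 5 ∧ k ≠ c (t, p) ∧ k ≠ c (t', p') ∧
      k + c (t, p) ≠ ∑ b ∈ E.filter (fun b => b.1 = p), c b ∧
      k + c (t', p') ≠ ∑ b ∈ E.filter (fun b => b.1 = p'), c b := by
    by_contra h3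
    push Not at h3
    have := h3 1
    have := h3 2
    have := h3 3
    have := h3 4
    have := h3 5
    omega
  obtain ⟨c', e1, e2, e3⟩ : ∃ c' : V × V → ℕ, c' (t, t') = k ∧ c' (t', t) = k ∧
      ∀ a, a ≠ (t, t') → a ≠ (t', t) → c' a = c a :=
    ⟨fun a => if a = (t, t') ∨ a = (t', t) then k else c a, by simp, by simp,
      fun a a1 a2 => by simp [a1, a2]⟩
  have e4 : c' (t, p) = c (t, p) := e3 _ (by simp [a1]) (by simp [a4])
  have e5 : c' (t', p') = c (t', p') := e3 _ (by simp [h2]) (by simp [show p' ≠ t from b1])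
  have e6 := fun v (h3 : v ≠ t) (h4 : v ≠ t') =>
    late_congr (E := E) (v := v) fun w _ => e3 (v, w) (by simp [h3]) (by simp [h4])
  obtain ⟨f1, f2, f3⟩ := late_pair (c := c') ht a1 a3
  obtain ⟨g1, g2, g3⟩ := late_pair (c := c') ht' b1 b3
  have f4 := (late_pair (c := c) ht a1 a3).1
  have g4 := (late_pair (c := c) ht' b1 b3).1
  have f5 := (e6 p a4 a1).1
  have g5 := (e6 p' b1 b4).1
  have h3 : c (t', t) = c (t, t') := (h1 _ h).1
  have key : ∀ x y, (x, y) ∈ E → x = t ∨ x = t' → ∑ b ∈ E.filter (fun b => b.1 = x), c' b =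
      ∑ b ∈ E.filter (fun b => b.1 = y), c' b → (y = t ∨ y = t') ∧
      ∑ b ∈ E.filter (fun b => b.1 = x), c b = ∑ b ∈ E.filter (fun b => b.1 = y), c b := by
    rintro x y h4 (rfl | rfl) h5
    · rcases f3 y h4 with rfl | rfl
      exacts [⟨.inr rfl, by omega⟩, by omega]
    · rcases g3 y h4 with rfl | rfl
      exacts [⟨.inl rfl, by omega⟩, by omega]
  refine ⟨c', fun a ha => ?_, e3, ?_, f2 (by omega), fun q q1 ⟨q2, q3⟩ =>
    (key _ _ q2 (.inl rfl) q3).1.elim (hE.nl _ q2) q1⟩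
  · by_cases h4 : a = (t, t')
    · subst h4
      exact ⟨e2.trans e1.symm, by omega⟩
    by_cases h5 : a = (t', t)
    · subst h5
      exact ⟨e1.trans e2.symm, by omega⟩
    rw [e3 a h4 h5, e3 a.swap (fun e => h5 (by simpa using congrArg Prod.swap e))
      fun e => h4 (by simpa using congrArg Prod.swap e)]
    exact h1 a ha
  · rintro (⟨x, y⟩ | v) h4
    · refine ⟨h4.1, ?_⟩
      by_cases h5 : x = t ∨ x = t'
      · exact (key x y h4.1 h5 h4.2).2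
      by_cases h6 : y = t ∨ y = t'
      · exact (key y x (hE.sy _ h4.1) h6 h4.2.symm).2.symm
      rw [not_or] at h5 h6
      exact (e6 x h5.1 h5.2).1.symm.trans (h4.2.trans (e6 y h6.1 h6.2).1)
    · by_cases h5 : v = t
      · exact (f2 (by omega) (h5 ▸ h4)).elim
      by_cases h6 : v = t'
      · exact (g2 (by omega) (h6 ▸ h4)).elim
      exact h4.imp fun k h7 => (e6 v h5 h6).2 k ▸ h7

theorem late {E : Finset (V × V)} (hE : Sys E Prod.fst) (c : V × V → ℕ)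
    (h1 : ∀ a ∈ E, c a.swap = c a ∧ 1 ≤ c a ∧ c a ≤ 5)
    (h2 : ∀ a ∈ E, ¬ Lt E a.1 → ¬ Lt E a.2 → ∑ b ∈ E.filter (fun b => b.1 = a.1), c b ≠
      ∑ b ∈ E.filter (fun b => b.1 = a.2), c b)
    (h3 : ∀ v k, ¬ Lt E v → 2 * deg (E.filter fun b => c b = k) v ≤ deg E v)
    (h4 : ∀ t t' p p', (t, t') ∈ E → deg E t = 2 → deg E t' = 2 → (t, p) ∈ E → (t', p') ∈ E →
      deg E p ≠ 2 → deg E p' ≠ 2 → c (t, p) ≠ c (t', p')) :
    ∃ c', Col E c' := by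
  obtain ⟨d, ⟨d1, d2⟩, d3⟩ := (InvImage.wf (LateBad E) wellFounded_lt).has_min
    {d | (∀ a ∈ E, d a.swap = d a ∧ 1 ≤ d a ∧ d a ≤ 5) ∧
      ∀ x y, ¬ (deg E x = 2 ∧ deg E y = 2) → d (x, y) = c (x, y)} ⟨c, h1, fun _ _ _ => rfl⟩
  have d4 : ∀ t t', (t, t') ∈ E → deg E t = 2 → deg E t' = 2 →
      Sum.inr t ∉ LateBad E d ∧ ∀ p, p ≠ t' → Sum.inl (t, p) ∉ LateBad E d := by
    intro t t' h ht ht'
    obtain ⟨d', a1, a2, a3, a4⟩ := late_step hE d1 h ht ht'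
    rwa [← a3.eq_or_ssubset.resolve_right (d3 d' ⟨a1, fun x y a5 => (a2 _ ?_ ?_).trans (d2 x y a5)⟩)]
    · rintro ⟨⟩
      exact a5 ⟨ht, ht'⟩
    · rintro ⟨⟩
      exact a5 ⟨ht', ht⟩
  have d5 := fun v (h : ¬ Lt E v) =>
    late_congr (E := E) (v := v) fun w hw => d2 v w fun h' => h ⟨h'.1, w, hw, h'.2⟩
  have d6 : ∀ x y, (x, y) ∈ E → Lt E x → ∑ b ∈ E.filter (fun b => b.1 = x), d b ≠
      ∑ b ∈ E.filter (fun b => b.1 = y), d b := by
    rintro x y h ⟨hx, w, a1, hy⟩ e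
    obtain rfl : y = w := by_contra fun a2 => (d4 x w a1 hx hy).2 y a2 ⟨h, e⟩
    obtain ⟨p, a2, a3, a4⟩ := late_two hx h
    obtain ⟨p', b2, b3, b4⟩ := late_two hy (show (y, x) ∈ E from hE.sy _ h)
    have a5 : deg E p ≠ 2 := fun a5 => (d4 x p a3 hx a5).2 y a2.symm ⟨h, e⟩
    have b5 : deg E p' ≠ 2 := fun b5 => (d4 y p' b3 hy b5).2 x b2.symm ⟨hE.sy _ h, e.symm⟩
    have a6 : d (y, x) = d (x, y) := (d1 _ h).1
    have a7 := h4 x y p p' h hx hy a3 b3 a5 b5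
    rw [(late_pair hx a2 a4).1, (late_pair hy b2 b4).1, d2 x p fun h => a5 h.2,
      d2 y p' fun h => b5 h.2] at e
    omega
  refine ⟨d, d1, fun a ha => ?_, fun v k => ?_⟩
  · by_cases a1 : Lt E a.1
    · exact d6 _ _ ha a1
    by_cases a2 : Lt E a.2
    · exact (d6 _ _ (hE.sy _ ha) a2).symm
    rw [(d5 _ a1).1, (d5 _ a2).1]
    exact h2 a ha a1 a2
  · by_cases a1 : Lt E v
    · obtain ⟨a1, w, a2, a3⟩ := a1
      exact not_lt.1 fun h => (d4 v w a2 a1 a3).1 ⟨k, h⟩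
    · rw [(d5 _ a1).2]
      exact h3 v k a1

end Pool.Agent.P.MP_0ad50f_co.BL
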