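import Pool.Agent.P.MP_0ad50f_co.BL.Hv

/-! Bridgeless graphs: a least choice of the even edges. -/

namespace Pool.Agent.P.MP_0ad50f_co.BL

set_option linter.unusedSectionVars false

open Finset
open Pool.Agent.P.MP_0ad50f_co.D8 Pool.Agent.P.MP_0ad50f_co.EV

variable {V : Type} [Fintype V] [DecidableEq V] {E F : Finset (V × V)} {R A : Finset V}

theorem level1 (h : Su E R A F) (hbr : Brl E) : ∃ X Z, L1 E R A F X Z := by
  classical
  obtain ⟨Z, z1, z2, z3⟩ := pick h
  obtain ⟨X0, x1, x2, x3⟩ := first h hbr z1 z2 z3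
  set G := off (att E R) Z with hG
  have mG : ∀ a, a ∈ G ↔ (a ∈ E ∧ (a.1 ∈ R ∨ a.2 ∈ R)) ∧ a.1 ∉ Z ∧ a.2 ∉ Z := fun a => by
    rw [hG, mem_off, mem_att]
  obtain ⟨X, hX, hmin⟩ := exists_min_image (E.powerset.filter fun X => Sy X ∧
    ∀ v, Dm E (F ∪ G) R A v (deg (X \ (F ∪ G)) v) (deg (X ∩ (F ∪ G)) v)) card
    ⟨X0, mem_filter.2 ⟨mem_powerset.2 x1, x2, x3⟩⟩
  obtain ⟨hXE, hs, hD⟩ := mem_filter.1 hX
  rw [mem_powerset] at hXE
  have zR : ∀ z ∈ Z, z ∉ R := fun z hz => by
    obtain ⟨r, hr, k⟩ := z1 z hz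
    exact h.nbr hr k
  have hP : ∀ v, v ∉ R → Pv (deg E v) (deg (F ∪ G) v) ((deg E v + if v ∈ A then 1 else 0) % 2)
      (deg (X \ (F ∪ G)) v) (deg (X ∩ (F ∪ G)) v) := fun v hv => by
    have := hD v
    rwa [Dm, if_neg hv] at this
  have c0 : ∀ v, deg (X \ (F ∪ G)) v + deg (X ∩ (F ∪ G)) v = deg X v := fun v =>
    (deg_add (fun x => by simp only [mem_sdiff, mem_inter]; tauto) fun x hx k =>
      (mem_sdiff.1 hx).2 (mem_inter.1 k).2).symm
  have c1 : ∀ v, deg (E \ X) v + deg X v = deg E v := fun v => dg_sdiff _ hXE v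
  have c2 : ∀ v, v ∉ R → v ∈ Z → deg (X \ (F ∪ G)) v = deg (off (X \ F) R) v + deg (att X R) v ∧
      deg (X ∩ (F ∪ G)) v = deg (X ∩ F) v := fun v hv hz => by
    refine ⟨deg_add (fun x => ?_) fun x hx k => ?_, deg_eq fun x => ?_⟩
    · have := @Su.fR _ _ _ _ _ _ _ h (v, x)
      simp only [mem_sdiff, mem_union, mem_off, mem_att, mG] at this ⊢
      tauto
    · have := mem_off.1 hx
      have := mem_att.1 k
      tauto
    · simp only [mem_inter, mem_union, mG]
      tauto
  have c3 : ∀ v, v ∉ R → v ∉ Z → deg (X \ (F ∪ G)) v = deg (off (X \ F) R) v ∧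
      deg (X ∩ (F ∪ G)) v = deg (X ∩ F) v + deg (att X R) v := fun v hv hz => by
    refine ⟨deg_eq fun x => ?_, deg_add (fun x => ?_) fun x hx k => ?_⟩
    · have := @hXE (v, x)
      have := zR x
      simp only [mem_sdiff, mem_union, mem_off, mG]
      tauto
    · have := @hXE (v, x)
      have := zR x
      simp only [mem_inter, mem_union, mem_att, mG]
      tauto
    · have := h.fR (mem_inter.1 hx).2
      have := mem_att.1 k
      tauto
  have c4 : ∀ v, v ∉ R → deg (att X R) v ≤ 1 := fun v hv => att_le h.one hv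
  have hDE : off (X \ F) R ⊆ off E R := filter_subset_filter _ (sdiff_subset.trans hXE)
  have hDs : Sys (off (X \ F) R) Prod.fst :=
    off_sys (h.sys.mono (sdiff_subset.trans hXE) (hs.sdiff h.var.sy)) R
  refine ⟨X, Z.filter fun z => ∃ r ∈ R, (z, r) ∈ X, hXE, hs, fun v hv => ?_, fun r hr => ?_,
    fun v hv => ?_, fun z hz => (mem_filter.1 hz).2, fun x hx y hy k =>
      z2 x (mem_filter.1 hx).1 y (mem_filter.1 hy).1 (k.mono hDE), fun v hv => ?_,
    fun a ha hn => by_contra fun hg => ?_⟩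
  · have e1 := (hP v hv).1
    have e2 := c0 v
    have e3 := c1 v
    by_cases k : v ∈ A
    · rw [if_pos k] at e1
      simp only [k, iff_true]
      omega
    · rw [if_neg k] at e1
      simp only [k, iff_false]
      omega
  · have := hD r
    rwa [Dm, if_pos hr, c0] at this
  · have e1 := (hP v hv).2.1
    have e2 := c4 v hv
    by_cases k : v ∈ Z
    · have e3 := c2 v hv k
      by_cases k' : ∃ r ∈ R, (v, r) ∈ X
      · rw [if_pos (mem_filter.2 ⟨k, k'⟩)]
        omega
      · have e4 : deg (att X R) v = 0 := deg_zero fun x hx =>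
          k' ⟨x, (mem_att.1 hx).2.resolve_left hv, (mem_att.1 hx).1⟩
        omega
    · have e3 := c3 v hv k
      omega
  · have hR : v ∉ R := fun k => by have := (h.root v k).1; omega
    obtain ⟨e1, e2, e3⟩ := (hP v hR).2.2 hv
    have e4 := c0 v
    have e5 := h.dg v
    have e6 := h.var.half v
    have e7 := h.var.le v
    have e8 : deg (cut (off E (R ∪ dtwo E)) A) v + deg (unc (off E (R ∪ dtwo E)) A) v =
        deg (off E (R ∪ dtwo E)) v := dg_cut_unc _ _ _ v
    have e9 : deg F v ≤ deg (cut (off E (R ∪ dtwo E)) A) v := dg_mono _ h.var.sub v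
    have e10 : deg (F \ X) v + deg (X ∩ F) v = deg F v :=
      (deg_add (fun x => by simp only [mem_sdiff, mem_inter]; tauto) fun x hx k =>
        (mem_sdiff.1 hx).2 (mem_inter.1 k).1).symm
    have e11 : deg (off E (R ∪ dtwo E)) v ≤ deg E v := dg_mono _ (filter_subset _ _) v
    by_cases k : ∃ r ∈ R, (v, r) ∈ E
    · obtain ⟨r, hr, k⟩ := k
      have e12 : deg (off E (R ∪ dtwo E)) v = deg (off E R) v := deg_eq fun x => by
        simp only [mem_off, mem_union, mem_dtwo]
        refine ⟨fun m => by tauto, fun m => ⟨m.1, ?_, ?_⟩⟩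
        · have := m.2.1
          exact fun m' => m'.elim this (by omega)
        · have := h.four hr (deg_pos (h.sys.sy _ m.1))
          exact fun m' => m'.elim m.2.2 (by simp only at this; omega)
      have e13 := off_att E R v
      have e14 := att_le (E := E) h.one hR
      have e15 := deg_pos (D := att E R) (mem_att.2 ⟨k, Or.inr hr⟩)
      omega
    · have e12 : deg (F ∪ G) v = deg F v := deg_eq fun x => by
        simp only [mem_union, mG]
        exact ⟨fun m => m.elim id fun m => absurd ⟨x, m.1.2.resolve_left hR, m.1.1⟩ k, Or.inl⟩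
      have e13 : deg (X ∩ (F ∪ G)) v = deg (X ∩ F) v := deg_eq fun x => by
        simp only [mem_inter, mem_union, mG]
        exact ⟨fun m => ⟨m.1, m.2.elim id fun m =>
          absurd ⟨x, m.1.2.resolve_left hR, m.1.1⟩ k⟩, fun m => ⟨m.1, Or.inl m.2⟩⟩
      omega
  · obtain ⟨C, k1, k2, k3, k4, k5⟩ := cycle hDs ha hn
    have k6 : ∀ b ∈ C, b ∈ X ∧ b ∉ F ∪ G := fun b hb => by
      have := k1 hb
      simp only [mem_off, mem_sdiff, mem_union, mG] at this ⊢
      tauto
    have k7 := hmin (X \ C) (mem_filter.2 ⟨mem_powerset.2 (sdiff_subset.trans hXE), hs.sdiff k2,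
      fun v => ?_⟩)
    · obtain ⟨b, hb⟩ := k3
      exact absurd k7 (not_le.2 (card_lt_card ⟨sdiff_subset, fun m =>
        (mem_sdiff.1 (m (k6 b hb).1)).2 hb⟩))
    have e1 : deg ((X \ C) ∩ (F ∪ G)) v = deg (X ∩ (F ∪ G)) v := deg_eq fun x => by
      have := k6 (v, x)
      simp only [mem_inter, mem_sdiff]
      tauto
    have e2 : deg (X \ (F ∪ G)) v = deg ((X \ C) \ (F ∪ G)) v + deg C v :=
      deg_add (fun x => by
        have := k6 (v, x)
        simp only [mem_sdiff]
        tauto) fun x hx => (mem_sdiff.1 (mem_sdiff.1 hx).1).2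
    rw [e1]
    rcases k5 v with e3 | e3
    · rw [e3, add_zero] at e2
      rw [← e2]
      exact hD v
    · obtain ⟨x, hx⟩ := ex_dart (D := C) (v := v) (by omega)
      have hv : v ∉ R := (mem_off.1 (k1 hx)).2.1
      have e4 : ¬ deg (off (X \ F) R) v + 2 + 2 * deg (X ∩ F) v ≤ deg E v := fun m =>
        hg ⟨v, k4 _ hx, m⟩
      have e5 : deg C v ≤ deg (off (X \ F) R) v := dg_mono _ k1 v
      have e6 : ¬ Odd (deg (off (X \ F) R) v) := fun m => hn ⟨v, k4 _ hx, m⟩
      rw [Nat.odd_iff] at e6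
      have e7 := hP v hv
      have e8 := h.dg v
      rw [Dm, if_neg hv]
      unfold Pv at e7 ⊢
      by_cases k : v ∈ Z
      · have := c2 v hv k
        omega
      · have := c3 v hv k
        omega

end Pool.Agent.P.MP_0ad50f_co.BL
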