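import Pool.Agent.P.MP_0ad50f_co.BL.Defs

/-! Bridgeless graphs: root and classes. -/

namespace Pool.Agent.P.MP_0ad50f_co.BL

set_option linter.unusedSectionVars false

open Finset
open Pool.Agent.P.MP_0ad50f_co.D8 Pool.Agent.P.MP_0ad50f_co.EV

variable {V : Type} [Fintype V] [DecidableEq V]

/-- the side of a vertex without a dart does not matter -/
theorem su_congr {D F : Finset (V × V)} {S A : Finset V} (hD : Sy D) (h : Var D S F)
    (hA : ∀ v, 0 < deg D v → (v ∈ A ↔ v ∈ S)) : Var D A F := by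
  have k : ∀ a ∈ D, ((a.1 ∈ A ↔ a.2 ∈ A) ↔ (a.1 ∈ S ↔ a.2 ∈ S)) := fun a ha => by
    rw [hA a.1 (dg_pos.2 ⟨a, ha, rfl⟩), hA a.2 (dg_pos.2 ⟨a.swap, hD a ha, rfl⟩)]
  have h1 : cut D A = cut D S := filter_congr fun a ha => not_congr (k a ha)
  have h2 : unc D A = unc D S := filter_congr k
  exact ⟨by rw [h1, h2]; exact h.le, by rw [h1]; exact h.sub, h.sy, h.half, h.con,
    by rw [h2]; exact h.sep⟩

/-- one of the two sides in a set of odd size is even -/
theorem su_side {D : Finset (V × V)} (hD : Sys D Prod.fst) {T : Finset V}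
    (hT : ∀ v, 0 < deg D v → v ∈ T) (ho : T.card % 2 = 1) :
    ∃ A F, A ⊆ T ∧ Var D A F ∧ A.card % 2 = 0 := by
  obtain ⟨S, F, h⟩ := ev_algebra hD
  have e := card_inter_add_card_sdiff T S
  by_cases h0 : (T ∩ S).card % 2 = 0
  · exact ⟨T ∩ S, F, inter_subset_left,
      su_congr hD.sy h fun v hv => by simp [hT v hv], h0⟩
  · exact ⟨T \ S, F, sdiff_subset,
      su_congr hD.sy h.compl fun v hv => by simp [hT v hv], by omega⟩

theorem setup {E : Finset (V × V)} (hE : Sys E Prod.fst)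
    (hd : ∀ v, deg E v % 2 = 0 ∨ 9 ≤ deg E v)
    (hcon : ∀ a ∈ E, ∀ b ∈ E, Reach E Prod.fst a.1 b.1) (hodd : ∃ v, deg E v % 2 = 1)
    (hlow : ∃ a ∈ E, deg E a.1 < 8) : ∃ R A F, Su E R A F := by
  by_cases h2 : ∃ z, deg E z = 2
  · obtain ⟨z, hz⟩ := h2
    obtain ⟨S, F, h⟩ := ev_algebra (off_sys hE (∅ ∪ dtwo E))
    have hs := (off_sys hE (∅ ∪ dtwo E)).sy
    have h0 : ∀ v, deg E v = 2 → deg (off E (∅ ∪ dtwo E)) v = 0 := fun v hv =>
      deg_zero fun x hx => (mem_off.1 hx).2.1 (mem_union_right _ (mem_dtwo.2 hv))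
    obtain ⟨B, hB⟩ : ∃ B : Finset V, ∀ v, v ∈ B ↔ (v ∈ S ∧ 0 < deg (off E (∅ ∪ dtwo E)) v) ∨
        (2 < deg E v ∧ deg (off E (∅ ∪ dtwo E)) v = 0) :=
      ⟨univ.filter fun v => (v ∈ S ∧ 0 < deg (off E (∅ ∪ dtwo E)) v) ∨
        (2 < deg E v ∧ deg (off E (∅ ∪ dtwo E)) v = 0), fun v => by simp⟩
    have b2 : ∀ v ∈ B, deg E v ≠ 2 := fun v hv e => by
      have := h0 v e
      rcases (hB v).1 hv with k | k <;> omega
    have bp : ∀ v ∈ B, 0 < deg E v := fun v hv => by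
      have := off_att E (∅ ∪ dtwo E) v
      rcases (hB v).1 hv with k | k <;> omega
    have bv : ∀ v, 0 < deg (off E (∅ ∪ dtwo E)) v → (v ∈ B ↔ v ∈ S) := fun v hv => by
      rw [hB]
      exact ⟨fun k => k.elim (·.1) fun k => by omega, fun k => Or.inl ⟨k, hv⟩⟩
    have bc : ∀ v, v ∉ B → 2 < deg E v → 0 < deg (off E (∅ ∪ dtwo E)) v := fun v hv k =>
      Nat.pos_of_ne_zero fun e => hv ((hB v).2 (Or.inr ⟨k, e⟩))
    by_cases he : B.card % 2 = 0
    · exact ⟨∅, B, F, hE, hd, hcon, hodd, by simp, by simp, su_congr hs h bv, bp, he,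
        fun x hx _ _ e _ => absurd e (b2 x hx), fun v hv _ => bc v hv⟩
    · have hzB : z ∉ B := fun k => b2 z k hz
      refine ⟨∅, insert z B, F, hE, hd, hcon, hodd, by simp, by simp,
        su_congr hs h fun v hv => ?_, fun v hv => ?_, ?_, fun x hx y hy ex ey => ?_,
        fun v hv _ => bc v fun k => hv (mem_insert_of_mem k)⟩
      · rw [mem_insert, ← bv v hv]
        refine or_iff_right fun e => ?_
        have := h0 z hz
        rw [e] at hv
        omega
      · rcases mem_insert.1 hv with rfl | k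
        · omega
        · exact bp v k
      · rw [card_insert_of_notMem hzB]; omega
      · rw [(mem_insert.1 hx).resolve_right fun k => b2 x k ex,
          (mem_insert.1 hy).resolve_right fun k => b2 y k ey]
  · have h2' : ∀ v, deg E v ≠ 2 := fun v e => h2 ⟨v, e⟩
    have e2 : dtwo E = ∅ := eq_empty_of_forall_notMem fun v hv => h2' v (mem_dtwo.1 hv)
    obtain ⟨W, hW⟩ : ∃ W : Finset V, ∀ v, v ∈ W ↔ 0 < deg E v :=
      ⟨univ.filter fun v => 0 < deg E v, fun v => by simp⟩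
    have key : ∀ R : Finset V, (∀ x ∈ R, ∀ y ∈ R, x = y) → (W \ R).card % 2 = 1 →
        (∀ r ∈ R, (deg E r = 4 ∨ deg E r = 6) ∧ ∀ a ∈ E, deg E r ≤ deg E a.1) →
        ∃ A F, Su E R A F := fun R h1 ho hr => by
      obtain ⟨A, F, hA, hV, he⟩ := su_side (off_sys hE R) (T := W \ R) (fun v hv => by
        obtain ⟨a, ha, rfl⟩ := dg_pos.1 hv
        exact mem_sdiff.2 ⟨(hW _).2 (dg_pos.2 ⟨a, (mem_off.1 ha).1, rfl⟩), (mem_off.1 ha).2.1⟩) ho
      refine ⟨A, F, hE, hd, hcon, hodd, h1, fun r k => ⟨(hr r k).1,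
        fun m => (mem_sdiff.1 (hA m)).2 k, (hr r k).2⟩, by rw [e2, union_empty]; exact hV,
        fun v hv => (hW v).1 (mem_sdiff.1 (hA hv)).1, he, fun x _ _ _ e _ => absurd e (h2' x),
        fun v _ hv k => ?_⟩
      rw [e2, union_empty]
      have := off_att E R v
      have := att_le (E := E) h1 hv
      omega
    by_cases ho : W.card % 2 = 1
    · exact ⟨∅, key ∅ (by simp) (by rwa [sdiff_empty]) (by simp)⟩
    · obtain ⟨b, hb, hl⟩ := hlow
      obtain ⟨r, hr, hm⟩ := exists_min_image W (deg E) ⟨b.1, (hW _).2 (dg_pos.2 ⟨b, hb, rfl⟩)⟩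
      have hm' : ∀ a ∈ E, deg E r ≤ deg E a.1 := fun a ha =>
        hm _ ((hW _).2 (dg_pos.2 ⟨a, ha, rfl⟩))
      refine ⟨{r}, key {r} (by simp) ?_ fun x hx => ?_⟩
      · have := card_erase_add_one hr
        rw [sdiff_singleton_eq_erase]
        omega
      · rw [mem_singleton.1 hx]
        have := hm' b hb
        have := (hW r).1 hr
        have := hd r
        have := h2' r
        exact ⟨by omega, hm'⟩

end Pool.Agent.P.MP_0ad50f_co.BL
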