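import Pool.Agent.P.MP_0ad50f_co.EV.Main

/-! Bridgeless graphs: transfer lemmas. -/

namespace Pool.Agent.P.MP_0ad50f_co.BL

set_option linter.unusedSectionVars false

open Finset
open Pool.Agent.P.MP_0ad50f_co.D8 Pool.Agent.P.MP_0ad50f_co.EV

variable {V : Type} [Fintype V] [DecidableEq V]

/-- minimum degree eight on the vertices that carry a dart -/
theorem d8 {E : Finset (V × V)} (hE : Sys E Prod.fst) (h : ∀ a ∈ E, 8 ≤ deg E a.1) :
    ∃ c, Col E c := by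
  classical
  let U := {v : V // ∃ a ∈ E, a.1 = v}
  let ι : U × U ↪ V × V := ⟨Prod.map (↑) (↑), Subtype.val_injective.prodMap Subtype.val_injective⟩
  let E' : Finset (U × U) := univ.filter fun a => ι a ∈ E
  have mE : ∀ a, a ∈ E' ↔ ι a ∈ E := fun a => by simp [E']
  have sur : ∀ a ∈ E, ∃ b, ι b = a := fun a ha =>
    ⟨(⟨a.1, a, ha, rfl⟩, ⟨a.2, a.swap, hE.sy a ha, rfl⟩), rfl⟩
  have hf : ∀ (p : V × V → Prop) [DecidablePred p] (u : U),
      (E.filter p).filter (fun b => b.1 = u.1) =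
        ((E'.filter fun b => p (ι b)).filter fun b => b.1 = u).map ι := fun p _ u => by
    ext a
    simp only [mem_filter, mem_map, mE]
    constructor
    · rintro ⟨⟨h1, h2⟩, h3⟩
      obtain ⟨b, rfl⟩ := sur a h1
      exact ⟨b, ⟨⟨h1, h2⟩, Subtype.ext h3⟩, rfl⟩
    · rintro ⟨b, ⟨h1, rfl⟩, rfl⟩
      exact ⟨h1, rfl⟩
  have hf' : ∀ u : U, E.filter (fun b => b.1 = u.1) = (E'.filter fun b => b.1 = u).map ι :=
    fun u => by simpa only [filter_true] using hf (fun _ => True) u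
  have hd : ∀ u : U, deg E u = deg E' u := fun u => (congrArg card (hf' u)).trans (card_map _)
  obtain ⟨c, c1, c2, c3⟩ := D8.colouring (E := E')
    ⟨fun a ha => (mE _).2 (hE.sy _ ((mE a).1 ha)),
      fun a ha e => hE.nl _ ((mE a).1 ha) (congrArg Subtype.val e)⟩ fun u => by
    obtain ⟨a, ha, e⟩ := u.2
    rw [← hd, ← e]
    exact h a ha
  have hx : ∀ b, Function.extend ι c 0 (ι b) = c b := ι.injective.extend_apply _ _
  have hs : ∀ u : U, ∑ b ∈ E.filter (fun b => b.1 = u.1), Function.extend ι c 0 b =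
      ∑ b ∈ E'.filter (fun b => b.1 = u), c b := fun u => by
    rw [hf', sum_map]
    exact sum_congr rfl fun b _ => hx b
  refine ⟨Function.extend ι c 0, fun a ha => ?_, fun a ha => ?_, fun v k => ?_⟩
  · obtain ⟨b, rfl⟩ := sur a ha
    rw [show (ι b).swap = ι b.swap from rfl, hx, hx]
    exact c1 b ((mE b).2 ha)
  · obtain ⟨b, rfl⟩ := sur a ha
    exact fun e => c2 b ((mE b).2 ha) ((hs b.1).symm.trans (e.trans (hs b.2)))
  · by_cases hv : ∃ a ∈ E, a.1 = v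
    · have h1 := c3 ⟨v, hv⟩ k
      have h2 := (congrArg card (hf (fun b => Function.extend ι c 0 b = k) ⟨v, hv⟩)).trans
        (card_map _)
      simp only [hx] at h2
      exact (congrArg (2 * ·) h2).trans_le (h1.trans (hd ⟨v, hv⟩).ge)
    · have : deg (E.filter fun b => Function.extend ι c 0 b = k) v = 0 :=
        card_eq_zero.2 (filter_eq_empty_iff.2 fun a ha e => hv ⟨a, (mem_filter.1 ha).1, e⟩)
      omega

/-- induction on components -/
theorem sub_comp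
    (hc : ∀ E : Finset (V × V), Sys E Prod.fst → (∀ v, deg E v % 2 = 0 ∨ 9 ≤ deg E v) →
      (∀ W : Finset V, ∀ a ∈ E, a.1 ∉ W → a.2 ∈ W → ∃ b ∈ E, b ≠ a ∧ b.1 ∉ W ∧ b.2 ∈ W) →
      (∀ a ∈ E, ∀ b ∈ E, Reach E Prod.fst a.1 b.1) → ∃ c, Col E c)
    (n : ℕ) : ∀ {E : Finset (V × V)}, E.card = n → Sys E Prod.fst →
    (∀ v, deg E v % 2 = 0 ∨ 9 ≤ deg E v) →
    (∀ W : Finset V, ∀ a ∈ E, a.1 ∉ W → a.2 ∈ W → ∃ b ∈ E, b ≠ a ∧ b.1 ∉ W ∧ b.2 ∈ W) →
    ∃ c, Col E c := by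
  classical
  induction n using Nat.strong_induction_on with
  | _ n ih =>
  intro E hn hE hev hcut
  rcases E.eq_empty_or_nonempty with rfl | ⟨a0, ha0⟩
  · exact hc _ hE hev hcut (by simp)
  let C := E.filter fun a => Reach E Prod.fst a0.1 a.1
  have hC : ∀ a, a ∈ C ↔ a ∈ E ∧ Reach E Prod.fst a0.1 a.1 := fun a => mem_filter
  have hCE : C ⊆ E := filter_subset _ _
  have hCs : Sy C := fun a ha =>
    (hC _).2 ⟨hE.sy a ((hC a).1 ha).1, ((hC a).1 ha).2.trans (Reach.dart _ ((hC a).1 ha).1)⟩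
  have i1 : ∀ v, Reach E Prod.fst a0.1 v →
      E.filter (fun b => b.1 = v) = C.filter (fun b => b.1 = v) := fun v hv => by
    ext b
    simp only [mem_filter, hC]
    exact ⟨fun h => ⟨⟨h.1, h.2 ▸ hv⟩, h.2⟩, fun h => ⟨h.1.1, h.2⟩⟩
  have i2 : ∀ v, ¬ Reach E Prod.fst a0.1 v →
      E.filter (fun b => b.1 = v) = (E \ C).filter (fun b => b.1 = v) := fun v hv => by
    ext b
    simp only [mem_filter, mem_sdiff, hC]
    exact ⟨fun h => ⟨⟨h.1, fun m => hv (h.2 ▸ m.2)⟩, h.2⟩, fun h => ⟨h.1.1, h.2⟩⟩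
  have hd : ∀ v, deg (E \ C) v + deg C v = deg E v := fun v => dg_sdiff _ hCE v
  have hevC : ∀ v, (deg C v % 2 = 0 ∨ 9 ≤ deg C v) ∧
      (deg (E \ C) v % 2 = 0 ∨ 9 ≤ deg (E \ C) v) := fun v => by
    have h1 := hd v
    have h2 := hev v
    by_cases hv : Reach E Prod.fst a0.1 v
    · have : deg E v = deg C v := congrArg card (i1 v hv)
      omega
    · have : deg E v = deg (E \ C) v := congrArg card (i2 v hv)
      omega
  have hr : ∀ v, Reach E Prod.fst a0.1 v → Reach C Prod.fst a0.1 v := fun v hv => by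
    induction hv with
    | refl => exact Reach.refl _ _ _
    | tail h1 hs ih =>
      obtain ⟨a, ha, rfl, rfl⟩ := hs
      exact ih.trans (Reach.dart _ ((hC a).2 ⟨ha, h1⟩))
  have hs : ∀ a ∈ E, Reach E Prod.fst a0.1 a.1 ↔ Reach E Prod.fst a0.1 a.2 := fun a ha =>
    ⟨fun h => h.trans (Reach.dart _ ha), fun h => h.trans (Reach.dart _ (hE.sy a ha))⟩
  obtain ⟨c1, p1, p2, p3⟩ := hc C (hE.mono hCE hCs) (fun v => (hevC v).1) (fun W a ha h1 h2 => by
    obtain ⟨x, y⟩ := (hC a).1 ha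
    obtain ⟨b, b1, b2, b3, b4⟩ := hcut (W.filter fun v => Reach E Prod.fst a0.1 v) a x
      (fun h => h1 (mem_filter.1 h).1) (mem_filter.2 ⟨h2, (hs a x).1 y⟩)
    have z := (hs b b1).2 (mem_filter.1 b4).2
    exact ⟨b, (hC b).2 ⟨b1, z⟩, b2, fun h => b3 (mem_filter.2 ⟨h, z⟩), (mem_filter.1 b4).1⟩)
    fun a ha b hb =>
    ((hr _ ((hC a).1 ha).2).symm hCs).trans (hr _ ((hC b).1 hb).2)
  obtain ⟨c2, q1, q2, q3⟩ := ih (E \ C).card (hn ▸ card_lt_card ⟨sdiff_subset, fun h =>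
    (mem_sdiff.1 (h ha0)).2 ((hC _).2 ⟨ha0, Reach.refl _ _ _⟩)⟩) rfl
    (hE.mono sdiff_subset (hE.sy.sdiff hCs)) (fun v => (hevC v).2) fun W a ha h1 h2 => by
    obtain ⟨x, y⟩ := mem_sdiff.1 ha
    obtain ⟨b, b1, b2, b3, b4⟩ := hcut (W.filter fun v => ¬ Reach E Prod.fst a0.1 v) a x
      (fun h => h1 (mem_filter.1 h).1)
      (mem_filter.2 ⟨h2, fun h => y ((hC a).2 ⟨x, (hs a x).2 h⟩)⟩)
    have z : ¬ Reach E Prod.fst a0.1 b.1 := fun h => (mem_filter.1 b4).2 ((hs b b1).1 h)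
    exact ⟨b, mem_sdiff.2 ⟨b1, fun h => z ((hC b).1 h).2⟩, b2,
      fun h => b3 (mem_filter.2 ⟨h, z⟩), (mem_filter.1 b4).1⟩
  have s1 : ∀ v, Reach E Prod.fst a0.1 v → ∑ b ∈ E.filter (fun b => b.1 = v),
      (if b ∈ C then c1 b else c2 b) = ∑ b ∈ C.filter (fun b => b.1 = v), c1 b := fun v hv => by
    rw [i1 v hv]
    exact sum_congr rfl fun b hb => if_pos (mem_filter.1 hb).1
  have s2 : ∀ v, ¬ Reach E Prod.fst a0.1 v → ∑ b ∈ E.filter (fun b => b.1 = v),
      (if b ∈ C then c1 b else c2 b) = ∑ b ∈ (E \ C).filter (fun b => b.1 = v), c2 b :=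
    fun v hv => by
      rw [i2 v hv]
      exact sum_congr rfl fun b hb => if_neg (mem_sdiff.1 (mem_filter.1 hb).1).2
  refine ⟨fun a => if a ∈ C then c1 a else c2 a, fun a ha => ?_, fun a ha => ?_, fun v k => ?_⟩
  · by_cases h : a ∈ C
    · simp only [if_pos h, if_pos (hCs a h)]
      exact p1 a h
    · have h' : a.swap ∉ C := fun e => h (by simpa using hCs _ e)
      simp only [if_neg h, if_neg h']
      exact q1 a (mem_sdiff.2 ⟨ha, h⟩)
  · by_cases h : Reach E Prod.fst a0.1 a.1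
    · rw [s1 _ h, s1 a.2 (h.trans (Reach.dart _ ha))]
      exact p2 a ((hC a).2 ⟨ha, h⟩)
    · rw [s2 _ h, s2 a.2 fun m => h (m.trans (Reach.dart _ (hE.sy a ha)))]
      exact q2 a (mem_sdiff.2 ⟨ha, fun m => h ((hC a).1 m).2⟩)
  · have h1 := hd v
    beta_reduce
    by_cases h : Reach E Prod.fst a0.1 v
    · have h2 := p3 v k
      have h3 : deg (E.filter fun b => (if b ∈ C then c1 b else c2 b) = k) v =
          deg (C.filter fun b => c1 b = k) v := by
        refine congrArg card ?_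
        ext b
        simp only [mem_filter, hC]
        constructor
        · rintro ⟨⟨x, y⟩, rfl⟩
          rw [if_pos ⟨x, h⟩] at y
          exact ⟨⟨⟨x, h⟩, y⟩, rfl⟩
        · rintro ⟨⟨x, y⟩, z⟩
          exact ⟨⟨x.1, by rw [if_pos x, y]⟩, z⟩
      omega
    · have h2 := q3 v k
      have h3 : deg (E.filter fun b => (if b ∈ C then c1 b else c2 b) = k) v =
          deg ((E \ C).filter fun b => c2 b = k) v := by
        refine congrArg card ?_
        ext b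
        simp only [mem_filter, mem_sdiff, hC]
        constructor
        · rintro ⟨⟨x, y⟩, rfl⟩
          rw [if_neg fun m => h m.2] at y
          exact ⟨⟨⟨x, fun m => h m.2⟩, y⟩, rfl⟩
        · rintro ⟨⟨x, y⟩, z⟩
          exact ⟨⟨x.1, by rw [if_neg x.2, y]⟩, z⟩
      omega

/-- from connected dart systems to graphs -/
theorem main_of
    (hc : ∀ E : Finset (V × V), Sys E Prod.fst → (∀ v, deg E v % 2 = 0 ∨ 9 ≤ deg E v) →
      (∀ W : Finset V, ∀ a ∈ E, a.1 ∉ W → a.2 ∈ W → ∃ b ∈ E, b ≠ a ∧ b.1 ∉ W ∧ b.2 ∈ W) →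
      (∀ a ∈ E, ∀ b ∈ E, Reach E Prod.fst a.1 b.1) → ∃ c, Col E c)
    (G : SimpleGraph V) [DecidableRel G.Adj] (hG : ∀ v, Even (G.degree v) ∨ 9 ≤ G.degree v)
    (hb : ∀ e ∈ G.edgeSet, ¬ G.IsBridge e) :
    ∃ c : Sym2 V → ℕ, (∀ e ∈ G.edgeSet, 1 ≤ c e ∧ c e ≤ 5) ∧
      (∀ u v, G.Adj u v →
        ∑ w ∈ G.neighborFinset u, c s(u, w) ≠ ∑ w ∈ G.neighborFinset v, c s(v, w)) ∧
      ∀ v a, 2 * ((G.neighborFinset v).filter fun w => c s(v, w) = a).card ≤ G.degree v := by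
  let E : Finset (V × V) := univ.filter fun a => G.Adj a.1 a.2
  have mE : ∀ a : V × V, a ∈ E ↔ G.Adj a.1 a.2 := fun a => by simp [E]
  have hE : Sys E Prod.fst :=
    ⟨fun a ha => (mE _).2 ((mE a).1 ha).symm, fun a ha => ((mE a).1 ha).ne'⟩
  have hf : ∀ v, E.filter (fun b => b.1 = v) =
      (G.neighborFinset v).map ⟨fun w => (v, w), fun _ _ h => (Prod.ext_iff.1 h).2⟩ := fun v => by
    ext ⟨p, q⟩
    simp only [mem_filter, mE, mem_map, SimpleGraph.mem_neighborFinset]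
    constructor
    · rintro ⟨h, rfl⟩
      exact ⟨q, h, rfl⟩
    · rintro ⟨w, h, e⟩
      obtain ⟨rfl, rfl⟩ : v = p ∧ w = q := Prod.mk.inj e
      exact ⟨h, rfl⟩
  have hd : ∀ v, deg E v = G.degree v := fun v => by
    unfold deg dg
    rw [hf, card_map, SimpleGraph.card_neighborFinset_eq_degree]
  obtain ⟨c, h1, h2, h3⟩ := sub_comp hc _ rfl hE (fun v => by
    rw [hd]
    exact (hG v).imp_left Nat.even_iff.1) fun W a ha w1 w2 => by
    obtain ⟨p⟩ := not_not.1 (mt SimpleGraph.isBridge_iff.2 (hb s(a.1, a.2) ((mE a).1 ha)))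
    obtain ⟨d, -, d1, d2⟩ := p.exists_boundary_dart {v | v ∉ W} w1 (not_not.2 w2)
    obtain ⟨d3, d4⟩ := SimpleGraph.deleteEdges_adj.1 d.adj
    exact ⟨d.toProd, (mE _).2 d3, fun e => d4 (by rw [e]; rfl), d1, not_not.1 d2⟩
  let c' : Sym2 V → ℕ := Sym2.lift ⟨fun u w => max (c (u, w)) (c (w, u)), fun _ _ => max_comm _ _⟩
  have hc' : ∀ u w, G.Adj u w → c' s(u, w) = c (u, w) := fun u w h => by
    have := (h1 (u, w) ((mE _).2 h)).1
    simp only [Prod.swap_prod_mk] at this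
    simp [c', this]
  have hs : ∀ u, ∑ w ∈ G.neighborFinset u, c' s(u, w) = ∑ b ∈ E.filter (fun b => b.1 = u), c b :=
    fun u => by
      rw [hf, sum_map]
      exact sum_congr rfl fun w hw => hc' u w (by simpa using hw)
  refine ⟨c', fun e he => ?_, fun u v h => ?_, fun v a => ?_⟩
  · induction e using Sym2.ind with
    | _ u w =>
      rw [hc' u w he]
      exact (h1 (u, w) ((mE _).2 he)).2
  · rw [hs, hs]
    exact h2 (u, v) ((mE _).2 h)
  · have := h3 v a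
    rw [hd] at this
    refine le_trans (le_of_eq ?_) this
    unfold deg dg
    rw [filter_comm, hf, filter_map, card_map]
    congr 2
    exact filter_congr fun w hw => by
      rw [hc' v w (by simpa using hw)]
      rfl

end Pool.Agent.P.MP_0ad50f_co.BL
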