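import Pool.Agent.P.MP_0ad50f_co.BL.Core
import Pool.Agent.P.MP_0ad50f_co.BL.Min
import Pool.Agent.P.MP_0ad50f_co.BL.Setup
import Pool.Agent.P.MP_0ad50f_co.BL.Sub

/-! Bridgeless graphs: assembly. -/

namespace Pool.Agent.P.MP_0ad50f_co.BL

open Finset
open Pool.Agent.P.MP_0ad50f_co.D8 Pool.Agent.P.MP_0ad50f_co.EV

variable {V : Type} [Fintype V] [DecidableEq V]

theorem conn (E : Finset (V × V)) (hE : Sys E Prod.fst)
    (hd : ∀ v, deg E v % 2 = 0 ∨ 9 ≤ deg E v) (hbr : Brl E)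
    (hcon : ∀ a ∈ E, ∀ b ∈ E, Reach E Prod.fst a.1 b.1) : ∃ c, Col E c := by
  by_cases hev : ∀ v, deg E v % 2 = 0
  · exact connected hE hev hcon
  by_cases h8 : ∀ a ∈ E, 8 ≤ deg E a.1
  · exact d8 hE h8
  obtain ⟨R, A, F, h⟩ := setup hE hd hcon (by
    obtain ⟨v, hv⟩ := not_forall.1 hev
    exact ⟨v, by omega⟩) (by
    by_contra k
    exact h8 fun a ha => not_lt.1 fun m => k ⟨a, ha, m⟩)
  obtain ⟨X, Z, hx⟩ := level1 h hbr
  exact core h hx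

theorem main (G : SimpleGraph V) [DecidableRel G.Adj]
    (hG : ∀ v, Even (G.degree v) ∨ 9 ≤ G.degree v) (hb : ∀ e ∈ G.edgeSet, ¬ G.IsBridge e) :
    ∃ c : Sym2 V → ℕ, (∀ e ∈ G.edgeSet, 1 ≤ c e ∧ c e ≤ 5) ∧
      (∀ u v, G.Adj u v →
        ∑ w ∈ G.neighborFinset u, c s(u, w) ≠ ∑ w ∈ G.neighborFinset v, c s(v, w)) ∧
      ∀ v a, 2 * ((G.neighborFinset v).filter fun w => c s(v, w) = a).card ≤ G.degree v :=
  main_of conn G hG hb

end Pool.Agent.P.MP_0ad50f_co.BL
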