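import Pool.Agent.P.MP_0ad50f_co.BL.Cnt
import Pool.Agent.P.MP_0ad50f_co.BL.Lev
import Pool.Agent.P.MP_0ad50f_co.BL.Late
import Pool.Agent.P.MP_0ad50f_co.BL.GoodO

/-! Bridgeless graphs: the signs of the two levels. -/

namespace Pool.Agent.P.MP_0ad50f_co.BL

set_option linter.unusedSectionVars false

open Finset
open Pool.Agent.P.MP_0ad50f_co.D8 Pool.Agent.P.MP_0ad50f_co.EV

variable {V : Type} [Fintype V] [DecidableEq V] {E F X : Finset (V × V)} {R A Z : Finset V}

theorem fil_two {D : Finset (V × V)} {v x y : V} (h : deg D v ≤ 2) (hx : (v, x) ∈ D)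
    (hy : (v, y) ∈ D) (hne : x ≠ y) : D.filter (fun a => a.1 = v) = {(v, x), (v, y)} := by
  refine (eq_of_subset_of_card_le (fun a ha => ?_) ?_).symm
  · rcases mem_insert.1 ha with rfl | ha
    · exact mem_filter.2 ⟨hx, rfl⟩
    · rw [mem_singleton.1 ha]
      exact mem_filter.2 ⟨hy, rfl⟩
  · rw [card_pair fun k => hne (Prod.mk.inj k).2]
    exact h

theorem sm_two {D : Finset (V × V)} {v x y : V} (h : deg D v ≤ 2) (hx : (v, x) ∈ D)
    (hy : (v, y) ∈ D) (hne : x ≠ y) (f : V × V → ℤ) :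
    deg D v = 2 ∧ sm D f v = f (v, x) + f (v, y) := by
  unfold deg sm dg sg
  rw [fil_two h hx hy hne]
  exact ⟨card_pair fun k => hne (Prod.mk.inj k).2, sum_pair fun k => hne (Prod.mk.inj k).2⟩

/-- a vertex of degree two with a smaller neighbour of degree two -/
def Tw (E : Finset (V × V)) (v : V) : Prop :=
  deg E v = 2 ∧ ∃ w, (v, w) ∈ E ∧ deg E w = 2 ∧ Fintype.equivFin V w < Fintype.equivFin V v

theorem Tw.lt {v : V} (h : Tw E v) : Lt E v :=
  ⟨h.1, h.2.imp fun _ k => ⟨k.1, k.2.1⟩⟩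

theorem pair_sign {D : Finset (V × V)} (hE : Sys E Prod.fst) (hD : D ⊆ E) (hs : Sy D)
    {f : V × V → ℤ} (hf : Sgn D f)
    (h1 : ∀ v, Tw E v → deg D v = 2 → sm D f v = 2 ∨ sm D f v = -2)
    (h2 : ∀ v, ¬ Tw E v → deg E v = 2 → deg D v = 2 → -1 ≤ sm D f v ∧ sm D f v ≤ 1)
    {t t' p p' : V} (ht : (t, t') ∈ D) (d : deg E t = 2) (d' : deg E t' = 2) (hp : (t, p) ∈ D)
    (hp' : (t', p') ∈ D) (n : deg E p ≠ 2) (n' : deg E p' ≠ 2) : f (t, p) ≠ f (t', p') := by
  have key : ∀ t t' p p' : V, (t, t') ∈ D → deg E t = 2 → deg E t' = 2 → (t, p) ∈ D →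
      (t', p') ∈ D → deg E p ≠ 2 → deg E p' ≠ 2 → Fintype.equivFin V t' < Fintype.equivFin V t →
      f (t, p) ≠ f (t', p') := by
    intro t t' p p' ht d d' hp hp' n n' hlt
    have ht' : (t', t) ∈ D := hs _ ht
    have e1 := sm_two ((dg_mono _ hD t).trans d.le) ht hp (fun k => n (k ▸ d')) f
    have e2 := sm_two ((dg_mono _ hD t').trans d'.le) ht' hp' (fun k => n' (k ▸ d)) f
    have e3 := h1 t ⟨d, t', hD ht, d', hlt⟩ e1.1
    have e4 := h2 t' (fun ⟨_, w, w1, w2, w3⟩ => by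
      have : (t', w) ∈ E.filter (fun a => a.1 = t') := mem_filter.2 ⟨w1, rfl⟩
      rw [fil_two d'.le (hD ht') (hD hp') fun k => n' (k ▸ d)] at this
      rcases mem_insert.1 this with k | k
      · rw [(Prod.mk.inj k).2] at w3
        exact lt_asymm hlt w3
      · exact n' ((Prod.mk.inj (mem_singleton.1 k)).2 ▸ w2)) d' e2.1
    have e5 : f (t', t) = f (t, t') := (hf _ ht).1
    have e6 := (hf _ ht).2
    have e7 := (hf _ hp).2
    have e8 := (hf _ hp').2
    omega
  rcases lt_trichotomy (Fintype.equivFin V t') (Fintype.equivFin V t) with k | k | k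
  · exact key t t' p p' ht d d' hp hp' n n' k
  · exact absurd ((Fintype.equivFin V).injective k) (hE.nl _ (hD ht))
  · exact (key t' t p' p (hs _ ht) d' d hp' hp n' n k).symm

theorem L1.split (h : Su E R A F) (v : V) :
    deg X v = deg (off (X \ F) R) v + deg (X ∩ F) v + deg (att X R) v := by
  have e1 := off_att X R v
  have e2 : deg (off X R) v = deg (off (X \ F) R) v + deg (X ∩ F) v :=
    deg_add (fun x => by
      have := @Su.fR _ _ _ _ _ _ _ h (v, x)
      simp only [mem_off, mem_sdiff, mem_inter] at this ⊢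
      tauto) fun x hx k => (mem_sdiff.1 (mem_off.1 hx).1).2 (mem_inter.1 k).2
  omega

/-- signs on the static even edges -/
theorem signE (h : Su E R A F) (hx : L1 E R A F X Z) : ∃ g, Sgn (off (X \ F) R) g ∧
    (∀ v, ¬ Lt E v →
      deg (off (X \ F) R) v + sm (off (X \ F) R) g v + 2 * deg (X ∩ F) v ≤ deg E v ∧
      deg (off (X \ F) R) v - sm (off (X \ F) R) g v + 2 * deg (X ∩ F) v +
        2 * deg (att X R) v ≤ deg E v) ∧
    (∀ v, v ∉ R → deg E v = 6 → 4 ≤ deg X v →
      1 ≤ deg (off (X \ F) R) v + sm (off (X \ F) R) g v) ∧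
    ∀ t t' p p', (t, t') ∈ off (X \ F) R → deg E t = 2 → deg E t' = 2 → (t, p) ∈ off (X \ F) R →
      (t', p') ∈ off (X \ F) R → deg E p ≠ 2 → deg E p' ≠ 2 → g (t, p) ≠ g (t', p') := by
  set D := off (X \ F) R with hD
  have hDs : Sys D Prod.fst :=
    off_sys (h.sys.mono (sdiff_subset.trans hx.sub) (hx.sy.sdiff h.var.sy)) R
  have hDE : D ⊆ E := (filter_subset _ _).trans (sdiff_subset.trans hx.sub)
  have zz : ∀ z ∈ Z, z ∉ R ∧ 4 ≤ deg E z ∧ 1 ≤ deg (att X R) z := fun z hz => by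
    obtain ⟨r, hr, k⟩ := hx.zr z hz
    exact ⟨h.nbr hr (h.sys.sy _ (hx.sub k)), (h.four hr (deg_pos (hx.sub k))).1,
      deg_pos (mem_att.2 ⟨k, Or.inr hr⟩)⟩
  obtain ⟨g, g1, g2, g3⟩ := lv2 hDs (fun v => deg D v + 2 + 2 * deg (X ∩ F) v ≤ deg E v)
    (fun v => Tw E v ∧ deg D v = 2) (fun v => v ∈ Z) (fun _ => 1) (fun _ => Or.inl rfl)
    (fun v hv => by omega) (fun a ha hn => by
      obtain ⟨z, k1, k2⟩ := hx.gd a ha hn
      exact ⟨z, k1, k2, fun k => by have := k.1.1; have := k.2; rw [← hD] at k2; omega⟩)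
    (fun x y k k' => hx.zu x k y k') (fun x hz _ hn => by
      obtain ⟨k1, -, k2⟩ := zz x hz
      have k3 := hx.cap x k1
      have k4 : ¬ Odd (deg D x) := fun m => hn ⟨x, Reach.refl _ _ _, m⟩
      rw [Nat.odd_iff] at k4
      rw [if_pos hz, ← hD] at k3
      omega)
  have g4 : ∀ v, ¬ (Tw E v ∧ deg D v = 2) → (-1 ≤ sm D g v ∧ sm D g v ≤ 1) ∨
      (sm D g v = 2 ∧ deg D v + 2 + 2 * deg (X ∩ F) v ≤ deg E v) := fun v hv => by
    rcases (g3 v).2 hv with k | ⟨k1, -, k | ⟨-, p, p1, p2, -⟩⟩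
    · exact Or.inl k
    · exact Or.inr ⟨by omega, k1⟩
    · have := (zz p p1).2.1
      have := p2.1.1
      omega
  have cg := fun v => ma_cls g1 (r := 1) (Or.inl rfl) v
  refine ⟨g, g1, fun v hv => ?_, fun v hv d6 h4 => ?_, fun t t' p p' =>
    pair_sign h.sys hDE hDs.sy g1 (fun v k k' => (g3 v).1 ⟨k, k'⟩) fun v k d k' => ?_⟩
  · have e1 := g4 v fun k => hv k.1.lt
    have e2 := cg v
    by_cases hr : v ∈ R
    · have e3 : deg D v = 0 := deg_zero fun x k => (mem_off.1 k).2.1 hr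
      have e4 : deg (X ∩ F) v = 0 := deg_zero fun x k => (h.fR (mem_inter.1 k).2).1 hr
      have e5 : deg (att X R) v ≤ deg X v := dg_mono _ (filter_subset _ _) v
      have e6 := hx.rt v hr
      have e7 := (h.root v hr).1
      have e8 := ma_cls g1 (r := -1) (Or.inr rfl) v
      omega
    · have e3 := hx.cap v hr
      rw [← hD] at e3
      by_cases hz : v ∈ Z
      · have e4 := g2 v hz
        have e5 := zz v hz
        rw [if_pos hz] at e3
        omega
      · rw [if_neg hz] at e3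
        omega
  · have e1 := g4 v fun k => by have := k.1.1; omega
    have e2 := L1.split (X := X) h v
    have e3 := hx.cap v hv
    rw [← hD] at e2 e3
    by_cases hz : v ∈ Z
    · have e4 := g2 v hz
      have e5 := zz v hz
      rw [if_pos hz] at e3
      omega
    · rw [if_neg hz] at e3
      omega
  · have := g4 v fun m => k m.1
    omega

/-- signs on the odd edges -/
theorem signO (h : Su E R A F) (hx : L1 E R A F X Z) : ∃ f, Sgn (E \ X) f ∧
    (∀ r ∈ R, sm (E \ X) f r = -2) ∧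
    (∀ v, ¬ Lt E v → deg (E \ X) v + sm (E \ X) f v ≤ deg E v ∧
      deg (E \ X) v - sm (E \ X) f v ≤ deg E v) ∧
    (∀ v ∈ A, deg E v = 2 → sm (E \ X) f v ≤ 0) ∧
    (R = ∅ → ∀ v, deg E v ≠ 2 → -1 ≤ sm (E \ X) f v) ∧
    (∀ r ∈ R, ∀ w, (r, w) ∈ E → -2 ≤ sm (E \ X) f w ∧
      (sm (E \ X) f w = -2 → deg E w ≠ 4 ∧ (deg E w = 6 → 4 ≤ deg X w))) ∧
    ∀ t t' p p', (t, t') ∈ E \ X → deg E t = 2 → deg E t' = 2 → (t, p) ∈ E \ X →
      (t', p') ∈ E \ X → deg E p ≠ 2 → deg E p' ≠ 2 → f (t, p) ≠ f (t', p') := by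
  classical
  obtain ⟨good, q1, q2, q3⟩ := goodO h hx
  set O := E \ X with hO
  have hOE : O ⊆ E := sdiff_subset
  have hOs : Sys O Prod.fst := h.sys.mono hOE (h.sys.sy.sdiff hx.sy)
  have c1 : ∀ v, deg O v + deg X v = deg E v := fun v => dg_sdiff _ hx.sub v
  have nr : ∀ v, deg E v = 2 → v ∉ R := fun v d k => by have := (h.root v k).1; omega
  obtain ⟨f, f1, f2, f3⟩ := lv2 hOs good (fun v => v ∈ R ∨ (Tw E v ∧ deg O v = 2))
    (fun v => v ∈ R ∨ (v ∈ A ∧ deg E v = 2))
    (fun v => if v ∈ R ∨ (v ∈ A ∧ deg E v = 2) then -1 else 1)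
    (fun v => by split_ifs <;> simp) (fun v hv => by
      rcases hv with k | k
      · have := (h.root v k).1
        have := hx.rt v k
        have := c1 v
        omega
      · omega) (fun a ha hn => by
      obtain ⟨z, k1, k2⟩ := q2 a ha hn
      refine ⟨z, k1, k2, fun k => k.elim (q1 z k2).1 fun k => ?_⟩
      have := (q1 z k2).2
      have := k.1.1
      omega) (fun x y k k' _ => by
      rcases k with k | k <;> rcases k' with k' | k'
      · exact h.one _ k _ k'
      · have := h.four k (v := y) (by omega)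
        omega
      · have := h.four k' (v := x) (by omega)
        omega
      · exact h.a2 _ k.1 _ k'.1 k.2 k'.2) (fun x k k' hn => by
      rcases k with k | k
      · exact absurd (Or.inl k) k'
      · exact absurd ⟨x, Reach.refl _ _ _, Nat.odd_iff.2 ((hx.par x (nr x k.2)).2 k.1)⟩ hn)
  have fr : ∀ r ∈ R, sm O f r = -2 := fun r hr => by
    have e1 := f2 r (Or.inl hr)
    have e2 := (f3 r).1 (Or.inl hr)
    rw [if_pos (Or.inl hr)] at e1
    omega
  have f4 : ∀ v, v ∉ R → ¬ (Tw E v ∧ deg O v = 2) → (-1 ≤ sm O f v ∧ sm O f v ≤ 1) ∨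
      (deg O v + 2 ≤ deg E v ∧ (sm O f v = 2 ∨ sm O f v = -2)) := fun v hv k => by
    rcases (f3 v).2 (fun m => m.elim hv k) with k | ⟨k1, -, k2⟩
    · exact Or.inl k
    · refine Or.inr ⟨(q1 v k1).2, ?_⟩
      split_ifs at k2 <;> omega
  have f5 : ∀ v, v ∉ R → deg E v ≠ 2 → -1 ≤ sm O f v ∨ (sm O f v = -2 ∧ good v ∧
      ¬ Good O Prod.fst v ∧ ∃ r ∈ R, Reach O Prod.fst r v) := fun v hv d => by
    rcases (f3 v).2 (fun m => m.elim hv fun m => d m.1.1) with k | ⟨k1, k2, k3⟩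
    · exact Or.inl k.1
    rw [if_neg fun m => m.elim hv fun m => d m.2] at k3
    rcases k3 with k3 | ⟨k3, p, p1, p2, p3⟩
    · exact Or.inl (by omega)
    refine Or.inr ⟨by omega, k1, k2, p, by_contra fun m => ?_, p3⟩
    have e1 := (hx.par p m).2 (p1.resolve_left m).1
    have e2 := (p2.resolve_left m).2
    rw [← hO] at e1
    omega
  have cf := fun v => ma_cls f1 (r := 1) (Or.inl rfl) v
  refine ⟨f, f1, fr, fun v hv => ?_, fun v hv d => ?_, fun hR v d => ?_, fun r hr w hw => ?_,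
    fun t t' p p' => pair_sign h.sys hOE hOs.sy f1
      (fun v k k' => (f3 v).1 (Or.inr ⟨k, k'⟩)) fun v k d k' => ?_⟩
  · have e1 := c1 v
    by_cases hr : v ∈ R
    · have := fr v hr
      have := hx.rt v hr
      omega
    · have e2 := f4 v hr fun k => hv k.1.lt
      have e3 := cf v
      have e4 := hx.od v
      omega
  · have e1 := f2 v (Or.inr ⟨hv, d⟩)
    rw [if_pos (Or.inr ⟨hv, d⟩)] at e1
    omega
  · rcases f5 v (by simp [hR]) d with k | ⟨-, -, -, r, hr, -⟩
    · exact k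
    · simp [hR] at hr
  · have hw' := h.nbr hr hw
    have d4 := h.four hr (v := w) (deg_pos (h.sys.sy _ hw))
    rcases f5 w hw' (by omega) with k | ⟨k1, k2, k3, r', hr', k4⟩
    · exact ⟨by omega, fun m => by omega⟩
    rw [h.one _ hr' _ hr] at k4
    refine ⟨by omega, fun _ => ⟨fun d => ?_, fun d => ?_⟩⟩
    · refine q3 f f1 r hr (fr r hr) (fun v hv hg => ?_) w hw d k2 k3 k4 k1
      exact ((f3 v).2 fun m => m.elim hv fun m => by
        have := m.1.1
        have := h.four hr (v := v) (by omega)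
        omega).resolve_right fun m => hg m.1
    · have e1 : ¬ Odd (deg O w) := fun m => k3 ⟨w, Reach.refl _ _ _, m⟩
      rw [Nat.odd_iff] at e1
      have e2 : w ∉ A := fun m => e1 ((hx.par w hw').2 m)
      have e3 : deg (cut (off E (R ∪ dtwo E)) A) w ≤ deg X w := deg_le fun y hy => by
        by_contra m
        obtain ⟨y1, y2⟩ := mem_cut.1 hy
        obtain ⟨y3, -, y4⟩ := mem_off.1 y1
        refine k3 ⟨y, Reach.dart Prod.fst (a := (w, y)) (mem_sdiff.2 ⟨y3, m⟩),
          Nat.odd_iff.2 ((hx.par y fun m => y4 (mem_union_left _ m)).2 ?_)⟩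
        by_contra m'
        exact y2 ⟨fun k => absurd k e2, fun k => absurd k m'⟩
      have e4 : deg (off E R) w ≤ deg (off E (R ∪ dtwo E)) w := deg_le fun y hy => by
        obtain ⟨y1, y2, y3⟩ := mem_off.1 hy
        have := h.four hr (v := y) (deg_pos (h.sys.sy _ y1))
        refine mem_off.2 ⟨y1, fun m => ?_, fun m => ?_⟩
        · exact (mem_union.1 m).elim y2 fun m => by have := mem_dtwo.1 m; simp only at this; omega
        · exact (mem_union.1 m).elim y3 fun m => by have := mem_dtwo.1 m; simp only at this; omega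
      have e5 := off_att E R w
      have e6 := att_le (E := E) h.one hw'
      have e7 := h.var.le w
      have e8 : deg (cut (off E (R ∪ dtwo E)) A) w + deg (unc (off E (R ∪ dtwo E)) A) w =
          deg (off E (R ∪ dtwo E)) w := dg_cut_unc _ _ _ w
      have e9 := c1 w
      omega
  · have := f4 v (nr v d) fun m => k m.1
    omega

end Pool.Agent.P.MP_0ad50f_co.BL
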