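import Mathlib

/-! Bridgeless graphs: Tutte's theorem in the form of a minimal violator. -/

namespace Pool.Agent.P.MP_0ad50f_co.BL

open Finset

variable {X : Type} [DecidableEq X]

/-- a deleted set and a family of disjoint closed odd sets -/
structure Viol (W : Finset X) (adj : X → X → Prop) (U : Finset X) (K : Finset (Finset X)) :
    Prop where
  sub : U ⊆ W
  mem : ∀ k ∈ K, k ⊆ W \ U
  odd : ∀ k ∈ K, k.card % 2 = 1
  clo : ∀ k ∈ K, ∀ w ∈ k, ∀ w' ∈ W, adj w w' → w' ∈ k ∨ w' ∈ U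
  dis : ∀ k ∈ K, ∀ k' ∈ K, k ≠ k' → Disjoint k k'

theorem tu_first (W : Finset X) (adj : X → X → Prop) (hs : ∀ x y, adj x y → adj y x)
    (hi : ∀ x, ¬ adj x x)
    (hn : ¬ ∃ m : X → X, ∀ w ∈ W, m w ∈ W ∧ m (m w) = w ∧ adj w (m w)) :
    ∃ U K, Viol W adj U K ∧ U.card < K.card := by
  classical
  let G : SimpleGraph W := ⟨fun a b => adj a.1 b.1, ⟨fun _ _ h => hs _ _ h⟩, ⟨fun a => hi a.1⟩⟩
  have h1 : ¬ ∃ M : G.Subgraph, M.IsPerfectMatching := by
    rintro ⟨M, hM⟩
    rw [SimpleGraph.Subgraph.isPerfectMatching_iff] at hM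
    choose p hp hp' using hM
    refine hn ⟨fun x => if h : x ∈ W then (p ⟨x, h⟩).1 else x, fun w hw => ?_⟩
    simp only [dif_pos hw, dif_pos (p ⟨w, hw⟩).2]
    refine ⟨(p ⟨w, hw⟩).2, ?_, M.adj_sub (hp ⟨w, hw⟩)⟩
    have := hp' (p ⟨w, hw⟩) ⟨w, hw⟩ (hp ⟨w, hw⟩).symm
    exact (congrArg Subtype.val this).symm
  rw [SimpleGraph.tutte, not_forall] at h1
  obtain ⟨u, hu⟩ := h1
  rw [not_not] at hu
  unfold SimpleGraph.IsTutteViolator at hu
  set H := ((⊤ : G.Subgraph).deleteVerts u).coe with hH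
  let φ : H.ConnectedComponent → Finset X := fun c =>
    (c.supp.toFinite.toFinset).image fun y => y.1.1
  have hφ : ∀ c x, x ∈ φ c ↔ ∃ y ∈ c.supp, y.1.1 = x := fun c x => by simp [φ]
  have hinj : Function.Injective
      fun y : ((⊤ : G.Subgraph).deleteVerts u).verts => y.1.1 :=
    fun a b e => Subtype.ext (Subtype.ext e)
  have hcard : ∀ c, (φ c).card = c.supp.ncard := fun c => by
    simp only [φ]
    rw [card_image_of_injective _ hinj, Set.ncard_eq_toFinset_card _ c.supp.toFinite]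
  have hdis : ∀ c c' x, x ∈ φ c → x ∈ φ c' → c = c' := fun c c' x h h' => by
    obtain ⟨y, y1, y2⟩ := (hφ _ _).1 h
    obtain ⟨z, z1, z2⟩ := (hφ _ _).1 h'
    obtain rfl : y = z := hinj (y2.trans z2.symm)
    exact y1.symm.trans z1
  let U : Finset X := (u.toFinite.toFinset).image Subtype.val
  have hU : ∀ x, x ∈ U ↔ ∃ y ∈ u, y.1 = x := fun x => by simp only [U, mem_image, Set.Finite.mem_toFinset]
  refine ⟨U, (H.oddComponents.toFinite.toFinset).image φ, ⟨fun x hx => ?_, fun k hk x hx => ?_,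
    fun k hk => ?_, fun k hk w hw w' hw' ha => ?_, fun k hk k' hk' hne => ?_⟩, ?_⟩
  · obtain ⟨y, -, rfl⟩ := (hU x).1 hx
    exact y.2
  · obtain ⟨c, -, rfl⟩ := mem_image.1 hk
    obtain ⟨y, -, rfl⟩ := (hφ _ _).1 hx
    refine mem_sdiff.2 ⟨y.1.2, fun h => ?_⟩
    obtain ⟨z, z1, z2⟩ := (hU _).1 h
    obtain rfl : z = y.1 := Subtype.ext z2
    exact y.2.2 z1
  · obtain ⟨c, hc, rfl⟩ := mem_image.1 hk
    rw [hcard, ← Nat.odd_iff]
    simpa using hc
  · obtain ⟨c, -, rfl⟩ := mem_image.1 hk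
    obtain ⟨y, y1, rfl⟩ := (hφ _ _).1 hw
    by_cases h : (⟨w', hw'⟩ : W) ∈ u
    · exact Or.inr ((hU _).2 ⟨_, h, rfl⟩)
    · refine Or.inl ((hφ _ _).2 ⟨⟨⟨w', hw'⟩, trivial, h⟩, ?_, rfl⟩)
      have h2 : H.Adj y ⟨⟨w', hw'⟩, trivial, h⟩ := by
        simp only [hH, SimpleGraph.Subgraph.coe_adj, SimpleGraph.Subgraph.deleteVerts_adj]
        exact ⟨trivial, y.2.2, trivial, h, ha⟩
      exact (SimpleGraph.ConnectedComponent.mem_supp_congr_adj c h2).1 y1
  · obtain ⟨c, -, rfl⟩ := mem_image.1 hk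
    obtain ⟨c', -, rfl⟩ := mem_image.1 hk'
    exact disjoint_left.2 fun x h h' => hne (by rw [hdis _ _ x h h'])
  · rw [card_image_of_injective _ Subtype.val_injective, card_image_of_injOn,
      ← Set.ncard_eq_toFinset_card _ u.toFinite,
      ← Set.ncard_eq_toFinset_card _ H.oddComponents.toFinite]
    · exact hu
    · intro c _ c' _ e
      obtain ⟨y, hy⟩ := c.nonempty_supp
      have h1 : y.1.1 ∈ φ c := (hφ _ _).2 ⟨y, hy, rfl⟩
      exact hdis _ _ _ h1 (e ▸ h1)

open Classical in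
theorem tutte_form (W : Finset X) (adj : X → X → Prop) (hs : ∀ x y, adj x y → adj y x)
    (hi : ∀ x, ¬ adj x x) (hW : W.card % 2 = 0)
    (h : ∀ U K, Viol W adj U K → U.card + 2 ≤ K.card →
      (∀ u ∈ U, 3 ≤ (K.filter fun k => ∃ w ∈ k, adj u w).card) → False) :
    ∃ m : X → X, ∀ w ∈ W, m w ∈ W ∧ m (m w) = w ∧ adj w (m w) := by
  by_contra hn
  have hex : ∃ n, ∃ U K, Viol W adj U K ∧ U.card < K.card ∧ U.card = n := by
    obtain ⟨U, K, h1, h2⟩ := tu_first W adj hs hi hn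
    exact ⟨_, U, K, h1, h2, rfl⟩
  obtain ⟨U, K0, v0, l0, e0⟩ := Nat.find_spec hex
  have hmin : ∀ U' K', Viol W adj U' K' → U'.card < K'.card → U.card ≤ U'.card :=
    fun U' K' h1 h2 => e0 ▸ Nat.find_min' hex ⟨U', K', h1, h2, rfl⟩
  have par : ∀ K : Finset (Finset X), Viol W adj U K →
      (W \ U).card % 2 = (((W \ U) \ K.biUnion id).card + K.card) % 2 := fun K v => by
    have h1 : K.biUnion id ⊆ W \ U := biUnion_subset.2 v.mem
    have h2 := card_sdiff_add_card_eq_card h1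
    have h3 : (K.biUnion id).card = ∑ k ∈ K, k.card :=
      card_biUnion fun k hk k' hk' e => v.dis k hk k' hk' e
    have h4 : (∑ k ∈ K, k.card) % 2 = K.card % 2 := by
      rw [sum_nat_mod, sum_congr rfl v.odd]
      simp
    omega
  have hc := card_sdiff_add_card_eq_card v0.sub
  obtain ⟨K, v, l⟩ : ∃ K, Viol W adj U K ∧ U.card + 2 ≤ K.card := by
    have p0 := par K0 v0
    by_cases hR : ((W \ U) \ K0.biUnion id).card % 2 = 0
    · exact ⟨K0, v0, by omega⟩
    · set R := (W \ U) \ K0.biUnion id with hRd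
      have hd : ∀ k ∈ K0, Disjoint R k := fun k hk => disjoint_left.2 fun x hx hx' =>
        (mem_sdiff.1 hx).2 (mem_biUnion.2 ⟨k, hk, hx'⟩)
      have hR0 : R ∉ K0 := fun e => by
        have := disjoint_self.1 (hd R e)
        rw [this] at hR
        simp at hR
      refine ⟨insert R K0, ⟨v0.sub, fun k hk => ?_, fun k hk => ?_, fun k hk w hw w' hw' ha => ?_,
        fun k hk k' hk' hne => ?_⟩, by rw [card_insert_of_notMem hR0]; omega⟩
      · rcases mem_insert.1 hk with rfl | hk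
        · exact sdiff_subset
        · exact v0.mem k hk
      · rcases mem_insert.1 hk with rfl | hk
        · omega
        · exact v0.odd k hk
      · rcases mem_insert.1 hk with rfl | hk
        · by_cases hu : w' ∈ U
          · exact Or.inr hu
          · refine Or.inl (mem_sdiff.2 ⟨mem_sdiff.2 ⟨hw', hu⟩, fun e => ?_⟩)
            obtain ⟨k, hk, e⟩ := mem_biUnion.1 e
            have h1 := mem_sdiff.1 (mem_sdiff.1 hw).1
            rcases v0.clo k hk w' e w h1.1 (hs _ _ ha) with h2 | h2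
            · exact disjoint_left.1 (hd k hk) hw h2
            · exact h1.2 h2
        · exact v0.clo k hk w hw w' hw' ha
      · rcases mem_insert.1 hk with rfl | hk <;> rcases mem_insert.1 hk' with rfl | hk'
        · exact absurd rfl hne
        · exact hd _ hk'
        · exact (hd _ hk).symm
        · exact v0.dis k hk k' hk' hne
  refine h U K v l fun u hu => by_contra fun hlt => ?_
  have h1 := card_filter_add_card_filter_not (s := K) fun k => ∃ w ∈ k, adj u w
  have h2 := card_erase_add_one hu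
  have h3 := hmin (U.erase u) (K.filter fun k => ¬ ∃ w ∈ k, adj u w)
    ⟨(erase_subset _ _).trans v.sub, fun k hk => (v.mem k (mem_filter.1 hk).1).trans
      (sdiff_subset_sdiff Subset.rfl (erase_subset _ _)), fun k hk => v.odd k (mem_filter.1 hk).1,
      fun k hk w hw w' hw' ha => (v.clo k (mem_filter.1 hk).1 w hw w' hw' ha).imp_right fun e =>
        mem_erase.2 ⟨fun e' => (mem_filter.1 hk).2 ⟨w, hw, e' ▸ hs _ _ ha⟩, e⟩,
      fun k hk k' hk' => v.dis k (mem_filter.1 hk).1 k' (mem_filter.1 hk').1⟩ (by omega)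
  omega

end Pool.Agent.P.MP_0ad50f_co.BL
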